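import Pool.Agent.Helper26.G5.Defs5
import Pool.Agent.Helper26.G4.ParamB

/-!
# G5-PARAM: choice of the parameters

As `Pool.Agent.Helper26.G4.param4`: `mm5 = (1 - c₀) mm`, the exponent is `(1 - c₀) / 4 + ε'`. All conditions of
`Sm5` are of the form `A δ ≤ C`, except `s1` and `s7` (as in `param4`).
-/

set_option autoImplicit false

namespace Pool.Agent.Helper26.G5

open MeasureTheory Set
open scoped Real
open Pool.Agent.Helper90.G2 (Bx Wn Fn ar ch Cen chi)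
open Pool.Agent.Helper26.G4 (vt Br Lb wd al rr w0 Bad cn vk lv KN Sa Sc mm KK C9 Sg)

/-- the exponent -/
theorem param5_exp {e ε' ε δ θ L m b : ℝ} {M : ℕ} (he : 0 < e) (he1 : e ≤ 1) (hee : e ≤ ε')
    (hM : 1 ≤ M) (hε : ε = e * Real.log 2 / (24 * C9)) (hL : L = M * Real.log 2) (hδ0 : 0 < δ)
    (hθδ : θ ≤ δ) (hδ : δ * (8 * (C9 + 1)) ≤ e * Real.log 2) (hb : b ≤ 1 / 4)
    (hm : m ≤ b * (1 + e) * L) :
    (C9 * δ ^ 2 * M + 4 * δ ^ 2 * ε) * θ + δ ^ 2 * (ε * M + m) + 4 * δ ^ 2 * ε +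
      3 * ε * (C9 * δ ^ 2 * M) ≤ L * ((b + ε') * δ ^ 2) := by
  obtain ⟨hl0, hl1⟩ := Pool.Agent.Helper90.G2.Param_log2
  have hC : (C9 : ℝ) = 10000000000 := rfl
  have hMr : (1 : ℝ) ≤ M := by exact_mod_cast hM
  have hL0 : 0 < L := by rw [hL]; positivity
  have heL : 0 < e * L := mul_pos he hL0
  have hel0 : 0 < e * Real.log 2 := mul_pos he hl0
  have hel1 : e * Real.log 2 ≤ 1 := by nlinarith
  have hel : e * Real.log 2 ≤ e * L := by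
    rw [hL]
    exact mul_le_mul_of_nonneg_left (by nlinarith) he.le
  have hε2 : ε * 240000000000 = e * Real.log 2 := by
    rw [hε, hC]
    ring
  have hε0 : 0 < ε := by linarith
  have hεM : ε * M * 240000000000 = e * L := by
    rw [hL]
    calc ε * M * 240000000000 = ε * 240000000000 * M := by ring
      _ = e * (M * Real.log 2) := by rw [hε2]; ring
  rw [hC] at hδ ⊢
  have k1 : (10000000000 * M + 4 * ε) * θ ≤ e * L / 8 := by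
    have h1 : (10000000000 * M + 4 * ε) * θ ≤ (10000000000 * M + 4 * ε) * δ :=
      mul_le_mul_of_nonneg_left hθδ (by positivity)
    have h2 : (10000000000 * M + 4 * ε) * δ ≤ (10000000001 * M) * δ :=
      mul_le_mul_of_nonneg_right (by linarith) hδ0.le
    have h3 : δ * (8 * (10000000000 + 1)) * M ≤ e * Real.log 2 * M :=
      mul_le_mul_of_nonneg_right hδ (by linarith)
    rw [hL]
    linarith
  have k2 : m ≤ b * L + e * L / 4 := by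
    have h1 : b * (e * L) ≤ 1 / 4 * (e * L) := mul_le_mul_of_nonneg_right hb heL.le
    calc m ≤ b * (1 + e) * L := hm
      _ = b * L + b * (e * L) := by ring
      _ ≤ b * L + e * L / 4 := by linarith
  have k5 : (10000000000 * M + 4 * ε) * θ + (ε * M + m) + 4 * ε + 3 * ε * (10000000000 * M) ≤
      L * (b + ε') := by
    have h1 : e * L ≤ ε' * L := mul_le_mul_of_nonneg_right hee hL0.le
    linarith
  calc (10000000000 * δ ^ 2 * M + 4 * δ ^ 2 * ε) * θ + δ ^ 2 * (ε * M + m) + 4 * δ ^ 2 * ε +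
      3 * ε * (10000000000 * δ ^ 2 * M)
      = δ ^ 2 * ((10000000000 * M + 4 * ε) * θ + (ε * M + m) + 4 * ε +
        3 * ε * (10000000000 * M)) := by ring
    _ ≤ δ ^ 2 * (L * (b + ε')) := mul_le_mul_of_nonneg_left k5 (sq_nonneg _)
    _ = L * ((b + ε') * δ ^ 2) := by ring

theorem param5 {Ca b c₀ B Cc m₁ ε' : ℝ} (hCa : 0 < Ca) (hε' : 0 < ε') (hb : 0 < b) (hb1 : b ≤ 1)
    (hc : 0 < c₀) (hc1 : c₀ ≤ 1 / 2) (hB : 0 ≤ B) (hCc : 1 ≤ Cc) (hm : 0 < m₁) :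
    ∃ κ : ℝ, 0 < κ ∧ κ ≤ 1 / 4 ∧ 6 * κ * (C9 / Real.log 2) ≤ ε' ∧ ∃ ε : ℝ, 0 < ε ∧ ε ≤ 1 / 20 ∧
      ∃ M : ℕ, 1 ≤ M ∧ 2 ≤ κ * ((2 ^ M : ℕ) : ℝ) ∧ 2 / ((2 ^ M : ℕ) : ℝ) < κ ^ 2 ∧
      ∃ Cθ δ₀ : ℝ, 0 ≤ Cθ ∧ 0 < δ₀ ∧ δ₀ ≤ 1 / 4 ∧ ∀ δ : ℝ, 0 < δ → δ < δ₀ →
        Sm5 Ca b c₀ B Cc m₁ M κ ε δ ∧
        ∀ θ : ℝ, Cθ * δ ^ 2 ≤ θ → θ ≤ δ → 8 * δ ^ 2 * KK (2 ^ M) ε ^ 2 / ε ≤ θ ∧
          Real.exp ((C9 * δ ^ 2 * M + 4 * δ ^ 2 * ε) * θ +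
            δ ^ 2 * (ε * M + mm5 c₀ (Sc κ (2 ^ M)) ε) + 4 * δ ^ 2 * ε + 3 * ε * (C9 * δ ^ 2 * M)) ≤
          ((2 ^ M : ℕ) : ℝ) ^ (((1 - c₀) / 4 + ε') * δ ^ 2) := by
  obtain ⟨hl0, hl1⟩ := Pool.Agent.Helper90.G2.Param_log2
  have hC : (C9 : ℝ) = 10000000000 := rfl
  have he : 0 < min ε' 1 := lt_min hε' one_pos
  have he1 : min ε' 1 ≤ 1 := min_le_right _ _
  have hee : min ε' 1 ≤ ε' := min_le_left _ _
  generalize min ε' 1 = e at *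
  obtain ⟨κ, hκ, hκ1, hκ2, L₀, hL₀⟩ := Pool.Agent.Helper26.G4.param4_kap he he1
  obtain ⟨M, hM1, hM2, hM3, hM4⟩ := Pool.Agent.Helper90.G2.Param_M hκ hκ1 L₀
  have hLM := Pool.Agent.Helper90.G2.Param_log M
  have hMr : (1 : ℝ) ≤ M := by exact_mod_cast hM1
  have hLpos : 0 < Real.log ((2 ^ M : ℕ) : ℝ) := by rw [hLM]; positivity
  have hN0 : (0 : ℝ) < ((2 ^ M : ℕ) : ℝ) := by positivity
  have hsS := hL₀ _ hLpos hM4
  obtain ⟨ε, hε⟩ : ∃ ε : ℝ, ε = e * Real.log 2 / (24 * C9) := ⟨_, rfl⟩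
  have hε0 : 0 < ε := by rw [hε, hC]; positivity
  have hε2 : ε * 240000000000 = e * Real.log 2 := by
    rw [hε, hC]
    ring
  have hel : e * Real.log 2 ≤ e * 1 := mul_le_mul_of_nonneg_left hl1.le he.le
  have hK0 : 0 < KN (2 ^ M) := Real.exp_pos _
  have hsw : 0 ≤ sw b B := by unfold sw; positivity
  obtain ⟨C, hCd⟩ : ∃ C : ℝ, C = (Ca * (1 + Real.log ((2 ^ M : ℕ) : ℝ)) + 2 * sw b B) / (ε * M) + 1 :=
    ⟨_, rfl⟩
  have hC0 : 0 ≤ C := by rw [hCd]; positivity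
  obtain ⟨k, hk⟩ : ∃ k : ℝ, k = KN (2 ^ M) := ⟨_, rfl⟩
  rw [← hk] at hK0
  obtain ⟨D, hD⟩ : ∃ D : ℝ, D = √((C + 2) * Real.log ((2 ^ M : ℕ) : ℝ) * √(2 * (Cc * k))) :=
    ⟨_, rfl⟩
  obtain ⟨l3, hl3⟩ : ∃ l3 : ℝ, l3 = Real.log (3 * (Cc * k)) := ⟨_, rfl⟩
  obtain ⟨k5, hk5⟩ : ∃ k5 : ℝ, k5 = K5 (2 ^ M) B := ⟨_, rfl⟩
  obtain ⟨kk, hkk⟩ : ∃ kk : ℝ, kk = KK (2 ^ M) ε := ⟨_, rfl⟩
  obtain ⟨q, hq⟩ : ∃ q : ℝ, q = 1 + KK (2 ^ M) ε + mm (Sc κ (2 ^ M)) ε + mm (Sa (2 ^ M)) ε :=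
    ⟨_, rfl⟩
  obtain ⟨N, hN⟩ : ∃ N : ℝ, N = ((2 ^ M : ℕ) : ℝ) := ⟨_, rfl⟩
  have hNp : 0 < N := by rw [hN]; exact hN0
  have e0 := Pool.Agent.Helper26.G4.param4_ev (f := fun δ => δ * q) (by fun_prop)
    (show (fun δ : ℝ => δ * q) 0 < m₁ by simpa using hm)
  have e1 := Pool.Agent.Helper26.G4.param4_ev (f := fun δ => δ * (10 * N + l3) + 2 * √δ)
    (by fun_prop) (show (fun δ : ℝ => δ * (10 * N + l3) + 2 * √δ) 0 < ε by simpa using hε0)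
  have e2 := Pool.Agent.Helper26.G4.param4_ev (f := fun δ => δ * k) (by fun_prop)
    (show (fun δ : ℝ => δ * k) 0 < ε / 4 by simpa using hε0)
  have e3 := Pool.Agent.Helper26.G4.param4_ev (f := fun δ => δ * k5) (by fun_prop)
    (show (fun δ : ℝ => δ * k5) 0 < ε / (4 * N) by
      have : 0 < ε / (4 * N) := by positivity
      simpa using this)
  have e4 := Pool.Agent.Helper26.G4.param4_ev (f := fun δ => δ * (1 + B)) (by fun_prop)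
    (show (fun δ : ℝ => δ * (1 + B)) 0 < 1 / 8 by norm_num)
  have e5 := Pool.Agent.Helper26.G4.param4_ev (f := fun δ => δ) (by fun_prop)
    (show (fun δ : ℝ => δ) 0 < ε / 4 by simpa using hε0)
  have e6 := Pool.Agent.Helper26.G4.param4_ev (f := fun δ => 8 * δ ^ 2 * kk ^ 2) (by fun_prop)
    (show (fun δ : ℝ => 8 * δ ^ 2 * kk ^ 2) 0 < ε by simpa using hε0)
  have e7 := Pool.Agent.Helper26.G4.param4_ev (f := fun δ => δ * Ca + √(√δ) * (Ca * D))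
    (by fun_prop) (show (fun δ : ℝ => δ * Ca + √(√δ) * (Ca * D)) 0 < ε by simpa using hε0)
  have e8 := Pool.Agent.Helper26.G4.param4_ev (f := fun δ => δ * (8 * (C9 + 1))) (by fun_prop)
    (show (fun δ : ℝ => δ * (8 * (C9 + 1))) 0 < e * Real.log 2 by
      simpa using mul_pos he hl0)
  obtain ⟨δ₁, hδ₁, hδ₁'⟩ := Pool.Agent.Helper90.G2.Param_ex
    ((((e1.and e2).and (e3.and e4)).and ((e5.and e6).and (e7.and e8))).and e0)
  refine ⟨κ, hκ, hκ1, hκ2.trans hee, ε, hε0, by linarith, M, hM1, hM2, hM3, 8 * kk ^ 2 / ε,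
    min δ₁ (1 / 4), by positivity, lt_min hδ₁ (by norm_num), min_le_right _ _, ?_⟩
  intro δ h0 hδ
  obtain ⟨⟨⟨⟨c1, c2⟩, c3, c4⟩, ⟨c5, c6⟩, c7, c8⟩, c0⟩ :=
    hδ₁' δ h0 (hδ.trans_le (min_le_left _ _))
  have hδ4 : δ ≤ 1 := by linarith [(hδ.trans_le (min_le_right _ _)).le]
  have hCk : 0 < Cc * k := mul_pos (by linarith) hK0
  have hkCk : k ≤ Cc * k := le_mul_of_one_le_left hK0.le hCc
  refine ⟨⟨h0, c5, ?_, ?_, ?_, ?_, c4, ?_, ?_⟩, fun θ hθ hθδ => ⟨?_, ?_⟩⟩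
  · rw [← hq]
    exact c0
  · rw [← hk, ← hN]
    refine le_trans (mul_le_mul_of_nonneg_left ?_ h0.le)
      (Pool.Agent.Helper26.G4.param4_s1 (K := Cc * k) h0 hδ4 hCk (by rw [← hl3]; exact c1))
    have h1 : 2 * Cc * k / δ + k ≤ 2 * (Cc * k) / δ + Cc * k := by
      rw [mul_assoc]
      linarith
    have h2 := Real.log_le_log (by positivity) h1
    linarith
  · rw [← hk]
    exact c2
  · rw [← hk5, ← hN]
    exact c3
  · rw [← hkk]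
    exact c6
  · rw [← hk, mul_assoc 2 Cc k]
    refine Pool.Agent.Helper26.G4.param4_s7 hCa h0 hδ4 hLpos.le hC0 ?_
      (by rw [← hD]; exact c7)
    have h1 : 0 ≤ (Ca * (1 + Real.log ((2 ^ M : ℕ) : ℝ)) + 2 * sw b B) / (ε * δ * M) := by
      positivity
    have h2 := (Nat.ceil_lt_add_one h1).le
    have h3 : (1 : ℝ) ≤ 1 / δ := by
      rw [le_div_iff₀ h0]
      linarith
    have h4 : (Ca * (1 + Real.log ((2 ^ M : ℕ) : ℝ)) + 2 * sw b B) / (ε * δ * M) =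
        (Ca * (1 + Real.log ((2 ^ M : ℕ) : ℝ)) + 2 * sw b B) / (ε * M) / δ := by
      rw [div_div]
      congr 1
      ring
    unfold Lw5
    rw [Nat.cast_add, Nat.cast_one]
    calc ((⌈(Ca * (1 + Real.log ((2 ^ M : ℕ) : ℝ)) + 2 * sw b B) / (ε * δ * M)⌉₊ : ℕ) : ℝ) + 1
        ≤ (Ca * (1 + Real.log ((2 ^ M : ℕ) : ℝ)) + 2 * sw b B) / (ε * δ * M) + 1 / δ + 1 := by
          linarith
      _ = C / δ + 1 := by rw [h4, hCd, add_div _ 1 δ]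
  · rw [← hkk]
    refine le_trans (le_of_eq ?_) hθ
    ring
  · rw [Real.rpow_def_of_pos hN0]
    refine Real.exp_le_exp.2 (param5_exp he he1 hee hM1 hε hLM h0 hθδ c8 (by linarith) ?_)
    have h1 := Pool.Agent.Helper26.G4.param4_mm (S := Sc κ (2 ^ M)) (ε := ε) he he1
      (by linarith) hLpos hsS
    unfold mm5
    calc (1 - c₀) * mm (Sc κ (2 ^ M)) ε ≤ (1 - c₀) * ((1 + e) / 4 * Real.log ((2 ^ M : ℕ) : ℝ)) :=
          mul_le_mul_of_nonneg_left h1 (by linarith)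
      _ = (1 - c₀) / 4 * (1 + e) * Real.log ((2 ^ M : ℕ) : ℝ) := by ring

end Pool.Agent.Helper26.G5
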