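import Pool.Agent.Helper26.G5.Defs5
import Pool.Agent.Helper17.G5.Main5
import Pool.Agent.Helper33.G5.Inst

/-!
# G5-TK: templates exist

From `keyZ` of helper17 (`Helper17/G5`) and the templates of helper33 (`Helper33/G5`) (right half plane only).
-/

set_option autoImplicit false

namespace Pool.Agent.Helper26.G5

open MeasureTheory Set
open scoped Real
open Pool.Agent.Helper90.G2 (Bx Wn Fn ar ch Cen chi)
open Pool.Agent.Helper26.G4 (vt Br Lb wd al rr w0 Bad cn vk lv KN Sa Sc mm KK C9 Sg)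

theorem tk_pos {e0 : ℝ} (h : 0 < e0) : ∃ (κ : ℂ → ℝ) (b c₀ B Cc m₁ : ℝ),
    (0 < b ∧ b ≤ 1 ∧ 0 < c₀ ∧ c₀ ≤ 1 / 2 ∧ 0 ≤ B ∧ 1 ≤ Cc ∧ 0 < m₁) ∧
    ∀ ω : ℂ, ‖ω‖ = 1 → e0 ≤ ω.re → Tk κ ω b c₀ B Cc m₁ := by
  obtain ⟨κ, Lk, ρ, kinf, c1, c2, e2, m2, hW⟩ := Helper33.G5.exists_tw h (Or.inl rfl)
  obtain ⟨b, c0, m0, B, d0, Cc, hb, hb1, hc0, hc01, hm0, hm01, hB, hd0, hd01, hCc, key⟩ :=
    Helper17.G5.keyZ hW (fun v hv => hv.1) (A := 1) le_rfl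
  have hm : 0 < min (min m0 d0) (1 / 4) := by positivity
  have h1 : min (min m0 d0) (1 / 4) ≤ m0 := (min_le_left _ _).trans (min_le_left _ _)
  have h2 : min (min m0 d0) (1 / 4) ≤ d0 := (min_le_left _ _).trans (min_le_right _ _)
  have h3 : min (min m0 d0) (1 / 4) ≤ 1 / 4 := min_le_right _ _
  refine ⟨κ, b, c0, B, Cc, min (min m0 d0) (1 / 4), ⟨hb, hb1, hc0, hc01, hB.le, hCc, hm⟩,
    fun ω hω hre => ⟨hW.meas, hW.bd, hb, hb1, hc0, hc01, hB.le, hCc, hm, h3, ?_⟩⟩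
  intro d m hd hd1 hm' hm1 s ζ hs hζ
  have hv : (starRingEnd ℂ) ω ∈ Helper33.G5.Vs e0 1 :=
    ⟨by rw [Complex.norm_conj]; exact hω, by rw [Complex.conj_re, one_mul]; exact hre⟩
  obtain ⟨ν, hν, hν1, H, g0, g1, g2, g3, g4, g5⟩ :=
    key ω hv d hd (hd1.trans h2) m hm' (hm1.trans h1) s hs ζ hζ
  refine ⟨ν, hν, hν1.trans (mul_le_of_le_one_right hB.le ((hm1.trans h1).trans hm01)), H, g0, g1, g2,
    g4, fun z hz => ?_, g5⟩
  have := g3 z hz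
  rw [one_mul] at this
  exact this

end Pool.Agent.Helper26.G5
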