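import Pool.Agent.Helper26.G5.Freeze5
import Pool.Agent.Helper26.G4.RetK
import Pool.Agent.Helper26.G4.Seg

/-!
# G5-YEX: the frozen sequences exist

Copy of `Pool.Agent.Helper26.G4.y_ex` with `L = Lw5`, `C = δ Ca (1 + log N)`, `s = sw b B δ`:
`C + 2 s ≤ L (ε δ² M)`, `L ≥ 2`.
-/

set_option autoImplicit false

namespace Pool.Agent.Helper26.G5

open MeasureTheory Set
open scoped Real
open Pool.Agent.Helper90.G2 (Bx Wn Fn ar ch Cen chi)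
open Pool.Agent.Helper26.G4 (vt Br Lb wd al rr w0 Bad cn vk lv KN Sa Sc mm KK C9 Sg)

/-- the radius is nonnegative, the ratio is bounded by the constant of `Bad` -/
private theorem yEx5_ratio_le {F : ℂ → ℂ} {C : ℝ} (hC : 0 ≤ C) {v u : ℂ} (hv : 0 ≤ v.re)
    (h : ‖F v - F u‖ ≤ C * rr F v) : ‖F v - F u‖ / rr F v ≤ C := by
  have hr : 0 ≤ rr F v := mul_nonneg hv (norm_nonneg _)
  exact div_le_of_le_mul₀ hr hC h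

/-- the reference points are in the right half plane -/
private theorem yEx5_vk_re_nonneg (N : ℕ) (ξ : ℝ) (k : ℕ) (u : ℂ) : 0 ≤ (vk N ξ k u).re := by
  simp only [vk, vt]
  positivity

/-- the change of the exponent -/
private theorem yEx5_al_sub_le (Λ : ℂ → ℂ → ℂ) (τ v v' u : ℂ) {C : ℝ}
    (h : ‖Lb Λ v' u - Lb Λ v u‖ ≤ C) : |al Λ τ v' u - al Λ τ v u| ≤ ‖τ‖ * C := by
  have e : al Λ τ v' u - al Λ τ v u = -(τ * (Lb Λ v' u - Lb Λ v u)).re := by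
    simp only [al, mul_sub, Complex.sub_re]
    ring
  rw [e, abs_neg]
  calc |(τ * (Lb Λ v' u - Lb Λ v u)).re| ≤ ‖τ * (Lb Λ v' u - Lb Λ v u)‖ := Complex.abs_re_le_norm _
    _ = ‖τ‖ * ‖Lb Λ v' u - Lb Λ v u‖ := norm_mul _ _
    _ ≤ ‖τ‖ * C := mul_le_mul_of_nonneg_left h (norm_nonneg _)

theorem y_ex5 : ∃ Ca : ℝ, 0 < Ca ∧ ∀ (F : ℂ → ℂ) (A : ℝ) (Λ : ℂ → ℂ → ℂ), Fn F A → Br F Λ →
    ∀ M : ℕ, 1 ≤ M → ∀ (b c₀ B Cc m₁ κ ε : ℝ) (τ : ℂ), 0 < ε → 0 < b → 0 ≤ B → 1 ≤ Cc →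
    Sm5 Ca b c₀ B Cc m₁ M κ ε ‖τ‖ → ∀ ξ : ℝ, ∃ y χ : ℂ → ℕ → ℝ, Yf5 F Λ M ξ ε b B Cc τ y χ := by
  obtain ⟨Ca, hCa, hret⟩ := Pool.Agent.Helper26.G4.retK
  refine ⟨Ca, hCa, fun F A Λ hF hΛ M hM b c₀ B Cc m₁ κ ε τ hε hb hB hCc hS ξ => ?_⟩
  have hδ : 0 < ‖τ‖ := hS.pos
  have hM0 : (0 : ℝ) < M := by exact_mod_cast hM
  have hN2 : 2 ≤ 2 ^ M := by
    calc 2 = 2 ^ 1 := by norm_num
      _ ≤ 2 ^ M := Nat.pow_le_pow_right (by norm_num) hM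
  have hN1 : (1 : ℝ) ≤ ((2 ^ M : ℕ) : ℝ) := by
    exact_mod_cast (le_trans (by norm_num) hN2)
  have hlog : 0 ≤ Real.log ((2 ^ M : ℕ) : ℝ) := Real.log_nonneg hN1
  have hKN : 0 < KN (2 ^ M) := Real.exp_pos _
  have hCc0 : 0 < Cc := by linarith
  have hsw : 0 < sw b B := by
    unfold sw
    positivity
  have hden : 0 < ε * ‖τ‖ * M := by positivity
  have hC0 : 0 ≤ ‖τ‖ * (Ca * (1 + Real.log ((2 ^ M : ℕ) : ℝ))) := by positivity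
  have hq : 0 < (Ca * (1 + Real.log ((2 ^ M : ℕ) : ℝ)) + 2 * sw b B) / (ε * ‖τ‖ * M) := by
    positivity
  have hL2 : 2 ≤ Lw5 Ca b B ε ‖τ‖ M := by
    have h1 := Nat.one_le_ceil_iff.2 hq
    unfold Lw5
    omega
  have hLC : ‖τ‖ * (Ca * (1 + Real.log ((2 ^ M : ℕ) : ℝ))) + 2 * (sw b B * ‖τ‖) ≤
      (Lw5 Ca b B ε ‖τ‖ M : ℝ) * (ε * ‖τ‖ ^ 2 * M) := by
    have h1 : (Ca * (1 + Real.log ((2 ^ M : ℕ) : ℝ)) + 2 * sw b B) / (ε * ‖τ‖ * M) ≤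
        (Lw5 Ca b B ε ‖τ‖ M : ℝ) := by
      refine (Nat.le_ceil _).trans ?_
      unfold Lw5
      push_cast
      linarith
    rw [div_le_iff₀ hden] at h1
    calc ‖τ‖ * (Ca * (1 + Real.log ((2 ^ M : ℕ) : ℝ))) + 2 * (sw b B * ‖τ‖)
        = ‖τ‖ * (Ca * (1 + Real.log ((2 ^ M : ℕ) : ℝ)) + 2 * sw b B) := by ring
      _ ≤ ‖τ‖ * ((Lw5 Ca b B ε ‖τ‖ M : ℝ) * (ε * ‖τ‖ * M)) := mul_le_mul_of_nonneg_left h1 hδ.le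
      _ = (Lw5 Ca b B ε ‖τ‖ M : ℝ) * (ε * ‖τ‖ ^ 2 * M) := by ring
  have key : ∀ u ∈ Bx ξ 1, ∃ y χ : ℕ → ℝ, Fz5 (fun k => al Λ τ (vk (2 ^ M) ξ k u) u)
      (fun k => Bad F Λ (ε / ‖τ‖) (2 * Cc * KN (2 ^ M) / ‖τ‖) (vk (2 ^ M) ξ k u) u)
      (ε * ‖τ‖ ^ 2 * M) (sw b B * ‖τ‖) (lv (2 ^ M) u) y χ := by
    intro u hu
    refine freeze5 (by positivity) hC0 hL2 hLC fun k hk hbad => ?_
    obtain ⟨hb1, hb2⟩ := hbad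
    have hratio : ‖F (vk (2 ^ M) ξ k u) - F u‖ / rr F (vk (2 ^ M) ξ k u) ≤
        2 * Cc * KN (2 ^ M) / ‖τ‖ := yEx5_ratio_le (by positivity) (yEx5_vk_re_nonneg _ _ _ _) hb2
    have hwd : Ca * (1 + √((Lw5 Ca b B ε ‖τ‖ M + 1) * Real.log ((2 ^ M : ℕ) : ℝ) *
        √(‖F (vk (2 ^ M) ξ k u) - F u‖ / rr F (vk (2 ^ M) ξ k u)))) ≤
        |wd Λ (vk (2 ^ M) ξ k u) u| := by
      refine le_trans ?_ hb1.le
      refine le_trans ?_ hS.s7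
      refine mul_le_mul_of_nonneg_left ?_ hCa.le
      have h3 : √(‖F (vk (2 ^ M) ξ k u) - F u‖ / rr F (vk (2 ^ M) ξ k u)) ≤
          √(2 * Cc * KN (2 ^ M) / ‖τ‖) := Real.sqrt_le_sqrt hratio
      have h4 : (0 : ℝ) ≤ (Lw5 Ca b B ε ‖τ‖ M + 1) * Real.log ((2 ^ M : ℕ) : ℝ) := by positivity
      have h5 := Real.sqrt_le_sqrt (mul_le_mul_of_nonneg_left h3 h4)
      linarith
    obtain ⟨k', h1, h2, h3⟩ := hret F A Λ hF hΛ (2 ^ M) hN2 ξ u hu k hk (Lw5 Ca b B ε ‖τ‖ M) hwd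
    exact ⟨k', h1, h2, yEx5_al_sub_le Λ τ _ _ _ h3⟩
  choose! y χ hy using key
  exact ⟨y, χ, hy⟩

end Pool.Agent.Helper26.G5
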