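import Pool.Agent.Helper26.G5.Node5
import Pool.Agent.Helper26.G5.YEx5
import Pool.Agent.Helper26.G5.Param5
import Pool.Agent.Helper26.G5.Tk5
import Pool.Agent.Helper26.G4.HeightsB

/-!
# G5-HEIGHTS: all heights, and the exponent

Copy of `Pool.Agent.Helper26.G4.heights4` with `τ = (t + 2 θ) / (1 + θ)`,
`θ = C' |t|²`: `e0 |t| ≤ re t` gives `e0 |τ| ≤ re τ` (as `e0 ≤ 1`). `param5` with `ε' = c₀ / 16`,
`G = N^(((1 - c₀) / 4 + ε') |τ|²)`, another `ε' |τ|²` for `exp (6 κ c' K)`, and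
`((1 - c₀) / 4 + c₀ / 8) |τ|² ≤ (1/4 - c) |t|²`, `c = c₀ / 16`, for small `|t|`.
-/

set_option autoImplicit false

namespace Pool.Agent.Helper26.G5

open MeasureTheory Set
open scoped Real
open Pool.Agent.Helper90.G2 (Bx Wn Fn ar ch Cen chi)
open Pool.Agent.Helper26.G4 (vt Br Lb wd al rr w0 Bad cn vk lv KN Sa Sc mm KK C9 Sg)

/-- the bound at the heights `2 N^(-K)`, `N = 2^M` -/
theorem heights5_K {e g κ δ a w : ℝ} (hκ : 6 * κ * (C9 / Real.log 2) ≤ e)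
    (ht : (g + e) * δ ^ 2 ≤ w) (M K : ℕ) :
    (((2 ^ M : ℕ) : ℝ) ^ (g * δ ^ 2)) ^ K *
        (((2 ^ M : ℕ) : ℝ) ^ K) ^ (1 - a) * Real.exp (6 * κ * (C9 * δ ^ 2 * M) * K) ≤
      (((2 ^ M : ℕ) : ℝ) ^ K) ^ (1 - a + w) := by
  have hx : (0:ℝ) < ((2 ^ M : ℕ) : ℝ) ^ K := by positivity
  have hx1 : (1:ℝ) ≤ ((2 ^ M : ℕ) : ℝ) ^ K := by
    push_cast
    exact one_le_pow₀ (one_le_pow₀ one_le_two)
  have hG : (((2 ^ M : ℕ) : ℝ) ^ (g * δ ^ 2)) ^ K =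
      (((2 ^ M : ℕ) : ℝ) ^ K) ^ (g * δ ^ 2) := by
    rw [← Real.rpow_natCast, ← Real.rpow_mul (by positivity), mul_comm,
      Real.rpow_mul (by positivity), Real.rpow_natCast]
  rw [hG]
  have he := Pool.Agent.Helper26.G4.heightsB_exp (ε := 4 * e) (κ := κ) (δ := δ) (by linarith) M K
  have e4 : 4 * e / 4 * δ ^ 2 = e * δ ^ 2 := by ring
  rw [e4] at he
  calc (((2 ^ M : ℕ) : ℝ) ^ K) ^ (g * δ ^ 2) *
        (((2 ^ M : ℕ) : ℝ) ^ K) ^ (1 - a) * Real.exp (6 * κ * (C9 * δ ^ 2 * M) * K)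
      ≤ (((2 ^ M : ℕ) : ℝ) ^ K) ^ (g * δ ^ 2) *
        (((2 ^ M : ℕ) : ℝ) ^ K) ^ (1 - a) *
          (((2 ^ M : ℕ) : ℝ) ^ K) ^ (e * δ ^ 2) :=
        mul_le_mul_of_nonneg_left he (by positivity)
    _ = (((2 ^ M : ℕ) : ℝ) ^ K) ^ (g * δ ^ 2 + (1 - a) + e * δ ^ 2) := by
        rw [Real.rpow_add hx, Real.rpow_add hx]
    _ ≤ (((2 ^ M : ℕ) : ℝ) ^ K) ^ (1 - a + w) := by
        apply Real.rpow_le_rpow_of_exponent_le hx1
        linarith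

theorem heights5 {e0 : ℝ} (he : 0 < e0) :
    ∃ c δ₀ : ℝ, 0 < c ∧ c ≤ 1 / 8 ∧ 0 < δ₀ ∧ δ₀ ≤ 1 / 4 ∧ ∀ t : ℂ, t ≠ 0 → ‖t‖ < δ₀ →
      e0 * ‖t‖ ≤ t.re → ∃ C : ℝ, 0 ≤ C ∧
      ∀ ψ h : ℂ → ℂ, Sg ψ h → ∀ y : ℝ, 0 < y → y ≤ 1 →
        ∫ ξ in (0:ℝ)..(2 * π), ‖Complex.exp ((2 - t) * h (Complex.exp ⟨y, ξ⟩))‖ ≤
          C * y ^ (-(1 - t.re + (1 / 4 - c) * ‖t‖ ^ 2)) := by
  obtain ⟨C0, hC0, hsig⟩ := Pool.Agent.Helper26.G4.sig4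
  obtain ⟨Ca, hCa, hyex⟩ := y_ex5
  obtain ⟨κt, bt, c₀, B, Cc, m₁, ⟨hbt, hbt1, hc0, hc01, hB, hCc, hm₁⟩, htk⟩ := tk_pos he
  obtain ⟨κ, hκ, hκ1, hκ2, εp, hεp, hεp1, M, hM, hκM, hMκ, Cθ, δw, hCθ, hδw, hδw1, hw⟩ :=
    param5 (ε' := c₀ / 16) hCa (by positivity) hbt hbt1 hc0 hc01 hB hCc hm₁
  have hC9 : (0:ℝ) < C9 := by
    unfold C9
    norm_num
  obtain ⟨C', hC'⟩ : ∃ C' : ℝ, C' = 4 * Cθ + 1 := ⟨_, rfl⟩
  have hC'0 : 0 < C' := by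
    rw [hC']
    positivity
  obtain ⟨s₀, hs₀⟩ : ∃ s₀ : ℝ, s₀ = c₀ / 12 := ⟨_, rfl⟩
  have hs0 : 0 < s₀ := by
    rw [hs₀]
    positivity
  have hs1 : s₀ ≤ 1 / 3 := by
    rw [hs₀]
    linarith
  have hMC : 0 < 3 * (C9 * M + 1) := by positivity
  refine ⟨c₀ / 16, min (1 / 4) (min (δw / 2) (min (s₀ / (4 * C')) (2 / (3 * (C9 * M + 1))))),
    by positivity, by linarith, ?_, min_le_left _ _, ?_⟩
  · exact lt_min (by norm_num) (lt_min (by positivity) (lt_min (by positivity) (by positivity)))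
  intro t ht0 ht' hte
  rw [lt_min_iff, lt_min_iff, lt_min_iff] at ht'
  obtain ⟨ht1, ht2, ht3, ht4⟩ := ht'
  have hs : 0 < ‖t‖ := norm_pos_iff.mpr ht0
  obtain ⟨s, hsd⟩ : ∃ s : ℝ, s = ‖t‖ := ⟨_, rfl⟩
  rw [← hsd] at hs ht1 ht2 ht3 ht4
  rw [lt_div_iff₀ (by positivity)] at ht3
  rw [lt_div_iff₀ hMC] at ht4
  -- `θ`, `τ`
  obtain ⟨θ, hθ⟩ : ∃ θ : ℝ, θ = C' * s ^ 2 := ⟨_, rfl⟩
  have hθ0 : 0 < θ := by
    rw [hθ]
    positivity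
  have hCs : C' * s ≤ 1 / 12 := by linarith
  have hCs0 : 0 < C' * s := by positivity
  have hθs : θ = (C' * s) * s := by
    rw [hθ]
    ring
  have hθ12 : θ ≤ s / 12 := by
    rw [hθs]
    nlinarith
  have hθ1 : θ ≤ 1 := by linarith
  obtain ⟨τ, hτ⟩ : ∃ τ : ℂ, τ = (t + 2 * θ) / (1 + θ) := ⟨_, rfl⟩
  have h1θ : (1 + (θ : ℂ)) ≠ 0 := by
    have h : (1 + (θ : ℂ)) = ((1 + θ : ℝ) : ℂ) := by push_cast; rfl
    rw [h, Complex.ofReal_ne_zero]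
    linarith
  have hm : (2 - τ) * (1 + θ) = 2 - t := by
    rw [hτ, sub_mul, div_mul_cancel₀ _ h1θ]
    ring
  have hτm : τ * ((1 + θ : ℝ) : ℂ) = t + ((2 * θ : ℝ) : ℂ) := by
    rw [hτ]
    push_cast
    rw [div_mul_cancel₀ _ h1θ]
  have hτn : ‖τ‖ * (1 + θ) = ‖t + ((2 * θ : ℝ) : ℂ)‖ := by
    rw [← hτm, norm_mul, Complex.norm_real, Real.norm_eq_abs, abs_of_pos (by linarith : 0 < 1 + θ)]
  have h2θ : ‖((2 * θ : ℝ) : ℂ)‖ = 2 * θ := by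
    rw [Complex.norm_real, Real.norm_eq_abs, abs_of_pos (by linarith)]
  have hup : ‖τ‖ * (1 + θ) ≤ s + 2 * θ := by
    rw [hτn]
    refine (norm_add_le _ _).trans ?_
    rw [h2θ, hsd]
  have hlow : s - 2 * θ ≤ ‖τ‖ * (1 + θ) := by
    rw [hτn]
    have h := norm_sub_le (t + ((2 * θ : ℝ) : ℂ)) ((2 * θ : ℝ) : ℂ)
    rw [add_sub_cancel_right, h2θ, ← hsd] at h
    linarith
  obtain ⟨δ, hδ⟩ : ∃ δ : ℝ, δ = ‖τ‖ := ⟨_, rfl⟩
  rw [← hδ] at hup hlow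
  have hδn : 0 ≤ δ := by rw [hδ]; exact norm_nonneg _
  have hδup : δ ≤ s + 2 * θ := by
    have : δ ≤ δ * (1 + θ) := le_mul_of_one_le_right hδn (by linarith)
    linarith
  have hδlow : s / 2 ≤ δ := by
    by_contra hcon
    push Not at hcon
    have h1 : δ * (1 + θ) ≤ (s / 2) * (1 + θ) := mul_le_mul_of_nonneg_right hcon.le (by linarith)
    nlinarith
  have hδ0 : 0 < δ := by linarith
  have hδ2 : δ ≤ 2 * s := by linarith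
  have hδw2 : δ < δw := by linarith
  have hθδ : θ ≤ δ := by linarith
  have hCθδ : Cθ * δ ^ 2 ≤ θ := by
    have h1 : δ ^ 2 ≤ (2 * s) ^ 2 := pow_le_pow_left₀ hδn hδ2 2
    have h2 : Cθ * δ ^ 2 ≤ Cθ * (2 * s) ^ 2 := mul_le_mul_of_nonneg_left h1 hCθ
    have h3 : 0 ≤ s ^ 2 := sq_nonneg s
    rw [hθ, hC']
    nlinarith
  obtain ⟨hSm, hGθ⟩ := hw δ hδ0 hδw2
  obtain ⟨hKKθ, hGle⟩ := hGθ θ hCθδ hθδ
  have hexp : ((1 - c₀) / 4 + c₀ / 16 + c₀ / 16) * δ ^ 2 ≤ (1 / 4 - c₀ / 16) * s ^ 2 := by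
    have h0 : δ ≤ s * (1 + 2 * (C' * s)) := by
      have e : s * (1 + 2 * (C' * s)) = s + 2 * θ := by
        rw [hθs]
        ring
      rw [e]
      exact hδup
    have h1 : (1 + 2 * (C' * s)) ^ 2 ≤ 1 + 3 * s₀ := by nlinarith
    have h2 : ((1 - c₀) / 4 + c₀ / 16 + c₀ / 16) * (1 + 3 * s₀) ≤ 1 / 4 - c₀ / 16 := by
      rw [hs₀]
      nlinarith [sq_nonneg c₀]
    have h4 : 0 ≤ (1 - c₀) / 4 + c₀ / 16 + c₀ / 16 := by linarith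
    have h3 : δ ^ 2 ≤ (s * (1 + 2 * (C' * s))) ^ 2 := pow_le_pow_left₀ hδn h0 2
    calc ((1 - c₀) / 4 + c₀ / 16 + c₀ / 16) * δ ^ 2 ≤
          ((1 - c₀) / 4 + c₀ / 16 + c₀ / 16) * (s * (1 + 2 * (C' * s))) ^ 2 :=
          mul_le_mul_of_nonneg_left h3 h4
      _ = s ^ 2 * (((1 - c₀) / 4 + c₀ / 16 + c₀ / 16) * (1 + 2 * (C' * s)) ^ 2) := by ring
      _ ≤ s ^ 2 * (((1 - c₀) / 4 + c₀ / 16 + c₀ / 16) * (1 + 3 * s₀)) :=
          mul_le_mul_of_nonneg_left (mul_le_mul_of_nonneg_left h1 h4) (sq_nonneg s)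
      _ ≤ s ^ 2 * (1 / 4 - c₀ / 16) := mul_le_mul_of_nonneg_left h2 (sq_nonneg s)
      _ = (1 / 4 - c₀ / 16) * s ^ 2 := by ring
  have hc1 : 3 * κ * (C9 * δ ^ 2 * M) ≤ 1 / 2 := by
    have h1 : δ ^ 2 ≤ (2 * s) ^ 2 := pow_le_pow_left₀ hδn hδ2 2
    have h2 : C9 * δ ^ 2 * M ≤ C9 * (2 * s) ^ 2 * M := by gcongr
    have h3 : 3 * κ * (C9 * δ ^ 2 * M) ≤ 3 * (1 / 4) * (C9 * (2 * s) ^ 2 * M) := by gcongr
    have h4 : s * (C9 * M) ≤ 2 / 3 := by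
      have h5 : s * (3 * (C9 * M + 1)) = 3 * (s * (C9 * M)) + 3 * s := by ring
      rw [h5] at ht4
      linarith
    have h6 : 0 ≤ s * (C9 * M) := by positivity
    calc 3 * κ * (C9 * δ ^ 2 * M) ≤ 3 * (1 / 4) * (C9 * (2 * s) ^ 2 * M) := h3
      _ = 3 * s * (s * (C9 * M)) := by ring
      _ ≤ 3 * (1 / 4) * (2 / 3) := by gcongr
      _ = 1 / 2 := by norm_num
  -- the template
  have hdir : Tk κt (τ / ‖τ‖) bt c₀ B Cc m₁ := by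
    have hτ0 : 0 < ‖τ‖ := by rw [← hδ]; exact hδ0
    apply htk
    · rw [norm_div, Complex.norm_real, norm_norm, div_self hτ0.ne']
    · rw [Complex.div_ofReal_re, le_div_iff₀ hτ0]
      have h1 : τ.re * (1 + θ) = t.re + 2 * θ := by
        have h2 := congrArg Complex.re hτm
        rw [Complex.re_mul_ofReal, Complex.add_re, Complex.ofReal_re] at h2
        exact h2
      have h2 : e0 ≤ 1 := by
        have h3 : t.re ≤ ‖t‖ := Complex.re_le_norm t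
        rw [← hsd] at hte h3
        by_contra hcon
        push Not at hcon
        have h4 : 1 * s < e0 * s := mul_lt_mul_of_pos_right hcon hs
        linarith
      have h3 : e0 * ‖τ‖ * (1 + θ) ≤ τ.re * (1 + θ) := by
        rw [h1]
        have h4 : e0 * (‖τ‖ * (1 + θ)) ≤ e0 * (s + 2 * θ) := by
          apply mul_le_mul_of_nonneg_left _ he.le
          rw [← hδ]
          exact hup
        have h5 : e0 * (2 * θ) ≤ 1 * (2 * θ) := mul_le_mul_of_nonneg_right h2 (by linarith)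
        rw [← hsd] at hte
        linarith
      exact le_of_mul_le_mul_right h3 (by linarith)
  -- the constants
  obtain ⟨E, hE⟩ : ∃ E : ℝ, E = 2 * (KN (2 ^ M) * Real.exp (KN (2 ^ M))) := ⟨_, rfl⟩
  have hKN : 1 ≤ KN (2 ^ M) := by
    unfold KN
    exact Real.one_le_exp (by positivity)
  have hE1 : 1 ≤ E := by
    rw [hE]
    have : 1 ≤ Real.exp (KN (2 ^ M)) := Real.one_le_exp (by linarith)
    nlinarith
  obtain ⟨D0, hD0⟩ : ∃ D0 : ℝ, D0 = (1 + 2 * (C0 * Real.exp (C0 + 7))) ^ 2 := ⟨_, rfl⟩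
  have hD00 : 0 ≤ D0 := by
    rw [hD0]
    positivity
  obtain ⟨b, hb⟩ : ∃ b : ℝ, b = 1 - t.re + (1 / 4 - c₀ / 16) * s ^ 2 := ⟨_, rfl⟩
  have htn : ‖t‖ ≤ 1 / 4 := by rw [← hsd]; linarith
  have hb0 : 0 ≤ b := by
    have h1 : t.re ≤ 1 / 4 := (le_abs_self _).trans ((Complex.abs_re_le_norm t).trans htn)
    have h2 : 0 ≤ (1 / 4 - c₀ / 16) * s ^ 2 := mul_nonneg (by linarith) (sq_nonneg s)
    rw [hb]
    linarith
  have hN1 : 1 ≤ 2 ^ M := Nat.one_le_two_pow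
  refine ⟨Real.exp (3 * (4 * 2 ^ M + 2)) * (2 * π * (E ^ 2 * Real.exp 2) * D0 * 2 ^ b),
    by positivity, ?_⟩
  intro ψ h hS y hy hy1
  obtain ⟨-, Λ, hF, hΛ, hdiag, hLb⟩ := hsig ψ h hS
  rw [← hsd, ← hb]
  refine Pool.Agent.Helper26.G4.heightsB_core (A := C0) hF hΛ hS hdiag htn hM hb0 (by positivity) (fun K => ?_) hy hy1
  have hint := Pool.Agent.Helper26.G4.heightsB_int (K := K) hS hm hθ1 htn (κ := κ)
    (c' := C9 * δ ^ 2 * M)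
    (D := (((2 ^ M : ℕ) : ℝ) ^ (((1 - c₀) / 4 + c₀ / 16) * δ ^ 2)) ^ K * D0) (E := E) (N := 2 ^ M)
    hκ hκ1 (by positivity) hc1 hE1 hN1 hκM (by
      intro ξ hξ
      obtain ⟨yy, χ, hyy⟩ := hyex _ C0 Λ hF hΛ M hM bt c₀ B Cc m₁ κ εp τ hεp hbt hB hCc
        (by rw [← hδ]; exact hSm) ξ
      have hξ7 : |ξ| ≤ 7 := by
        have hpi := Real.pi_lt_d2
        rw [abs_le]
        constructor
        · linarith [hξ.1]
        · linarith [hξ.2]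
      have hnode := node5 hF (by linarith) hΛ hM hdir hκ hκ1 hMκ hεp hεp1
        (by rw [← hδ]; exact hSm) (C := C0) (by linarith) hξ7 (fun u hu => hLb ξ u hu) hyy hθ1
        (by rw [← hδ]; exact hKKθ)
        (G := ((2 ^ M : ℕ) : ℝ) ^ (((1 - c₀) / 4 + c₀ / 16) * δ ^ 2))
        (by rw [← hδ]; exact hGle) K
      rw [← hE, ← hD0, ← hδ] at hnode
      refine le_trans (le_of_eq ?_) hnode
      apply Finset.sum_congr rfl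
      intro d _
      rw [hdiag _ (by
        show 0 < 2 * (1 / ((2 ^ M : ℕ) : ℝ) ^ K)
        positivity)])
  refine hint.trans ?_
  have hKK := heights5_K (a := t.re) hκ2 hexp M K
  rw [← hb] at hKK
  calc 2 * π * (E ^ 2 * Real.exp 2) * ((((2 ^ M : ℕ) : ℝ) ^ (((1 - c₀) / 4 + c₀ / 16) * δ ^ 2)) ^ K * D0 *
        (((2 ^ M : ℕ) : ℝ) ^ K) ^ (1 - t.re) * Real.exp (6 * κ * (C9 * δ ^ 2 * M) * K))
      = 2 * π * (E ^ 2 * Real.exp 2) * D0 *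
        ((((2 ^ M : ℕ) : ℝ) ^ (((1 - c₀) / 4 + c₀ / 16) * δ ^ 2)) ^ K *
        (((2 ^ M : ℕ) : ℝ) ^ K) ^ (1 - t.re) * Real.exp (6 * κ * (C9 * δ ^ 2 * M) * K)) := by ring
    _ ≤ 2 * π * (E ^ 2 * Real.exp 2) * D0 * (((2 ^ M : ℕ) : ℝ) ^ K) ^ b :=
        mul_le_mul_of_nonneg_left hKK (by positivity)

end Pool.Agent.Helper26.G5
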