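import Pool.Agent.Helper26.G5.Heights5
import Pool.Agent.Helper26.G4.MainB

/-!
# G5-MAIN: the theorem

`main5_dir`: copy of `Pool.Agent.Helper26.G4.main4` from `heights5`. `main5`: `main4` and `main5_dir`.
-/

set_option autoImplicit false

namespace Pool.Agent.Helper26.G5

open MeasureTheory Set
open scoped Real
open Pool.Agent.Helper90.G2 (Bx Wn Fn ar ch Cen chi)
open Pool.Agent.Helper26.G4 (vt Br Lb wd al rr w0 Bad cn vk lv KN Sa Sc mm KK C9 Sg)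

/-- from small heights to all radii, one `τ`, any exponent -/
theorem main5_core {τ : ℂ} {β : ℝ} (hτ : ‖τ‖ ≤ 1) (hβ0 : 0 ≤ β)
    (hh : ∃ C : ℝ, 0 ≤ C ∧ ∀ ψ h : ℂ → ℂ, Sg ψ h → ∀ y : ℝ, 0 < y → y ≤ 1 →
      ∫ ξ in (0:ℝ)..(2 * π), ‖Complex.exp ((2 - τ) * h (Complex.exp ⟨y, ξ⟩))‖ ≤ C * y ^ (-β)) :
    ∃ C : ℝ, ∀ ψ h : ℂ → ℂ, Sg ψ h → ∀ R : ℝ, 1 < R →
      (1 / (2 * π)) * ∫ θ in (0:ℝ)..(2 * π),
        ‖Complex.exp ((2 - τ) * h ((R : ℂ) * Complex.exp ((θ : ℂ) * Complex.I)))‖ ≤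
      C * (R ^ 2 / (R ^ 2 - 1)) ^ β := by
  obtain ⟨C, hC, hh⟩ := hh
  obtain ⟨C₁, hC₁, hs⟩ := Pool.Agent.Helper26.G4.sig4
  have hπ : 0 < π := Real.pi_pos
  refine ⟨(1 / (2 * π)) * (C * 2 ^ β) + Real.exp (3 * C₁), ?_⟩
  intro ψ h hψ R hR
  have hR0 : 0 < R := by linarith
  have hR1 : 0 < R ^ 2 - 1 := by nlinarith
  have hlog : 0 < Real.log R := Real.log_pos hR
  have hX0 : 0 ≤ (R ^ 2 / (R ^ 2 - 1)) ^ β := by positivity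
  have hX1 : 1 ≤ (R ^ 2 / (R ^ 2 - 1)) ^ β := by
    apply Real.one_le_rpow _ hβ0
    rw [one_le_div hR1]
    linarith
  rcases le_or_gt R (Real.exp 1) with hRe | hRe
  · have hlog1 : Real.log R ≤ 1 := by
      rw [← Real.log_exp 1]
      exact Real.log_le_log hR0 hRe
    have h1 := hh ψ h hψ (Real.log R) hlog hlog1
    have h2 : ∫ θ in (0:ℝ)..(2 * π),
        ‖Complex.exp ((2 - τ) * h ((R : ℂ) * Complex.exp ((θ : ℂ) * Complex.I)))‖ =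
        ∫ ξ in (0:ℝ)..(2 * π), ‖Complex.exp ((2 - τ) * h (Complex.exp ⟨Real.log R, ξ⟩))‖ := by
      apply intervalIntegral.integral_congr
      intro θ _
      simp only []
      rw [Pool.Agent.Helper90.G2.Main_point hR]
    have h5 := Pool.Agent.Helper90.G2.Main_small hR hβ0
    rw [h2]
    calc (1 / (2 * π)) * ∫ ξ in (0:ℝ)..(2 * π),
          ‖Complex.exp ((2 - τ) * h (Complex.exp ⟨Real.log R, ξ⟩))‖
        ≤ (1 / (2 * π)) * (C * Real.log R ^ (-β)) := by gcongr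
      _ ≤ (1 / (2 * π)) * (C * (2 ^ β * (R ^ 2 / (R ^ 2 - 1)) ^ β)) := by gcongr
      _ = (1 / (2 * π)) * (C * 2 ^ β) * (R ^ 2 / (R ^ 2 - 1)) ^ β := by ring
      _ ≤ ((1 / (2 * π)) * (C * 2 ^ β) + Real.exp (3 * C₁)) * (R ^ 2 / (R ^ 2 - 1)) ^ β := by
        apply mul_le_mul_of_nonneg_right _ hX0
        have := Real.exp_pos (3 * C₁)
        linarith
  · have h2 : ‖∫ θ in (0:ℝ)..(2 * π),
        ‖Complex.exp ((2 - τ) * h ((R : ℂ) * Complex.exp ((θ : ℂ) * Complex.I)))‖‖ ≤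
        Real.exp (3 * C₁) * |2 * π - 0| := by
      apply intervalIntegral.norm_integral_le_of_norm_le_const
      intro θ _
      rw [norm_norm]
      apply Pool.Agent.Helper26.G4.mainB_far hτ (by linarith)
      apply (hs ψ h hψ).1
      rw [Pool.Agent.Helper90.G2.Main_norm hR]
      exact hRe.le
    rw [sub_zero, abs_of_pos (by positivity)] at h2
    have h3 := (le_abs_self _).trans ((Real.norm_eq_abs _).symm.le.trans h2)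
    have h0 : 0 ≤ (1 / (2 * π)) * (C * 2 ^ β) := by positivity
    calc (1 / (2 * π)) * ∫ θ in (0:ℝ)..(2 * π),
          ‖Complex.exp ((2 - τ) * h ((R : ℂ) * Complex.exp ((θ : ℂ) * Complex.I)))‖
        ≤ (1 / (2 * π)) * (Real.exp (3 * C₁) * (2 * π)) := by gcongr
      _ = Real.exp (3 * C₁) := by field_simp
      _ ≤ Real.exp (3 * C₁) * (R ^ 2 / (R ^ 2 - 1)) ^ β :=
        le_mul_of_one_le_right (Real.exp_pos _).le hX1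
      _ ≤ ((1 / (2 * π)) * (C * 2 ^ β) + Real.exp (3 * C₁)) * (R ^ 2 / (R ^ 2 - 1)) ^ β := by
        apply mul_le_mul_of_nonneg_right _ hX0
        linarith

theorem main5_dir {e0 : ℝ} (he : 0 < e0) : ∃ c δ₀ : ℝ, 0 < c ∧ c ≤ 1 / 8 ∧ 0 < δ₀ ∧
    ∀ τ : ℂ, τ ≠ 0 → ‖τ‖ < δ₀ → e0 * ‖τ‖ ≤ τ.re → ∃ C : ℝ,
    ∀ ψ h : ℂ → ℂ, Sg ψ h → ∀ R : ℝ, 1 < R →
      (1 / (2 * π)) * ∫ θ in (0:ℝ)..(2 * π),
        ‖Complex.exp ((2 - τ) * h ((R : ℂ) * Complex.exp ((θ : ℂ) * Complex.I)))‖ ≤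
      C * (R ^ 2 / (R ^ 2 - 1)) ^ (1 - τ.re + (1 / 4 - c) * ‖τ‖ ^ 2) := by
  obtain ⟨c, δ₀, hc, hc8, hδ₀, hδ₁, hh⟩ := heights5 he
  refine ⟨c, δ₀, hc, hc8, hδ₀, ?_⟩
  intro τ hτ0 hτ hdir
  apply main5_core (by linarith) _ (hh τ hτ0 hτ hdir)
  have h1 : τ.re ≤ ‖τ‖ := Complex.re_le_norm τ
  have h2 : 0 ≤ (1 / 4 - c) * ‖τ‖ ^ 2 := mul_nonneg (by linarith) (by positivity)
  linarith

open Classical in
theorem main5 : ∀ ε : ℝ, 0 < ε → ∃ c δ₀ : ℝ, 0 < c ∧ 0 < δ₀ ∧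
    ∀ τ : ℂ, τ ≠ 0 → ‖τ‖ < δ₀ → ∃ C : ℝ, ∀ ψ h : ℂ → ℂ, Sg ψ h → ∀ R : ℝ, 1 < R →
      (1 / (2 * π)) * ∫ θ in (0:ℝ)..(2 * π),
        ‖Complex.exp ((2 - τ) * h ((R : ℂ) * Complex.exp ((θ : ℂ) * Complex.I)))‖ ≤
      C * (R ^ 2 / (R ^ 2 - 1)) ^ (1 - τ.re +
        (if ε * ‖τ‖ ≤ τ.re then 1 / 4 - c else 1 / 4 + ε) * ‖τ‖ ^ 2) := by
  intro ε hε
  obtain ⟨c, δ₁, hc, _, hδ₁, h1⟩ := main5_dir hε
  obtain ⟨δ₂, hδ₂, h2⟩ := Pool.Agent.Helper26.G4.main4 ε hε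
  refine ⟨c, min δ₁ δ₂, hc, lt_min hδ₁ hδ₂, ?_⟩
  intro τ hτ0 hτ
  by_cases hd : ε * ‖τ‖ ≤ τ.re
  · rw [if_pos hd]
    exact h1 τ hτ0 (lt_of_lt_of_le hτ (min_le_left _ _)) hd
  · rw [if_neg hd]
    exact h2 τ hτ0 (lt_of_lt_of_le hτ (min_le_right _ _))

end Pool.Agent.Helper26.G5
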