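import Pool.Agent.Helper26.G4.Defs2

/-!
# Project G5 (MP_16b0ee_an): strict second order bound near `2` in all directions except the imaginary ones

`β = δ b`. `Ph`: the density of the step for the functional with the template `κ`;
`Tk`: the template with its key inequality (helper17, helper33). `Fz5`: frozen sequences with flags
(`χ = 1`: moving, `χ = 0`: frozen; a switch costs `s`). `V5`: the functional (infimum over the scale and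
direction `ζ` of the template). `mm5`: the constant `m / δ`, smaller by the factor `1 - c₀`.
-/

set_option autoImplicit false

namespace Pool.Agent.Helper26.G5

open MeasureTheory Set
open scoped Real
open Pool.Agent.Helper90.G2 (Bx Wn Fn ar ch Cen chi)
open Pool.Agent.Helper26.G4 (vt Br Lb wd al rr w0 Bad cn vk lv KN Sa Sc mm KK C9)

/-- density of the step: `z = F u - F v`, `s = F v' - F v`, `ζ` the position of the template,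
`ω s / (2 m)` its extremal position -/
noncomputable def Ph (κ : ℂ → ℝ) (ω : ℂ) (d b m ν : ℝ) (s ζ z : ℂ) : ℝ :=
  Real.exp (d * ((ω * s / z).re + ‖s‖ ^ 2 / ‖z‖ ^ 2)) * (1 - d * b * κ ((z - s) / ζ)) -
    Real.exp (d * m) * (1 - d * b * κ (z / ζ)) +
      ν * (d * b) * (κ (z / ζ) - κ (z / (ω * s / (2 * m))))

/-- template with the key inequality -/
structure Tk (κ : ℂ → ℝ) (ω : ℂ) (b c₀ B Cc m₁ : ℝ) : Prop where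
  meas : Measurable κ
  bd : ∀ z : ℂ, |κ z| ≤ 1
  hb : 0 < b
  hb1 : b ≤ 1
  hc : 0 < c₀
  hc1 : c₀ ≤ 1 / 2
  hB : 0 ≤ B
  hCc : 1 ≤ Cc
  hm : 0 < m₁
  hm1 : m₁ ≤ 1 / 4
  key : ∀ d m : ℝ, 0 < d → d ≤ m₁ → 0 < m → m ≤ m₁ → ∀ s ζ : ℂ, s ≠ 0 → ζ ≠ 0 →
    ∃ ν : ℝ, 0 ≤ ν ∧ ν ≤ B ∧ ∃ H : ℂ → ℝ, Measurable H ∧ Integrable H ∧ (∀ z, 0 ≤ H z) ∧
      (∀ z, Cc * ‖s‖ / m ≤ ‖z‖ → H z = 0) ∧
      (∀ z, 2 * ‖s‖ ≤ ‖z‖ → Ph κ ω d b m ν s ζ z ≤ d * H z) ∧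
      ∫ z, H z ≤ (1 - c₀) * (π * ‖s‖ ^ 2 / (4 * m))

/-- frozen sequence with flags -/
structure Fz5 (a : ℕ → ℝ) (bad : ℕ → Prop) (e s : ℝ) (K : ℕ) (y χ : ℕ → ℝ) : Prop where
  flag : ∀ k, χ k = 0 ∨ χ k = 1
  zero : y 0 = a 0
  last : y K = a K
  step : ∀ k < K, (χ k = 0 ∧ χ (k + 1) = 0 ∧ y (k + 1) ≤ y k + e) ∨ y (k + 1) + s ≤ y k + e ∨
    (¬ bad k ∧ χ k = 1 ∧ χ (k + 1) = 1 ∧ y k = a k ∧ y (k + 1) = a (k + 1))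

/-- density of the functional -/
noncomputable def Dn (F : ℂ → ℂ) (y χ : ℂ → ℕ → ℝ) (κ : ℂ → ℝ) (β : ℝ) (k : ℕ) (p ζ u : ℂ) : ENNReal :=
  ENNReal.ofReal (‖deriv F u‖ ^ 2 * (Real.exp (y u k) * (1 - β * χ u k * κ ((F u - p) / ζ))))

/-- the functional: the set `S` seen from the point `F v` at level `k` -/
noncomputable def V5 (F : ℂ → ℂ) (y χ : ℂ → ℕ → ℝ) (κ : ℂ → ℝ) (β : ℝ) (k : ℕ) (v : ℂ) (S : Set ℂ) :
    ENNReal :=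
  ⨅ ζ : {ζ : ℂ // ζ ≠ 0}, ∫⁻ u in S, Dn F y χ κ β k (F v) ζ u

/-- the functional of the box number `d` of generation `k` -/
noncomputable def Vn (F : ℂ → ℂ) (y χ : ℂ → ℕ → ℝ) (κ : ℂ → ℝ) (β : ℝ) (N : ℕ) (ξ : ℝ) (k d : ℕ) :
    ENNReal :=
  V5 F y χ κ β k (vt (ch (N ^ k) ξ 1 d) (1 / (N : ℝ) ^ k)) (Bx (ch (N ^ k) ξ 1 d) (1 / (N : ℝ) ^ k))

/-- the plain functional of a set -/
noncomputable def Vq (F : ℂ → ℂ) (y : ℂ → ℕ → ℝ) (k : ℕ) (S : Set ℂ) : ENNReal :=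
  ∫⁻ u in S, ENNReal.ofReal (‖deriv F u‖ ^ 2 * Real.exp (y u k))

/-- bound of the density in the near part, divided by `δ` -/
noncomputable def Bn (N : ℕ) (B : ℝ) : ℝ := 40 * N + 4 + 4 * B

/-- near part constant -/
noncomputable def K5 (N : ℕ) (B : ℝ) : ℝ := 4 * π * KN N ^ 3 * Bn N B

/-- the error of the step -/
noncomputable def Er5 (c₀ m s r Bb : ℝ) : ℝ := π * r ^ 2 * Bb + (1 - c₀) * (π * s ^ 2 / (4 * m))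

/-- the constant `m / δ` -/
noncomputable def mm5 (c₀ S ε : ℝ) : ℝ := (1 - c₀) * mm S ε

/-- the cost of a switch, divided by `δ` -/
noncomputable def sw (b B : ℝ) : ℝ := 8 * (1 + B) * b

/-- the number of windows over which a bad stretch extends -/
noncomputable def Lw5 (Ca b B ε δ : ℝ) (M : ℕ) : ℕ :=
  ⌈(Ca * (1 + Real.log ((2 ^ M : ℕ) : ℝ)) + 2 * sw b B) / (ε * δ * M)⌉₊ + 1

/-- smallness of `δ`, `N = 2^M` -/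
structure Sm5 (Ca b c₀ B Cc m₁ : ℝ) (M : ℕ) (κ ε δ : ℝ) : Prop where
  pos : 0 < δ
  le : δ ≤ ε / 4
  m1 : δ * (1 + KK (2 ^ M) ε + mm (Sc κ (2 ^ M)) ε + mm (Sa (2 ^ M)) ε) ≤ m₁
  s1 : δ * (10 * ((2 ^ M : ℕ) : ℝ) + Real.log (2 * Cc * KN (2 ^ M) / δ + KN (2 ^ M))) ≤ ε
  s2 : δ * KN (2 ^ M) ≤ ε / 4
  s3 : δ * K5 (2 ^ M) B ≤ ε / (4 * ((2 ^ M : ℕ) : ℝ))
  s4 : δ * (1 + B) ≤ 1 / 8
  s6 : 8 * δ ^ 2 * KK (2 ^ M) ε ^ 2 ≤ ε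
  s7 : Ca * (1 + √((Lw5 Ca b B ε δ M + 1) * Real.log ((2 ^ M : ℕ) : ℝ) *
    √(2 * Cc * KN (2 ^ M) / δ))) ≤ ε / δ

/-- the family of the frozen sequences of all points of the top box -/
def Yf5 (F : ℂ → ℂ) (Λ : ℂ → ℂ → ℂ) (M : ℕ) (ξ ε b B Cc : ℝ) (τ : ℂ) (y χ : ℂ → ℕ → ℝ) : Prop :=
  ∀ u ∈ Bx ξ 1, Fz5 (fun k => al Λ τ (vk (2 ^ M) ξ k u) u)
    (fun k => Bad F Λ (ε / ‖τ‖) (2 * Cc * KN (2 ^ M) / ‖τ‖) (vk (2 ^ M) ξ k u) u)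
    (ε * ‖τ‖ ^ 2 * M) (sw b B * ‖τ‖) (lv (2 ^ M) u) (y u) (χ u)

end Pool.Agent.Helper26.G5
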