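import Pool.Agent.Helper26.G5.Defs5

/-!
# G5-ERB: real numbers

`δ Er5 = δ π (2 KN R)² Bn + (1 - c₀) π s² / (4 m0)`, the first term is at most `δ K5 a`. `er5_mm`:
`m0 = mm5 c₀ S ε`: the second term is at most `(1 - 6 ε) a`; `e^(2 ε) (1 - 6 ε + ε / 8) ≤ (1 - ε) (1 - ε / 4) e^(-ε / 4)`.
`er5_KK`: `m0 = KK N ε`: at most `ε / (16 N) a`; `e^(2 ε) (ε / (16 N) + ε / (4 N)) ≤ ε / N (1 - ε / 4) e^(-ε / 4)`.
-/

set_option autoImplicit false

namespace Pool.Agent.Helper26.G5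

open MeasureTheory Set
open scoped Real
open Pool.Agent.Helper90.G2 (Bx Wn Fn ar ch Cen chi)
open Pool.Agent.Helper26.G4 (vt Br Lb wd al rr w0 Bad cn vk lv KN Sa Sc mm KK C9 Sg)

private theorem er5_gen {N : ℕ} {δ m0 S s R a c₀ B : ℝ} (hc1 : c₀ ≤ 1 / 2) (hB : 0 ≤ B)
    (hδ : 0 < δ) (hm : 0 < m0) (ha : 0 < a) (hs : 0 ≤ s)
    (h1 : R ^ 2 ≤ KN N * a) (h3 : s ≤ √a * S) :
    δ * Er5 c₀ (δ * m0) s (2 * KN N * R) (Bn N B) ≤
      (δ * K5 N B + (1 - c₀) * (π * S ^ 2 / (4 * m0))) * a := by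
  have hK : 0 < KN N := Real.exp_pos _
  have hπ := Real.pi_pos
  have hN0 : (0 : ℝ) ≤ N := Nat.cast_nonneg N
  have hBn : 0 ≤ Bn N B := by unfold Bn; positivity
  have hs2 : s ^ 2 ≤ a * S ^ 2 := by
    have h : s ^ 2 ≤ (√a * S) ^ 2 := pow_le_pow_left₀ hs h3 2
    rw [mul_pow, Real.sq_sqrt ha.le] at h
    exact h
  have t1 : δ * (π * (2 * KN N * R) ^ 2 * Bn N B) ≤ δ * K5 N B * a := by
    have e : δ * (π * (2 * KN N * R) ^ 2 * Bn N B) = (δ * 4 * π * KN N ^ 2 * Bn N B) * R ^ 2 := by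
      ring
    rw [e]
    have h : (δ * 4 * π * KN N ^ 2 * Bn N B) * R ^ 2 ≤
        (δ * 4 * π * KN N ^ 2 * Bn N B) * (KN N * a) :=
      mul_le_mul_of_nonneg_left h1 (by positivity)
    refine h.trans (le_of_eq ?_)
    unfold K5
    ring
  have t2 : δ * ((1 - c₀) * (π * s ^ 2 / (4 * (δ * m0)))) ≤
      (1 - c₀) * (π * S ^ 2 / (4 * m0)) * a := by
    have e : δ * ((1 - c₀) * (π * s ^ 2 / (4 * (δ * m0)))) = (1 - c₀) * (π * s ^ 2 / (4 * m0)) := by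
      field_simp
    rw [e, mul_assoc]
    apply mul_le_mul_of_nonneg_left _ (by linarith)
    rw [div_mul_eq_mul_div]
    apply div_le_div_of_nonneg_right _ (by positivity)
    have h : π * s ^ 2 ≤ π * (a * S ^ 2) := mul_le_mul_of_nonneg_left hs2 hπ.le
    calc π * s ^ 2 ≤ π * (a * S ^ 2) := h
      _ = π * S ^ 2 * a := by ring
  unfold Er5
  calc δ * (π * (2 * KN N * R) ^ 2 * Bn N B + (1 - c₀) * (π * s ^ 2 / (4 * (δ * m0))))
      = δ * (π * (2 * KN N * R) ^ 2 * Bn N B) + δ * ((1 - c₀) * (π * s ^ 2 / (4 * (δ * m0)))) := by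
        ring
    _ ≤ δ * K5 N B * a + (1 - c₀) * (π * S ^ 2 / (4 * m0)) * a := add_le_add t1 t2
    _ = (δ * K5 N B + (1 - c₀) * (π * S ^ 2 / (4 * m0))) * a := by ring

private theorem exp_le_aux5 {x : ℝ} (h1 : 0 ≤ x) (h2 : x ≤ 1 / 2) :
    Real.exp (-(2 * x)) ≤ 1 - x := by
  have h3 : 1 ≤ (1 - x) * Real.exp (2 * x) := by
    have h4 : 1 + 2 * x ≤ Real.exp (2 * x) := by linarith [Real.add_one_le_exp (2 * x)]
    have : (1 - x) * (1 + 2 * x) ≤ (1 - x) * Real.exp (2 * x) :=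
      mul_le_mul_of_nonneg_left h4 (by linarith)
    nlinarith
  rw [Real.exp_neg]
  rw [inv_le_iff_one_le_mul₀ (Real.exp_pos _)]
  exact h3

theorem er5_mm {N : ℕ} (hN : 2 ≤ N) {ε δ S s R a c₀ B β : ℝ} (hε : 0 < ε) (hε1 : ε ≤ 1 / 20)
    (hδ : 0 < δ) (hc : 0 ≤ c₀) (hc1 : c₀ ≤ 1 / 2) (hB : 0 ≤ B) (hβ : 0 ≤ β) (hβ1 : β ≤ ε / 4)
    (hS : 1 ≤ S) (hR : 0 < R) (ha : 0 < a) (hs : 0 ≤ s) (h1 : R ^ 2 ≤ KN N * a)
    (h3 : s ≤ √a * S) (h4 : δ * K5 N B ≤ ε / (4 * N)) (h5 : δ * KN N ≤ ε / 4) :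
    Real.exp (2 * ε) * (δ * Er5 c₀ (δ * mm5 c₀ S ε) s (2 * KN N * R) (Bn N B)) ≤
      (1 - ε) * ((1 - β) * (a * Real.exp (-(δ * KN N)))) := by
  have hπ := Real.pi_pos
  have hS0 : 0 < S := by linarith
  have h6 : 0 < 1 - 6 * ε := by linarith
  have he1 : 0 < 1 - ε := by linarith
  have hc2 : 0 < 1 - c₀ := by linarith
  have hm : 0 < mm5 c₀ S ε := by unfold mm5 mm; positivity
  have hN1 : (2 : ℝ) ≤ N := by exact_mod_cast hN
  have hg := er5_gen (N := N) hc1 hB hδ hm ha hs h1 h3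
  have q1 : (1 - c₀) * (π * S ^ 2 / (4 * mm5 c₀ S ε)) = 1 - 6 * ε := by
    unfold mm5 mm
    field_simp
  have q2 : ε / (4 * N) ≤ ε / 8 := by
    apply div_le_div_of_nonneg_left hε.le (by norm_num)
    linarith
  rw [q1] at hg
  have h7 : δ * Er5 c₀ (δ * mm5 c₀ S ε) s (2 * KN N * R) (Bn N B) ≤ (1 - 47 / 8 * ε) * a := by
    refine hg.trans (mul_le_mul_of_nonneg_right ?_ ha.le)
    linarith
  have h8 : Real.exp (2 * ε) * (1 - 47 / 8 * ε) ≤
      (1 - ε) * ((1 - β) * Real.exp (-(δ * KN N))) := by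
    have b1 : 1 - 47 / 8 * ε ≤ Real.exp (-(47 / 8 * ε)) := by
      linarith [Real.add_one_le_exp (-(47 / 8 * ε))]
    have b2 : Real.exp (-(ε / 4)) ≤ Real.exp (-(δ * KN N)) := Real.exp_le_exp.2 (by linarith)
    have b3 : Real.exp (-(2 * ε)) ≤ 1 - ε := exp_le_aux5 hε.le (by linarith)
    have b4 : Real.exp (-(13 / 8 * ε)) ≤ 1 - β := by
      have c1 : Real.exp (-(2 * (ε / 4))) ≤ 1 - ε / 4 := exp_le_aux5 (by linarith) (by linarith)
      have c2 : Real.exp (-(13 / 8 * ε)) ≤ Real.exp (-(2 * (ε / 4))) :=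
        Real.exp_le_exp.2 (by linarith)
      linarith
    calc Real.exp (2 * ε) * (1 - 47 / 8 * ε) ≤ Real.exp (2 * ε) * Real.exp (-(47 / 8 * ε)) :=
          mul_le_mul_of_nonneg_left b1 (Real.exp_pos _).le
      _ = Real.exp (-(2 * ε)) * (Real.exp (-(13 / 8 * ε)) * Real.exp (-(ε / 4))) := by
          rw [← Real.exp_add, ← Real.exp_add, ← Real.exp_add]
          congr 1
          ring
      _ ≤ (1 - ε) * ((1 - β) * Real.exp (-(δ * KN N))) :=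
          mul_le_mul b3 (mul_le_mul b4 b2 (Real.exp_pos _).le (by linarith)) (by positivity) he1.le
  calc Real.exp (2 * ε) * (δ * Er5 c₀ (δ * mm5 c₀ S ε) s (2 * KN N * R) (Bn N B))
      ≤ Real.exp (2 * ε) * ((1 - 47 / 8 * ε) * a) :=
        mul_le_mul_of_nonneg_left h7 (Real.exp_pos _).le
    _ = (Real.exp (2 * ε) * (1 - 47 / 8 * ε)) * a := by ring
    _ ≤ ((1 - ε) * ((1 - β) * Real.exp (-(δ * KN N)))) * a := mul_le_mul_of_nonneg_right h8 ha.le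
    _ = (1 - ε) * ((1 - β) * (a * Real.exp (-(δ * KN N)))) := by ring

theorem er5_KK {N : ℕ} (hN : 2 ≤ N) {ε δ s R a c₀ B β : ℝ} (hε : 0 < ε) (hε1 : ε ≤ 1 / 20)
    (hδ : 0 < δ) (hc : 0 ≤ c₀) (hc1 : c₀ ≤ 1 / 2) (hB : 0 ≤ B) (hβ : 0 ≤ β) (hβ1 : β ≤ ε / 4)
    (hR : 0 < R) (ha : 0 < a) (hs : 0 ≤ s) (h1 : R ^ 2 ≤ KN N * a)
    (h3 : s ≤ √a * Sa N) (h4 : δ * K5 N B ≤ ε / (4 * N)) (h5 : δ * KN N ≤ ε / 4) :
    Real.exp (2 * ε) * (δ * Er5 c₀ (δ * KK N ε) s (2 * KN N * R) (Bn N B)) ≤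
      ε / N * ((1 - β) * (a * Real.exp (-(δ * KN N)))) := by
  have hπ := Real.pi_pos
  have hN1 : (2 : ℝ) ≤ N := by exact_mod_cast hN
  have hNp : (0 : ℝ) < N := by linarith
  have hSp : 0 < Sa N := by
    have hl : 0 ≤ Real.log N := Real.log_natCast_nonneg N
    have h : (1 : ℝ) ≤ √(1 + Real.log N) := by
      rw [Real.one_le_sqrt]
      linarith
    unfold Sa
    linarith
  have hm : 0 < KK N ε := by unfold KK; positivity
  have hg := er5_gen (N := N) hc1 hB hδ hm ha hs h1 h3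
  have e0 : 0 < ε / N := by positivity
  have q1 : (1 - c₀) * (π * Sa N ^ 2 / (4 * KK N ε)) ≤ 1 / 16 * (ε / N) := by
    have e1 : π * Sa N ^ 2 / (4 * KK N ε) = 1 / 16 * (ε / N) := by
      unfold KK
      field_simp
      norm_num
    rw [e1]
    have : 0 < 1 / 16 * (ε / N) := by positivity
    nlinarith
  have h7 : δ * Er5 c₀ (δ * KK N ε) s (2 * KN N * R) (Bn N B) ≤ (5 / 16 * (ε / N)) * a := by
    refine hg.trans (mul_le_mul_of_nonneg_right ?_ ha.le)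
    have e2 : ε / (4 * N) = 1 / 4 * (ε / N) := by field_simp
    rw [e2] at h4
    linarith
  have h8 : Real.exp (2 * ε) * (5 / 16) ≤ (1 - β) * Real.exp (-(δ * KN N)) := by
    have b2 : Real.exp (-(ε / 4)) ≤ Real.exp (-(δ * KN N)) := Real.exp_le_exp.2 (by linarith)
    have b3 : Real.exp (2 * ε) * (5 / 16) ≤ (1 - β) * Real.exp (-(ε / 4)) := by
      have c1 : Real.exp (2 * ε) * Real.exp (ε / 4) ≤ 8 / 3 := by
        rw [← Real.exp_add]
        have : Real.exp (2 * ε + ε / 4) ≤ Real.exp (1 / 2) := Real.exp_le_exp.2 (by linarith)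
        have hb : Real.exp (1 / 2) ≤ 8 / 3 := by
          have := Real.exp_one_lt_d9
          have h3 : Real.exp (1 / 2) ^ 2 = Real.exp 1 := by
            rw [← Real.exp_nat_mul]
            norm_num
          nlinarith [Real.exp_pos (1 / 2 : ℝ)]
        linarith
      have c2 : Real.exp (-(ε / 4)) * Real.exp (ε / 4) = 1 := by
        rw [← Real.exp_add]
        simp
      have c3 : 0 < Real.exp (ε / 4) := Real.exp_pos _
      have : Real.exp (2 * ε) * (5 / 16) * Real.exp (ε / 4) ≤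
          (1 - β) * Real.exp (-(ε / 4)) * Real.exp (ε / 4) := by
        rw [mul_assoc (1 - β), c2]
        nlinarith
      exact le_of_mul_le_mul_right this c3
    exact b3.trans (mul_le_mul_of_nonneg_left b2 (by linarith))
  calc Real.exp (2 * ε) * (δ * Er5 c₀ (δ * KK N ε) s (2 * KN N * R) (Bn N B))
      ≤ Real.exp (2 * ε) * ((5 / 16 * (ε / N)) * a) :=
        mul_le_mul_of_nonneg_left h7 (Real.exp_pos _).le
    _ = (Real.exp (2 * ε) * (5 / 16)) * (ε / N * a) := by ring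
    _ ≤ ((1 - β) * Real.exp (-(δ * KN N))) * (ε / N * a) :=
        mul_le_mul_of_nonneg_right h8 (by positivity)
    _ = ε / N * ((1 - β) * (a * Real.exp (-(δ * KN N)))) := by ring

end Pool.Agent.Helper26.G5
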