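import Pool.Agent.Helper26.G5.Defs5

/-!
# G5-FREEZE: the freeze lemma with flags

As `Pool.Agent.Helper26.G4.freeze`. For a bad `k` (with `y k = a k`, `χ k = 1`) let `D = k' - k ≥ 2`,
`g = (a k' - a k + 2 s) / D ≤ (C + 2 s) / L ≤ e`, `y j = a k - s + (j - k) g` and `χ j = 0` for `k < j < k'`,
`y k' = a k'`, `χ k' = 1`. First step: `y (k + 1) + s = a k + g`; last step:
`y k' + s = a k' + s = a k - s + D g = y (k' - 1) + g`.
-/

set_option autoImplicit false

namespace Pool.Agent.Helper26.G5

open MeasureTheory Set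
open scoped Real
open Pool.Agent.Helper90.G2 (Bx Wn Fn ar ch Cen chi)
open Pool.Agent.Helper26.G4 (vt Br Lb wd al rr w0 Bad cn vk lv KN Sa Sc mm KK C9 Sg)

/-- one admissible step -/
def Freeze5_ok (a : ℕ → ℝ) (bad : ℕ → Prop) (e s : ℝ) (y χ : ℕ → ℝ) (k : ℕ) : Prop :=
  (χ k = 0 ∧ χ (k + 1) = 0 ∧ y (k + 1) ≤ y k + e) ∨ y (k + 1) + s ≤ y k + e ∨
    (¬ bad k ∧ χ k = 1 ∧ χ (k + 1) = 1 ∧ y k = a k ∧ y (k + 1) = a (k + 1))

theorem Freeze5_congr {a : ℕ → ℝ} {bad : ℕ → Prop} {e s : ℝ} {y χ y' χ' : ℕ → ℝ} {k : ℕ}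
    (h1 : y k = y' k) (h2 : y (k + 1) = y' (k + 1)) (h3 : χ k = χ' k)
    (h4 : χ (k + 1) = χ' (k + 1)) (h : Freeze5_ok a bad e s y' χ' k) :
    Freeze5_ok a bad e s y χ k := by
  unfold Freeze5_ok
  rw [h1, h2, h3, h4]
  exact h

theorem Freeze5_slope {a : ℕ → ℝ} {e s C : ℝ} {L k k' : ℕ} (hs : 0 ≤ s) (hC0 : 0 ≤ C)
    (hL : 2 ≤ L) (hC : C + 2 * s ≤ L * e) (h1 : k + L ≤ k') (h3 : |a k' - a k| ≤ C) :
    ∃ g : ℝ, g ≤ e ∧ a k - s + ((k' : ℝ) - k) * g = a k' + s := by
  have hL0 : (0 : ℝ) < L := by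
    have : 0 < L := by omega
    exact_mod_cast this
  have hLd : (L : ℝ) ≤ (k' : ℝ) - k := by
    have : ((k + L : ℕ) : ℝ) ≤ (k' : ℝ) := by exact_mod_cast h1
    push_cast at this
    linarith
  have hd : (0 : ℝ) < (k' : ℝ) - k := hL0.trans_le hLd
  have he0 : 0 ≤ e := by
    by_contra hne
    push Not at hne
    have : (L : ℝ) * e < 0 := mul_neg_of_pos_of_neg hL0 hne
    linarith
  refine ⟨(a k' - a k + 2 * s) / ((k' : ℝ) - k), ?_, ?_⟩
  · rw [div_le_iff₀ hd]
    calc a k' - a k + 2 * s ≤ C + 2 * s := by linarith [le_abs_self (a k' - a k)]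
      _ ≤ L * e := hC
      _ ≤ ((k' : ℝ) - k) * e := by gcongr
      _ = e * ((k' : ℝ) - k) := mul_comm _ _
  · rw [mul_div_cancel₀ _ hd.ne']
    ring

theorem Freeze5_aux {a : ℕ → ℝ} {bad : ℕ → Prop} {e s C : ℝ} {L K : ℕ} (hs : 0 ≤ s) (hC0 : 0 ≤ C)
    (hL : 2 ≤ L) (hC : C + 2 * s ≤ L * e)
    (h : ∀ k < K, bad k → ∃ k' : ℕ, k + L ≤ k' ∧ k' ≤ K ∧ |a k' - a k| ≤ C) :
    ∀ m k : ℕ, k ≤ K → K - k = m →
      ∃ y χ : ℕ → ℝ, (∀ j, χ j = 0 ∨ χ j = 1) ∧ y k = a k ∧ χ k = 1 ∧ y K = a K ∧
        ∀ j, k ≤ j → j < K → Freeze5_ok a bad e s y χ j := by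
  intro m
  induction m using Nat.strong_induction_on with
  | _ m ih =>
    intro k hk hm
    rcases hk.eq_or_lt with rfl | hlt
    · exact ⟨a, fun _ => 1, fun _ => Or.inr rfl, rfl, rfl, rfl,
        fun j h1 h2 => absurd h2 (not_lt.2 h1)⟩
    · by_cases hb : bad k
      · obtain ⟨k', h1, h2, h3⟩ := h k hlt hb
        have hkk' : k + 2 ≤ k' := by omega
        obtain ⟨y', χ', e0, e1, e4, e2, e3⟩ := ih (K - k') (by omega) k' h2 rfl
        obtain ⟨g, hge, hg⟩ := Freeze5_slope hs hC0 hL hC h1 h3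
        obtain ⟨y, hy⟩ : ∃ y : ℕ → ℝ, y = fun j : ℕ => if j ≤ k then a k else
          if j < k' then a k - s + ((j : ℝ) - k) * g else y' j := ⟨_, rfl⟩
        obtain ⟨χ, hχ⟩ : ∃ χ : ℕ → ℝ, χ = fun j : ℕ => if j ≤ k then 1 else
          if j < k' then 0 else χ' j := ⟨_, rfl⟩
        have y1 : y k = a k := by
          rw [hy]
          simp
        have y2 : ∀ j, k < j → j < k' → y j = a k - s + ((j : ℝ) - k) * g := by
          intro j a1 a2
          rw [hy]
          simp only [not_le.2 a1, if_false, a2, if_true]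
        have y3 : ∀ j, k' ≤ j → y j = y' j := by
          intro j a1
          have a2 : ¬ j ≤ k := by omega
          rw [hy]
          simp only [a2, if_false, not_lt.2 a1]
        have c1 : χ k = 1 := by
          rw [hχ]
          simp
        have c2 : ∀ j, k < j → j < k' → χ j = 0 := by
          intro j a1 a2
          rw [hχ]
          simp only [not_le.2 a1, if_false, a2, if_true]
        have c3 : ∀ j, k' ≤ j → χ j = χ' j := by
          intro j a1
          have a2 : ¬ j ≤ k := by omega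
          rw [hχ]
          simp only [a2, if_false, not_lt.2 a1]
        refine ⟨y, χ, ?_, y1, c1, ?_, ?_⟩
        · intro j
          rw [hχ]
          dsimp only
          split_ifs
          · exact Or.inr rfl
          · exact Or.inl rfl
          · exact e0 j
        · rw [y3 K h2, e2]
        · intro j hj1 hj2
          rcases hj1.eq_or_lt with rfl | hj1
          · right
            left
            rw [y1, y2 (k + 1) (Nat.lt_succ_self k) (by omega)]
            push_cast
            linarith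
          · rcases lt_trichotomy (j + 1) k' with hj | hj | hj
            · left
              refine ⟨c2 j hj1 (by omega), c2 (j + 1) (by omega) hj, ?_⟩
              rw [y2 j hj1 (by omega), y2 (j + 1) (by omega) hj]
              push_cast
              linarith
            · right
              left
              rw [y3 (j + 1) hj.ge, hj, e1, y2 j hj1 (by omega)]
              have hjk : (k' : ℝ) = (j : ℝ) + 1 := by
                rw [← hj]
                push_cast
                ring
              rw [hjk] at hg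
              linarith
            · exact Freeze5_congr (y3 j (by omega)) (y3 (j + 1) hj.le) (c3 j (by omega))
                (c3 (j + 1) hj.le) (e3 j (by omega) hj2)
      · obtain ⟨y', χ', e0, e1, e4, e2, e3⟩ := ih (K - (k + 1)) (by omega) (k + 1) hlt rfl
        refine ⟨fun j => if j ≤ k then a k else y' j, fun j => if j ≤ k then 1 else χ' j,
          ?_, by simp, by simp, ?_, ?_⟩
        · intro j
          dsimp only
          split_ifs
          · exact Or.inr rfl
          · exact e0 j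
        · have : ¬ K ≤ k := by omega
          simp only [this, if_false]
          exact e2
        · intro j hj1 hj2
          rcases hj1.eq_or_lt with rfl | hj
          · right
            right
            have : ¬ k + 1 ≤ k := by omega
            refine ⟨hb, by simp, ?_, by simp, ?_⟩
            · simp only [this, if_false]
              exact e4
            · simp only [this, if_false]
              exact e1
          · have h1 : ¬ j ≤ k := by omega
            have h2 : ¬ j + 1 ≤ k := by omega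
            refine Freeze5_congr ?_ ?_ ?_ ?_ (e3 j hj hj2)
            · simp only [h1, if_false]
            · simp only [h2, if_false]
            · simp only [h1, if_false]
            · simp only [h2, if_false]

theorem freeze5 {a : ℕ → ℝ} {bad : ℕ → Prop} {e s C : ℝ} {L K : ℕ} (hs : 0 ≤ s) (hC0 : 0 ≤ C)
    (hL : 2 ≤ L) (hC : C + 2 * s ≤ L * e)
    (h : ∀ k < K, bad k → ∃ k' : ℕ, k + L ≤ k' ∧ k' ≤ K ∧ |a k' - a k| ≤ C) :
    ∃ y χ : ℕ → ℝ, Fz5 a bad e s K y χ := by
  obtain ⟨y, χ, h0, h1, h2, h3, h4⟩ :=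
    Freeze5_aux hs hC0 hL hC h (K - 0) 0 (Nat.zero_le K) rfl
  exact ⟨y, χ, ⟨h0, h1, h3, fun k hk => h4 k (Nat.zero_le k) hk⟩⟩

end Pool.Agent.Helper26.G5
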