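import Pool.Agent.Helper26.G5.Defs5

/-!
# G5-FUN: elementary facts on the functional

`1 - β ≤ 1 - β χ κ ≤ 1 + β`. `V5_add`: for every `ζ` the integral over the large set is at least the sum
over disjoint measurable parts (`lintegral_union` needs no measurability of the integrand), each at least
its infimum. `inf_arg`: let `v = ⨅ J < ⊤`, `η > 0`, `J i ≤ v + η`; `J' i + ν v ≤ J' i + ν J j ≤ (E0 + ν) (v + η) + E`,
subtract `ν v` (finite): `⨅ J' ≤ E0 v + (E0 + B) η + E`, `η → 0`.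
-/

set_option autoImplicit false

namespace Pool.Agent.Helper26.G5

open MeasureTheory Set
open scoped Real
open Pool.Agent.Helper90.G2 (Bx Wn Fn ar ch Cen chi)
open Pool.Agent.Helper26.G4 (vt Br Lb wd al rr w0 Bad cn vk lv KN Sa Sc mm KK C9 Sg)

theorem V5_le {F : ℂ → ℂ} {y χ : ℂ → ℕ → ℝ} {κ : ℂ → ℝ} {β : ℝ} {k : ℕ} {v : ℂ} {S : Set ℂ} {ζ : ℂ}
    (hζ : ζ ≠ 0) : V5 F y χ κ β k v S ≤ ∫⁻ u in S, Dn F y χ κ β k (F v) ζ u := by
  unfold V5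
  exact iInf_le (fun ζ : {ζ : ℂ // ζ ≠ 0} => ∫⁻ u in S, Dn F y χ κ β k (F v) ζ u) ⟨ζ, hζ⟩

private theorem fac {β c q : ℝ} (hβ : 0 ≤ β) (hq : |q| ≤ 1) (hc : c = 0 ∨ c = 1) :
    1 - β ≤ 1 - β * c * q ∧ 1 - β * c * q ≤ 1 + β := by
  have h := abs_le.1 hq
  rcases hc with h0 | h1
  · subst h0
    constructor <;> nlinarith
  · subst h1
    constructor <;> nlinarith

theorem V5_up {F : ℂ → ℂ} {y χ : ℂ → ℕ → ℝ} {κ : ℂ → ℝ} {β : ℝ} {k : ℕ} {v : ℂ} {S : Set ℂ}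
    (hS : MeasurableSet S) (hβ : 0 ≤ β) (hκ : ∀ z, |κ z| ≤ 1) (hχ : ∀ u ∈ S, χ u k = 0 ∨ χ u k = 1) :
    V5 F y χ κ β k v S ≤ ENNReal.ofReal (1 + β) * Vq F y k S := by
  refine (V5_le (ζ := 1) one_ne_zero).trans ?_
  unfold Vq
  rw [← lintegral_const_mul' _ _ ENNReal.ofReal_ne_top]
  refine setLIntegral_mono' hS fun u hu => ?_
  unfold Dn
  rw [← ENNReal.ofReal_mul (by linarith)]
  apply ENNReal.ofReal_le_ofReal
  have h := (fac hβ (hκ ((F u - F v) / 1)) (hχ u hu)).2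
  have h2 : 0 ≤ ‖deriv F u‖ ^ 2 * Real.exp (y u k) :=
    mul_nonneg (by positivity) (Real.exp_pos _).le
  calc ‖deriv F u‖ ^ 2 * (Real.exp (y u k) * (1 - β * χ u k * κ ((F u - F v) / 1)))
      = (‖deriv F u‖ ^ 2 * Real.exp (y u k)) * (1 - β * χ u k * κ ((F u - F v) / 1)) := by ring
    _ ≤ (‖deriv F u‖ ^ 2 * Real.exp (y u k)) * (1 + β) := mul_le_mul_of_nonneg_left h h2
    _ = (1 + β) * (‖deriv F u‖ ^ 2 * Real.exp (y u k)) := by ring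

theorem V5_low {F : ℂ → ℂ} {y χ : ℂ → ℕ → ℝ} {κ : ℂ → ℝ} {β : ℝ} {k : ℕ} {v : ℂ} {S : Set ℂ}
    (hS : MeasurableSet S) (hβ : 0 ≤ β) (hβ1 : β ≤ 1) (hκ : ∀ z, |κ z| ≤ 1)
    (hχ : ∀ u ∈ S, χ u k = 0 ∨ χ u k = 1) :
    ENNReal.ofReal (1 - β) * Vq F y k S ≤ V5 F y χ κ β k v S := by
  unfold V5
  refine le_iInf fun ζ => ?_
  unfold Vq
  rw [← lintegral_const_mul' _ _ ENNReal.ofReal_ne_top]
  refine setLIntegral_mono' hS fun u hu => ?_
  unfold Dn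
  rw [← ENNReal.ofReal_mul (by linarith)]
  apply ENNReal.ofReal_le_ofReal
  have h := (fac hβ (hκ ((F u - F v) / ζ)) (hχ u hu)).1
  have h2 : 0 ≤ ‖deriv F u‖ ^ 2 * Real.exp (y u k) :=
    mul_nonneg (by positivity) (Real.exp_pos _).le
  calc (1 - β) * (‖deriv F u‖ ^ 2 * Real.exp (y u k))
      = (‖deriv F u‖ ^ 2 * Real.exp (y u k)) * (1 - β) := by ring
    _ ≤ (‖deriv F u‖ ^ 2 * Real.exp (y u k)) * (1 - β * χ u k * κ ((F u - F v) / ζ)) :=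
        mul_le_mul_of_nonneg_left h h2
    _ = ‖deriv F u‖ ^ 2 * (Real.exp (y u k) * (1 - β * χ u k * κ ((F u - F v) / ζ))) := by ring

theorem V5_add {F : ℂ → ℂ} {y χ : ℂ → ℕ → ℝ} {κ : ℂ → ℝ} {β : ℝ} {k N : ℕ} {v : ℂ} {S W : Set ℂ}
    {Q : ℕ → Set ℂ} (hW : MeasurableSet W) (hQ : ∀ d < N, MeasurableSet (Q d)) (hWS : W ⊆ S)
    (hQS : ∀ d < N, Q d ⊆ S) (hd : ∀ d < N, ∀ e < N, d ≠ e → Disjoint (Q d) (Q e))
    (hWd : ∀ d < N, Disjoint W (Q d)) :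
    V5 F y χ κ β k v W + ∑ d ∈ Finset.range N, V5 F y χ κ β k v (Q d) ≤ V5 F y χ κ β k v S := by
  have hlow : ∀ T : Set ℂ, ∀ ζ : {ζ : ℂ // ζ ≠ 0}, V5 F y χ κ β k v T ≤
      ∫⁻ u in T, Dn F y χ κ β k (F v) ζ u := fun T ζ => V5_le ζ.2
  conv_rhs => unfold V5
  refine le_iInf fun ζ => ?_
  have hbm : MeasurableSet (⋃ d ∈ Finset.range N, Q d) :=
    Finset.measurableSet_biUnion _ fun d hd' => hQ d (Finset.mem_range.1 hd')
  have hdis : Disjoint W (⋃ d ∈ Finset.range N, Q d) := by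
    rw [Set.disjoint_iUnion₂_right]
    exact fun d hd' => hWd d (Finset.mem_range.1 hd')
  have hsub : W ∪ (⋃ d ∈ Finset.range N, Q d) ⊆ S := by
    refine Set.union_subset hWS ?_
    exact Set.iUnion₂_subset fun d hd' => hQS d (Finset.mem_range.1 hd')
  have hpd : Set.PairwiseDisjoint (↑(Finset.range N)) Q := by
    intro d hd1 e he1 hne
    exact hd d (Finset.mem_range.1 (Finset.mem_coe.1 hd1)) e
      (Finset.mem_range.1 (Finset.mem_coe.1 he1)) hne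
  calc V5 F y χ κ β k v W + ∑ d ∈ Finset.range N, V5 F y χ κ β k v (Q d)
      ≤ (∫⁻ u in W, Dn F y χ κ β k (F v) ζ u) +
        ∑ d ∈ Finset.range N, ∫⁻ u in Q d, Dn F y χ κ β k (F v) ζ u :=
        add_le_add (hlow W ζ) (Finset.sum_le_sum fun d _ => hlow (Q d) ζ)
    _ = (∫⁻ u in W, Dn F y χ κ β k (F v) ζ u) +
        ∫⁻ u in ⋃ d ∈ Finset.range N, Q d, Dn F y χ κ β k (F v) ζ u := by
        rw [lintegral_biUnion_finset hpd fun d hd' => hQ d (Finset.mem_range.1 hd')]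
    _ = ∫⁻ u in W ∪ (⋃ d ∈ Finset.range N, Q d), Dn F y χ κ β k (F v) ζ u :=
        (lintegral_union hbm hdis).symm
    _ ≤ ∫⁻ u in S, Dn F y χ κ β k (F v) ζ u := lintegral_mono_set hsub

theorem inf_arg {ι : Type} [Nonempty ι] {J' J : ι → ENNReal} {B E0 : ℝ} {E : ENNReal} (hB : 0 ≤ B)
    (hE0 : 0 ≤ E0) (hfin : ⨅ i, J i < ⊤)
    (h : ∀ i, ∃ ν : ℝ, 0 ≤ ν ∧ ν ≤ B ∧ ∃ j, J' i + ENNReal.ofReal ν * J j ≤
      ENNReal.ofReal (E0 + ν) * J i + E) : ⨅ i, J' i ≤ ENNReal.ofReal E0 * (⨅ i, J i) + E := by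
  set v := ⨅ i, J i with hv
  refine ENNReal.le_of_forall_pos_le_add fun η hη _ => ?_
  have hC : 0 < E0 + B + 1 := by linarith
  have hη0 : (0 : ℝ) < (η : ℝ) := by exact_mod_cast hη
  -- the small number
  set t : ℝ := (η : ℝ) / (E0 + B + 1) with ht
  have ht0 : 0 < t := div_pos hη0 hC
  have hlt : v < v + ENNReal.ofReal t :=
    ENNReal.lt_add_right hfin.ne (by simpa using ht0)
  obtain ⟨i, hi⟩ := exists_lt_of_ciInf_lt (hv ▸ hlt)
  obtain ⟨ν, hν0, hνB, j, hj⟩ := h i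
  have hvj : v ≤ J j := iInf_le _ j
  have hfi : ENNReal.ofReal ν * v ≠ ⊤ := ENNReal.mul_ne_top ENNReal.ofReal_ne_top hfin.ne
  have h1 : J' i + ENNReal.ofReal ν * v ≤
      (ENNReal.ofReal E0 * v + E + ENNReal.ofReal ((E0 + ν) * t)) + ENNReal.ofReal ν * v := by
    calc J' i + ENNReal.ofReal ν * v ≤ J' i + ENNReal.ofReal ν * J j :=
          add_le_add le_rfl (mul_le_mul_right hvj _)
      _ ≤ ENNReal.ofReal (E0 + ν) * J i + E := hj
      _ ≤ ENNReal.ofReal (E0 + ν) * (v + ENNReal.ofReal t) + E :=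
          add_le_add (mul_le_mul_right hi.le _) le_rfl
      _ = (ENNReal.ofReal E0 * v + E + ENNReal.ofReal ((E0 + ν) * t)) + ENNReal.ofReal ν * v := by
          rw [mul_add, ENNReal.ofReal_mul (by linarith), ENNReal.ofReal_add hE0 hν0]
          ring
  have h2 : J' i ≤ ENNReal.ofReal E0 * v + E + ENNReal.ofReal ((E0 + ν) * t) :=
    (ENNReal.add_le_add_iff_right hfi).1 h1
  have h3 : (E0 + ν) * t ≤ (η : ℝ) := by
    have : (E0 + ν) * t ≤ (E0 + B + 1) * t := mul_le_mul_of_nonneg_right (by linarith) ht0.le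
    have e : (E0 + B + 1) * t = (η : ℝ) := by
      rw [ht]
      field_simp
    linarith
  have h4 : ENNReal.ofReal ((E0 + ν) * t) ≤ (η : ENNReal) := by
    rw [ENNReal.ofReal_le_iff_le_toReal ENNReal.coe_ne_top]
    simpa using h3
  calc ⨅ i, J' i ≤ J' i := iInf_le _ i
    _ ≤ ENNReal.ofReal E0 * v + E + ENNReal.ofReal ((E0 + ν) * t) := h2
    _ ≤ ENNReal.ofReal E0 * v + E + (η : ENNReal) := add_le_add le_rfl h4

end Pool.Agent.Helper26.G5
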