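import Pool.Agent.Helper26.G5.Fun5
import Pool.Agent.Helper26.G4.Kids4
import Pool.Agent.Helper26.G4.TopB

/-!
# G5-KIDS: lower bounds

Copies of `w_low`, `bot` of `Pool.Agent.Helper26.G4.Kids4` (only `Fz5.last` is used: `y u k = al Λ τ v u` in
the upper part of the box), and `V5_low`. `Vn_child`: as `Vs_child`.
-/

set_option autoImplicit false

namespace Pool.Agent.Helper26.G5

open MeasureTheory Set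
open scoped Real
open Pool.Agent.Helper90.G2 (Bx Wn Fn ar ch Cen chi)
open Pool.Agent.Helper26.G4 (vt Br Lb wd al rr w0 Bad cn vk lv KN Sa Sc mm KK C9 Sg)

/-- the lower bound of the plain functional of the upper part -/
theorem Kids5_Vq {F : ℂ → ℂ} {A : ℝ} (hF : Fn F A) {Λ : ℂ → ℂ → ℂ} (hΛ : Br F Λ) {M : ℕ}
    (hM : 1 ≤ M) {ξ ε b B Cc : ℝ} {τ : ℂ} {y χ : ℂ → ℕ → ℝ} (hy : Yf5 F Λ M ξ ε b B Cc τ y χ)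
    {k d : ℕ} (hd : d < (2 ^ M) ^ k) {c ℓ : ℝ} (hc : c = ch ((2 ^ M) ^ k) ξ 1 d)
    (hℓ : ℓ = 1 / ((2 ^ M : ℕ) : ℝ) ^ k) :
    ENNReal.ofReal (ar F (Wn c ℓ (1 / ((2 ^ M : ℕ) : ℝ))) *
      Real.exp (w0 Λ τ (vt c ℓ) - ‖τ‖ * KN (2 ^ M))) ≤
    Vq F y k (Wn c ℓ (1 / ((2 ^ M : ℕ) : ℝ))) := by
  have hN : 2 ≤ 2 ^ M := by
    calc 2 = 2 ^ 1 := rfl
      _ ≤ 2 ^ M := Nat.pow_le_pow_right (by norm_num) hM
  have hp := Pool.Agent.Helper26.G4.Levels_pow hN k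
  have hℓ0 : 0 < ℓ := by
    rw [hℓ]
    exact one_div_pos.2 hp
  have hℓ1 : ℓ ≤ 1 := by
    rw [hℓ]
    have := Pool.Agent.Helper26.G4.Levels_anti hN (Nat.zero_le k)
    rwa [pow_zero, div_one] at this
  have hsub : Wn c ℓ (1 / ((2 ^ M : ℕ) : ℝ)) ⊆ Bx c ℓ := Pool.Agent.Helper90.G2.wn_sub hℓ0 hN
  have hst := Pool.Agent.Helper90.G2.bx_sub_strip (c := c) hℓ1
  have hmw := Pool.Agent.Helper90.G2.meas_wn c ℓ (1 / ((2 ^ M : ℕ) : ℝ))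
  have hvol := hF.vol hmw (hsub.trans hst)
  have hfin := hF.fin hℓ1 hsub
  set E := Real.exp (w0 Λ τ (vt c ℓ) - ‖τ‖ * KN (2 ^ M)) with hE
  have hE0 : 0 < E := Real.exp_pos _
  have h1 : ENNReal.ofReal (ar F (Wn c ℓ (1 / ((2 ^ M : ℕ) : ℝ))) * E) =
      ENNReal.ofReal E * volume (F '' Wn c ℓ (1 / ((2 ^ M : ℕ) : ℝ))) := by
    rw [mul_comm, ENNReal.ofReal_mul hE0.le]
    unfold ar
    rw [ENNReal.ofReal_toReal hfin.ne]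
  rw [Vq, h1, hvol, ← lintegral_const_mul' _ _ ENNReal.ofReal_ne_top]
  refine setLIntegral_mono' hmw fun u hu => ?_
  rw [← ENNReal.ofReal_mul hE0.le, mul_comm]
  apply ENNReal.ofReal_le_ofReal
  apply mul_le_mul_of_nonneg_left _ (by positivity)
  rw [hE]
  apply Real.exp_le_exp.2
  have huB' : u ∈ Bx (ch ((2 ^ M) ^ k) ξ 1 d) (1 / ((2 ^ M : ℕ) : ℝ) ^ k) := by
    rw [← hc, ← hℓ]
    exact hsub hu
  have hu1 := Pool.Agent.Helper26.G4.bx_child hN hd huB'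
  have hlv : lv (2 ^ M) u = k := by
    apply Pool.Agent.Helper26.G4.lv_eq hN
    · have h2 := hu.1
      rw [hℓ] at h2
      have h3 : 1 / ((2 ^ M : ℕ) : ℝ) ^ (k + 1) =
          1 / ((2 ^ M : ℕ) : ℝ) * (1 / ((2 ^ M : ℕ) : ℝ) ^ k) := by
        rw [pow_succ]
        field_simp
      rw [h3]
      exact h2
    · rw [← hℓ]
      exact hu.2.1
  have hvk : vk (2 ^ M) ξ k u = vt c ℓ := by
    rw [Pool.Agent.Helper26.G4.vk_eq hN huB', ← hc, ← hℓ]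
  have h5 := (hy u hu1).last
  rw [hlv] at h5
  simp only [hvk] at h5
  rw [h5]
  exact Pool.Agent.Helper26.G4.wn_al hF hΛ hN hℓ0 hℓ1 τ hu

/-- the boxes lie in the top box -/
theorem Kids5_sub {M : ℕ} (hM : 1 ≤ M) {ξ : ℝ} {k d : ℕ} (hd : d < (2 ^ M) ^ k) {c ℓ : ℝ}
    (hc : c = ch ((2 ^ M) ^ k) ξ 1 d) (hℓ : ℓ = 1 / ((2 ^ M : ℕ) : ℝ) ^ k) :
    Bx c ℓ ⊆ Bx ξ 1 := by
  intro u hu
  have hN : 2 ≤ 2 ^ M := by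
    calc 2 = 2 ^ 1 := rfl
      _ ≤ 2 ^ M := Nat.pow_le_pow_right (by norm_num) hM
  rw [hc, hℓ] at hu
  exact Pool.Agent.Helper26.G4.bx_child hN hd hu

theorem w_low5 {F : ℂ → ℂ} {A : ℝ} (hF : Fn F A) {Λ : ℂ → ℂ → ℂ} (hΛ : Br F Λ) {M : ℕ}
    (hM : 1 ≤ M) {ξ ε b B Cc β : ℝ} {τ : ℂ} {y χ : ℂ → ℕ → ℝ} (hy : Yf5 F Λ M ξ ε b B Cc τ y χ)
    {κ : ℂ → ℝ} (hκ : ∀ z, |κ z| ≤ 1) (hβ : 0 ≤ β) (hβ1 : β ≤ 1) {k d : ℕ}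
    (hd : d < (2 ^ M) ^ k) {c ℓ : ℝ} (hc : c = ch ((2 ^ M) ^ k) ξ 1 d)
    (hℓ : ℓ = 1 / ((2 ^ M : ℕ) : ℝ) ^ k) :
    ENNReal.ofReal ((1 - β) * (ar F (Wn c ℓ (1 / ((2 ^ M : ℕ) : ℝ))) *
      Real.exp (w0 Λ τ (vt c ℓ) - ‖τ‖ * KN (2 ^ M)))) ≤
    V5 F y χ κ β k (vt c ℓ) (Wn c ℓ (1 / ((2 ^ M : ℕ) : ℝ))) := by
  have hN : 2 ≤ 2 ^ M := by
    calc 2 = 2 ^ 1 := rfl
      _ ≤ 2 ^ M := Nat.pow_le_pow_right (by norm_num) hM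
  have hℓ0 : 0 < ℓ := by
    rw [hℓ]
    exact one_div_pos.2 (Pool.Agent.Helper26.G4.Levels_pow hN k)
  have hmw := Pool.Agent.Helper90.G2.meas_wn c ℓ (1 / ((2 ^ M : ℕ) : ℝ))
  have hsub : Wn c ℓ (1 / ((2 ^ M : ℕ) : ℝ)) ⊆ Bx ξ 1 :=
    (Pool.Agent.Helper90.G2.wn_sub hℓ0 hN).trans (Kids5_sub hM hd hc hℓ)
  rw [ENNReal.ofReal_mul (by linarith)]
  refine le_trans ?_ (V5_low hmw hβ hβ1 hκ fun u hu => (hy u (hsub hu)).flag k)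
  gcongr
  exact Kids5_Vq hF hΛ hM hy hd hc hℓ

theorem Vn_child (F : ℂ → ℂ) (y χ : ℂ → ℕ → ℝ) (κ : ℂ → ℝ) (β : ℝ) {N : ℕ} (hN : 2 ≤ N) {ξ : ℝ}
    {k d e : ℕ} {c ℓ : ℝ} (hc : c = ch (N ^ k) ξ 1 d) (hℓ : ℓ = 1 / (N : ℝ) ^ k) :
    Vn F y χ κ β N ξ (k + 1) (N * d + e) =
      V5 F y χ κ β (k + 1) (vt (ch N c ℓ e) (ℓ / N)) (Bx (ch N c ℓ e) (ℓ / N)) := by
  have h1 : 1 / (N : ℝ) ^ (k + 1) = ℓ / N := by
    rw [hℓ, pow_succ, div_div]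
  rw [Vn, Pool.Agent.Helper26.G4.ch_child hN, h1, ← hc, ← hℓ]

theorem bot5 {F : ℂ → ℂ} {A : ℝ} (hF : Fn F A) {Λ : ℂ → ℂ → ℂ} (hΛ : Br F Λ) {M : ℕ}
    (hM : 1 ≤ M) {ξ ε b B Cc β : ℝ} {τ : ℂ} {y χ : ℂ → ℕ → ℝ} (hy : Yf5 F Λ M ξ ε b B Cc τ y χ)
    {κ : ℂ → ℝ} (hκ : ∀ z, |κ z| ≤ 1) (hβ : 0 ≤ β) (hβ1 : β ≤ 1 / 2) {k d : ℕ}
    (hd : d < (2 ^ M) ^ k) {c ℓ : ℝ} (hc : c = ch ((2 ^ M) ^ k) ξ 1 d)
    (hℓ : ℓ = 1 / ((2 ^ M : ℕ) : ℝ) ^ k) :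
    ENNReal.ofReal (‖Complex.exp ((2 - τ) * (Real.log (vt c ℓ).re + Λ (vt c ℓ) (vt c ℓ)))‖ /
      (2 * (KN (2 ^ M) * Real.exp (‖τ‖ * KN (2 ^ M))))) ≤ Vn F y χ κ β (2 ^ M) ξ k d := by
  have hN : 2 ≤ 2 ^ M := by
    calc 2 = 2 ^ 1 := rfl
      _ ≤ 2 ^ M := Nat.pow_le_pow_right (by norm_num) hM
  have hp := Pool.Agent.Helper26.G4.Levels_pow hN k
  have hℓ0 : 0 < ℓ := by
    rw [hℓ]
    exact one_div_pos.2 hp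
  have hℓ1 : ℓ ≤ 1 := by
    rw [hℓ]
    have := Pool.Agent.Helper26.G4.Levels_anti hN (Nat.zero_le k)
    rwa [pow_zero, div_one] at this
  have hv : 0 < (vt c ℓ).re := by
    show 0 < 2 * ℓ
    linarith
  have hKN : 0 < KN (2 ^ M) := Real.exp_pos _
  have h1 := Kids5_Vq hF hΛ hM hy hd hc hℓ
  have h2 := Pool.Agent.Helper26.G4.ar_low hF hN (c := c) hℓ0 hℓ1
  have h3 : Vq F y k (Wn c ℓ (1 / ((2 ^ M : ℕ) : ℝ))) ≤ Vq F y k (Bx c ℓ) := by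
    rw [Vq, Vq]
    exact lintegral_mono_set (Pool.Agent.Helper90.G2.wn_sub hℓ0 hN)
  have h6 : ENNReal.ofReal (1 - β) * Vq F y k (Bx c ℓ) ≤ Vn F y χ κ β (2 ^ M) ξ k d := by
    rw [Vn, ← hc, ← hℓ]
    exact V5_low (Pool.Agent.Helper90.G2.meas_bx c ℓ) hβ (by linarith) hκ
      fun u hu => (hy u (Kids5_sub hM hd hc hℓ hu)).flag k
  refine le_trans ?_ h6
  refine le_trans ?_ (mul_le_mul' le_rfl (h1.trans h3))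
  rw [← ENNReal.ofReal_mul (by linarith)]
  apply ENNReal.ofReal_le_ofReal
  have h4 : ‖Complex.exp ((2 - τ) * (Real.log (vt c ℓ).re + Λ (vt c ℓ) (vt c ℓ)))‖ =
      rr F (vt c ℓ) ^ 2 * Real.exp (w0 Λ τ (vt c ℓ)) := by
    have h5 : ‖Complex.exp ((Real.log (vt c ℓ).re : ℂ) + Λ (vt c ℓ) (vt c ℓ))‖ = rr F (vt c ℓ) := by
      rw [Complex.exp_add, hΛ.diag _ hv, norm_mul, ← Complex.ofReal_exp, Real.exp_log hv, rr,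
        Complex.norm_real, Real.norm_eq_abs, abs_of_pos hv]
    rw [← h5, ← norm_pow, ← Complex.exp_nat_mul, Complex.norm_exp, Complex.norm_exp, w0,
      ← Real.exp_add]
    congr 1
    rw [sub_mul, Complex.sub_re]
    push_cast
    ring
  rw [h4, Real.exp_sub]
  have hE1 := Real.exp_pos (w0 Λ τ (vt c ℓ))
  have hE2 := Real.exp_pos (‖τ‖ * KN (2 ^ M))
  calc rr F (vt c ℓ) ^ 2 * Real.exp (w0 Λ τ (vt c ℓ)) /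
        (2 * (KN (2 ^ M) * Real.exp (‖τ‖ * KN (2 ^ M))))
      = 1 / 2 * (rr F (vt c ℓ) ^ 2 / KN (2 ^ M) *
        (Real.exp (w0 Λ τ (vt c ℓ)) / Real.exp (‖τ‖ * KN (2 ^ M)))) := by
        field_simp
    _ ≤ (1 - β) * (ar F (Wn c ℓ (1 / ((2 ^ M : ℕ) : ℝ))) *
        (Real.exp (w0 Λ τ (vt c ℓ)) / Real.exp (‖τ‖ * KN (2 ^ M)))) := by
        apply mul_le_mul (by linarith) _ (by positivity) (by linarith)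
        apply mul_le_mul_of_nonneg_right _ (by positivity)
        rw [div_le_iff₀ hKN, mul_comm]
        exact h2

theorem Kids5_y {F : ℂ → ℂ} {Λ : ℂ → ℂ → ℂ} {M : ℕ} {ξ ε b B Cc C : ℝ} {τ : ℂ}
    (hτ : ‖τ‖ ≤ 1) {y χ : ℂ → ℕ → ℝ} (hy : Yf5 F Λ M ξ ε b B Cc τ y χ) (hξ : |ξ| ≤ 7)
    (h : ∀ u ∈ Bx ξ 1, ‖Lb Λ (vt ξ 1) u‖ ≤ C + |ξ|) {u : ℂ} (hu : u ∈ Bx ξ 1) :
    y u 0 ≤ C + 7 := by
  have h0 : y u 0 = al Λ τ (vk (2 ^ M) ξ 0 u) u := (hy u hu).zero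
  rw [h0, Pool.Agent.Helper26.G4.vk_zero hu, al]
  have h1 : -(τ * Lb Λ (vt ξ 1) u).re ≤ ‖τ * Lb Λ (vt ξ 1) u‖ := by
    have := Complex.abs_re_le_norm (τ * Lb Λ (vt ξ 1) u)
    exact (neg_le_abs _).trans this
  have h2 : ‖τ * Lb Λ (vt ξ 1) u‖ ≤ ‖Lb Λ (vt ξ 1) u‖ := by
    rw [norm_mul]
    exact mul_le_of_le_one_left (norm_nonneg _) hτ
  have h3 := h u hu
  linarith

theorem top5 {F : ℂ → ℂ} {A : ℝ} (hF : Fn F A) {Λ : ℂ → ℂ → ℂ} {M : ℕ} {ξ ε b B Cc β C : ℝ} {τ : ℂ}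
    (hτ : ‖τ‖ ≤ 1) {y χ : ℂ → ℕ → ℝ} (hy : Yf5 F Λ M ξ ε b B Cc τ y χ) {κ : ℂ → ℝ}
    (hκ : ∀ z, |κ z| ≤ 1) (hβ : 0 ≤ β) (hβ1 : β ≤ 1 / 2) (hξ : |ξ| ≤ 7)
    (h : ∀ u ∈ Bx ξ 1, ‖Lb Λ (vt ξ 1) u‖ ≤ C + |ξ|) :
    Vn F y χ κ β (2 ^ M) ξ 0 0 ≤ ENNReal.ofReal (2 * (A * Real.exp (C + 7))) := by
  have hm := Pool.Agent.Helper90.G2.meas_bx ξ 1
  have hb : 1 / ((2 ^ M : ℕ) : ℝ) ^ 0 = 1 := by rw [pow_zero, div_one]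
  have hVq : Vq F y 0 (Bx ξ 1) ≤ ENNReal.ofReal (A * Real.exp (C + 7)) := by
    rw [Vq]
    calc ∫⁻ u in Bx ξ 1, ENNReal.ofReal (‖deriv F u‖ ^ 2 * Real.exp (y u 0))
        ≤ ∫⁻ u in Bx ξ 1, ENNReal.ofReal (‖deriv F u‖ ^ 2) *
          ENNReal.ofReal (Real.exp (C + 7)) := by
          refine setLIntegral_mono' hm fun u hu => ?_
          rw [ENNReal.ofReal_mul (by positivity)]
          gcongr
          exact Kids5_y hτ hy hξ h hu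
      _ = (∫⁻ u in Bx ξ 1, ENNReal.ofReal (‖deriv F u‖ ^ 2)) *
          ENNReal.ofReal (Real.exp (C + 7)) :=
          lintegral_mul_const' _ _ ENNReal.ofReal_ne_top
      _ = volume (F '' Bx ξ 1) * ENNReal.ofReal (Real.exp (C + 7)) := by
          rw [hF.vol hm (Pool.Agent.Helper26.G4.TopB_sub ξ)]
      _ ≤ ENNReal.ofReal A * ENNReal.ofReal (Real.exp (C + 7)) := by
          gcongr
          exact hF.area ξ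
      _ = ENNReal.ofReal (A * Real.exp (C + 7)) := (ENNReal.ofReal_mul' (Real.exp_pos _).le).symm
  rw [Vn, Pool.Agent.Helper26.G4.TopB_ch, hb]
  refine (V5_up hm hβ hκ fun u hu => (hy u hu).flag 0).trans ?_
  rw [ENNReal.ofReal_mul (by norm_num : (0 : ℝ) ≤ 2)]
  exact mul_le_mul' (ENNReal.ofReal_le_ofReal (by linarith)) hVq

end Pool.Agent.Helper26.G5
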