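import Pool.Agent.Helper26.G5.Window5
import Pool.Agent.Helper26.G4.WordsB
import Pool.Agent.Helper26.G4.Node

/-!
# G5-NODE: the iteration

Copy of `Pool.Agent.Helper26.G4.node` with `Vn`, `window5`, `bot5`, `top5` (`β = |τ| b ≤ 1/2`).
-/

set_option autoImplicit false

namespace Pool.Agent.Helper26.G5

open MeasureTheory Set
open scoped Real
open Pool.Agent.Helper90.G2 (Bx Wn Fn ar ch Cen chi)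
open Pool.Agent.Helper26.G4 (vt Br Lb wd al rr w0 Bad cn vk lv KN Sa Sc mm KK C9 Sg)

theorem Node5_fin {F : ℂ → ℂ} {A : ℝ} (hF : Fn F A) {Λ : ℂ → ℂ → ℂ} (hΛ : Br F Λ) {M : ℕ}
    (hM : 1 ≤ M) {κt : ℂ → ℝ} {b c₀ B Cc m₁ Ca κ ε : ℝ} {τ : ℂ}
    (hk : Tk κt (τ / ‖τ‖) b c₀ B Cc m₁) (hκ : 0 < κ) (hκ1 : κ ≤ 1 / 4)
    (hMκ : 2 / ((2 ^ M : ℕ) : ℝ) < κ ^ 2) (hε : 0 < ε) (hε1 : ε ≤ 1 / 20)
    (hS : Sm5 Ca b c₀ B Cc m₁ M κ ε ‖τ‖)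
    {ξ : ℝ} {y χ : ℂ → ℕ → ℝ} (hy : Yf5 F Λ M ξ ε b B Cc τ y χ) {θ : ℝ}
    (hθ : 8 * ‖τ‖ ^ 2 * KK (2 ^ M) ε ^ 2 / ε ≤ θ)
    (h0 : Vn F y χ κt (‖τ‖ * b) (2 ^ M) ξ 0 0 < ⊤) (k : ℕ) :
    ∀ d < (2 ^ M) ^ k, Vn F y χ κt (‖τ‖ * b) (2 ^ M) ξ k d < ⊤ := by
  induction k with
  | zero =>
    intro d hd
    rw [pow_zero, Nat.lt_one_iff] at hd
    rw [hd]
    exact h0
  | succ k ih =>
    intro d hd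
    have hN : 0 < 2 ^ M := by positivity
    have h1 : d / 2 ^ M < (2 ^ M) ^ k := by
      rw [Nat.div_lt_iff_lt_mul hN, ← pow_succ]
      exact hd
    have h2 := (window5 hF hΛ hM hk hκ hκ1 hMκ hε hε1 hS hy hθ h1 (ih _ h1)).1
      (d % 2 ^ M) (Nat.mod_lt _ hN)
    rwa [Nat.div_add_mod] at h2

theorem node5 {F : ℂ → ℂ} {A : ℝ} (hF : Fn F A) (hA : 0 ≤ A) {Λ : ℂ → ℂ → ℂ} (hΛ : Br F Λ) {M : ℕ}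
    (hM : 1 ≤ M) {κt : ℂ → ℝ} {b c₀ B Cc m₁ Ca κ ε : ℝ} {τ : ℂ}
    (hk : Tk κt (τ / ‖τ‖) b c₀ B Cc m₁) (hκ : 0 < κ) (hκ1 : κ ≤ 1 / 4)
    (hMκ : 2 / ((2 ^ M : ℕ) : ℝ) < κ ^ 2) (hε : 0 < ε) (hε1 : ε ≤ 1 / 20)
    (hS : Sm5 Ca b c₀ B Cc m₁ M κ ε ‖τ‖)
    {ξ C : ℝ} (hC : 0 ≤ C) (hξ : |ξ| ≤ 7) (hb : ∀ u ∈ Bx ξ 1, ‖Lb Λ (vt ξ 1) u‖ ≤ C + |ξ|)
    {y χ : ℂ → ℕ → ℝ} (hy : Yf5 F Λ M ξ ε b B Cc τ y χ) {θ : ℝ} (hθ1 : θ ≤ 1)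
    (hθ : 8 * ‖τ‖ ^ 2 * KK (2 ^ M) ε ^ 2 / ε ≤ θ) {G : ℝ}
    (hG : Real.exp ((C9 * ‖τ‖ ^ 2 * M + 4 * ‖τ‖ ^ 2 * ε) * θ +
        ‖τ‖ ^ 2 * (ε * M + mm5 c₀ (Sc κ (2 ^ M)) ε) + 4 * ‖τ‖ ^ 2 * ε +
          3 * ε * (C9 * ‖τ‖ ^ 2 * M)) ≤ G)
    (K : ℕ) :
    ∑ d ∈ Finset.range ((2 ^ M) ^ K),
      Pool.Agent.Helper90.G2.chK κ (C9 * ‖τ‖ ^ 2 * M) (2 ^ M) K d *
        (‖Complex.exp ((2 - τ) * (Real.log (2 / ((2 ^ M : ℕ) : ℝ) ^ K) +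
          Λ (vt (ch ((2 ^ M) ^ K) ξ 1 d) (1 / ((2 ^ M : ℕ) : ℝ) ^ K))
            (vt (ch ((2 ^ M) ^ K) ξ 1 d) (1 / ((2 ^ M : ℕ) : ℝ) ^ K))))‖ /
          (2 * (KN (2 ^ M) * Real.exp (KN (2 ^ M))))) ^ (1 + θ) ≤
      G ^ K * (1 + 2 * (A * Real.exp (C + 7))) ^ 2 := by
  have hτ4 : ‖τ‖ ≤ 1 / 80 := hS.le.trans (by linarith)
  have hτ : ‖τ‖ ≤ 1 := hτ4.trans (by norm_num)
  have hβ : 0 ≤ ‖τ‖ * b := mul_nonneg (norm_nonneg _) hk.hb.le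
  have hβ1 : ‖τ‖ * b ≤ 1 / 2 := by
    have h1 : ‖τ‖ * b ≤ 1 / 80 * 1 :=
      mul_le_mul hτ4 hk.hb1 hk.hb.le (by norm_num)
    linarith
  have hθ0 : 0 ≤ θ := le_trans (by positivity) hθ
  have hN : 1 ≤ 2 ^ M := Nat.one_le_two_pow
  have htop := top5 (M := M) hF hτ hy hk.bd hβ hβ1 hξ hb
  have hfin := Node5_fin hF hΛ hM hk hκ hκ1 hMκ hε hε1 hS hy hθ
    (htop.trans_lt ENNReal.ofReal_lt_top)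
  have hKN : 0 < KN (2 ^ M) := Real.exp_pos _
  obtain ⟨G', hG'⟩ : ∃ G' : ℝ, G' = Real.exp ((C9 * ‖τ‖ ^ 2 * M + 4 * ‖τ‖ ^ 2 * ε) * θ +
        ‖τ‖ ^ 2 * (ε * M + mm5 c₀ (Sc κ (2 ^ M)) ε) + 4 * ‖τ‖ ^ 2 * ε +
          3 * ε * (C9 * ‖τ‖ ^ 2 * M)) := ⟨_, rfl⟩
  rw [← hG'] at hG
  have hG0 : 0 ≤ G' := by
    rw [hG']
    exact (Real.exp_pos _).le
  have hw := Pool.Agent.Helper26.G4.words4
    (f := fun k d => (Vn F y χ κt (‖τ‖ * b) (2 ^ M) ξ k d).toReal ^ (1 + θ)) (κ := κ)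
    (c' := C9 * ‖τ‖ ^ 2 * M) (G := G') (N := 2 ^ M) hN hG0 (fun k d hd => by
      rw [hG']
      exact (window5 hF hΛ hM hk hκ hκ1 hMκ hε hε1 hS hy hθ hd (hfin k d hd)).2) K
  have hB : (0 : ℝ) ≤ 2 * (A * Real.exp (C + 7)) := by positivity
  have h0 : (Vn F y χ κt (‖τ‖ * b) (2 ^ M) ξ 0 0).toReal ^ (1 + θ) ≤
      (1 + 2 * (A * Real.exp (C + 7))) ^ 2 := by
    have h1 : (Vn F y χ κt (‖τ‖ * b) (2 ^ M) ξ 0 0).toReal ≤ 2 * (A * Real.exp (C + 7)) := by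
      have := ENNReal.toReal_mono ENNReal.ofReal_ne_top htop
      rwa [ENNReal.toReal_ofReal hB] at this
    calc (Vn F y χ κt (‖τ‖ * b) (2 ^ M) ξ 0 0).toReal ^ (1 + θ)
        ≤ (1 + 2 * (A * Real.exp (C + 7))) ^ (1 + θ) :=
          Real.rpow_le_rpow ENNReal.toReal_nonneg (by linarith) (by linarith)
      _ ≤ (1 + 2 * (A * Real.exp (C + 7))) ^ (2 : ℝ) :=
          Real.rpow_le_rpow_of_exponent_le (by linarith) (by linarith)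
      _ = (1 + 2 * (A * Real.exp (C + 7))) ^ 2 := Real.rpow_two _
  have hlow : ∀ d < (2 ^ M) ^ K,
      (‖Complex.exp ((2 - τ) * (Real.log (2 / ((2 ^ M : ℕ) : ℝ) ^ K) +
          Λ (vt (ch ((2 ^ M) ^ K) ξ 1 d) (1 / ((2 ^ M : ℕ) : ℝ) ^ K))
            (vt (ch ((2 ^ M) ^ K) ξ 1 d) (1 / ((2 ^ M : ℕ) : ℝ) ^ K))))‖ /
          (2 * (KN (2 ^ M) * Real.exp (KN (2 ^ M))))) ≤
        (Vn F y χ κt (‖τ‖ * b) (2 ^ M) ξ K d).toReal := by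
    intro d hd
    have h1 := bot5 hF hΛ hM hy hk.bd hβ hβ1 hd rfl rfl
    have h2 := (ENNReal.ofReal_le_iff_le_toReal (hfin K d hd).ne).1 h1
    have h3 : (vt (ch ((2 ^ M) ^ K) ξ 1 d) (1 / ((2 ^ M : ℕ) : ℝ) ^ K)).re =
        2 / ((2 ^ M : ℕ) : ℝ) ^ K := by
      show 2 * (1 / ((2 ^ M : ℕ) : ℝ) ^ K) = _
      rw [mul_one_div]
    rw [h3] at h2
    refine le_trans ?_ h2
    apply div_le_div_of_nonneg_left (norm_nonneg _) (by positivity)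
    apply mul_le_mul_of_nonneg_left _ (by norm_num : (0 : ℝ) ≤ 2)
    apply mul_le_mul_of_nonneg_left _ hKN.le
    apply Real.exp_le_exp.2
    exact mul_le_of_le_one_left hKN.le hτ
  calc ∑ d ∈ Finset.range ((2 ^ M) ^ K),
      Pool.Agent.Helper90.G2.chK κ (C9 * ‖τ‖ ^ 2 * M) (2 ^ M) K d *
        (‖Complex.exp ((2 - τ) * (Real.log (2 / ((2 ^ M : ℕ) : ℝ) ^ K) +
          Λ (vt (ch ((2 ^ M) ^ K) ξ 1 d) (1 / ((2 ^ M : ℕ) : ℝ) ^ K))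
            (vt (ch ((2 ^ M) ^ K) ξ 1 d) (1 / ((2 ^ M : ℕ) : ℝ) ^ K))))‖ /
          (2 * (KN (2 ^ M) * Real.exp (KN (2 ^ M))))) ^ (1 + θ)
      ≤ ∑ d ∈ Finset.range ((2 ^ M) ^ K),
        Pool.Agent.Helper90.G2.chK κ (C9 * ‖τ‖ ^ 2 * M) (2 ^ M) K d *
          (Vn F y χ κt (‖τ‖ * b) (2 ^ M) ξ K d).toReal ^ (1 + θ) := by
        refine Finset.sum_le_sum fun d hd => ?_
        apply mul_le_mul_of_nonneg_left _ (Pool.Agent.Helper90.G2.chK_nonneg _ _ _ _ _)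
        exact Real.rpow_le_rpow (by positivity) (hlow d (Finset.mem_range.1 hd)) (by linarith)
    _ ≤ G' ^ K * (Vn F y χ κt (‖τ‖ * b) (2 ^ M) ξ 0 0).toReal ^ (1 + θ) := hw
    _ ≤ G ^ K * (1 + 2 * (A * Real.exp (C + 7))) ^ 2 :=
        mul_le_mul (pow_le_pow_left₀ hG0 hG K) h0 (Real.rpow_nonneg ENNReal.toReal_nonneg _)
          (pow_nonneg (hG0.trans hG) K)

end Pool.Agent.Helper26.G5
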