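import Pool.Agent.Helper26.G5.Up5
import Pool.Agent.Helper26.G4.Far

/-!
# G5-PT: the pointwise step

`δ = |τ|`, `ω = τ / δ`, `m = δ m0`, `β = δ b`, `z = F u - F v`, `s = F v' - F v`, `r = 2 KN rr`;
`y0 = y u k`, `y1 = y u (k+1)`, `x0, x1` the flags, `ν, H` from `Tk.key` for `ζ`. (`2 |s| ≤ r` by
`disp_le`.) Moving (`x0 = x1 = 1`, `y0 = al v u`, `y1 = al v' u`): by `move_le`, `e^(y1) ≤ e^(y0) e^(δ Xh)`.
If `|z| ≥ r`: the difference is at most `e^(y0) Ph ≤ e^(y0) δ H z`, and if `H z > 0` then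
`|z| < Cc |s| / (δ m0) ≤ (Cc KN / δ) rr` (`m0 ≥ 1`), so `|wd| ≤ ε / δ` (not bad) and `up5`. If `|z| < r`: again
`up5`, and `e^(10 N δ) (1 + β) - (1 - β) + 2 ν β ≤ δ Bn` (`10 N δ ≤ 1`, `e^x ≤ 1 + 2 x`). Frozen (flags `0`): clear.
Switch: `e^(y1 - y0) ≤ e^(e1) e^(-8 (1 + B) β)` and with `x = (1 + B) β ≤ 1/8`
`e^(-8 x) (1 + β) ≤ e^(-7 x) ≤ 1 - 2 x ≤ 1 - β - 2 B β`.
-/

set_option autoImplicit false

namespace Pool.Agent.Helper26.G5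

open MeasureTheory Set
open scoped Real
open Pool.Agent.Helper90.G2 (Bx Wn Fn ar ch Cen chi)
open Pool.Agent.Helper26.G4 (vt Br Lb wd al rr w0 Bad cn vk lv KN Sa Sc mm KK C9 Sg)

theorem Pt5_exp {x β : ℝ} (hβ : 0 ≤ β) (hx : β ≤ x) (hx1 : x ≤ 1 / 8) :
    Real.exp (-(8 * x)) * (1 + β) ≤ 1 - 2 * x := by
  have h1 : 1 + β ≤ Real.exp β := by
    have := Real.add_one_le_exp β
    linarith
  have h2 : Real.exp (-(8 * x)) * (1 + β) ≤ Real.exp (-(7 * x)) := by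
    calc Real.exp (-(8 * x)) * (1 + β) ≤ Real.exp (-(8 * x)) * Real.exp β :=
          mul_le_mul_of_nonneg_left h1 (Real.exp_pos _).le
      _ = Real.exp (-(8 * x) + β) := (Real.exp_add _ _).symm
      _ ≤ Real.exp (-(7 * x)) := Real.exp_le_exp.2 (by linarith)
  have h3 : Real.exp (-(7 * x)) * (1 + 7 * x) ≤ 1 := by
    calc Real.exp (-(7 * x)) * (1 + 7 * x) ≤ Real.exp (-(7 * x)) * Real.exp (7 * x) := by
          refine mul_le_mul_of_nonneg_left ?_ (Real.exp_pos _).le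
          have := Real.add_one_le_exp (7 * x)
          linarith
      _ = 1 := by rw [← Real.exp_add, neg_add_cancel, Real.exp_zero]
  have h4 : 1 ≤ (1 - 2 * x) * (1 + 7 * x) := by nlinarith
  have h5 : Real.exp (-(7 * x)) ≤ 1 - 2 * x := by
    by_contra h
    push Not at h
    have := mul_lt_mul_of_pos_right h (by linarith : (0 : ℝ) < 1 + 7 * x)
    linarith
  linarith

/-- a switch -/
theorem Pt5_switch {y0 y1 e1 x β B ν a1 A0 a0 E : ℝ} (hβ : 0 ≤ β) (hB : 0 ≤ B)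
    (hx : x = (1 + B) * β) (hx1 : x ≤ 1 / 8) (hν : 0 ≤ ν) (hν1 : ν ≤ B) (he : 0 ≤ e1)
    (hE : Real.exp e1 ≤ E) (hy : y1 + 8 * x ≤ y0 + e1) (h1 : a1 ≤ 1 + β) (hA : A0 ≤ 1 + β)
    (h0 : 1 - β ≤ a0) :
    Real.exp y1 * a1 + ν * (Real.exp y0 * A0) ≤ (E + ν) * (Real.exp y0 * a0) := by
  have hBβ : 0 ≤ B * β := mul_nonneg hB hβ
  have hβx : β ≤ x := by rw [hx]; linarith
  have hβ1 : β ≤ 1 / 8 := hβx.trans hx1
  have hY := Real.exp_pos y0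
  have hE1 : 1 ≤ Real.exp e1 := Real.one_le_exp he
  have e1' := Pt5_exp hβ hβx hx1
  have e2 : Real.exp y1 ≤ Real.exp y0 * (Real.exp e1 * Real.exp (-(8 * x))) := by
    rw [← Real.exp_add, ← Real.exp_add]
    exact Real.exp_le_exp.2 (by linarith)
  have e3 : Real.exp y1 * a1 ≤ Real.exp y0 * (Real.exp e1 * (1 - 2 * x)) := by
    calc Real.exp y1 * a1 ≤ Real.exp y1 * (1 + β) :=
          mul_le_mul_of_nonneg_left h1 (Real.exp_pos _).le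
      _ ≤ Real.exp y0 * (Real.exp e1 * Real.exp (-(8 * x))) * (1 + β) :=
          mul_le_mul_of_nonneg_right e2 (by linarith)
      _ = Real.exp y0 * (Real.exp e1 * (Real.exp (-(8 * x)) * (1 + β))) := by ring
      _ ≤ Real.exp y0 * (Real.exp e1 * (1 - 2 * x)) :=
          mul_le_mul_of_nonneg_left (mul_le_mul_of_nonneg_left e1' (Real.exp_pos _).le) hY.le
  have e4 : ν * (Real.exp y0 * A0) ≤ Real.exp y0 * (ν * (1 + β)) := by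
    have := mul_le_mul_of_nonneg_left hA (mul_nonneg hν hY.le)
    nlinarith
  have e5 : Real.exp y0 * ((Real.exp e1 + ν) * (1 - β)) ≤ (E + ν) * (Real.exp y0 * a0) := by
    calc Real.exp y0 * ((Real.exp e1 + ν) * (1 - β)) ≤ Real.exp y0 * ((E + ν) * (1 - β)) := by
          refine mul_le_mul_of_nonneg_left (mul_le_mul_of_nonneg_right ?_ (by linarith)) hY.le
          linarith
      _ ≤ Real.exp y0 * ((E + ν) * a0) := by
          refine mul_le_mul_of_nonneg_left (mul_le_mul_of_nonneg_left h0 ?_) hY.le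
          linarith
      _ = (E + ν) * (Real.exp y0 * a0) := by ring
  have e6 : Real.exp e1 * (1 - 2 * x) + ν * (1 + β) ≤ (Real.exp e1 + ν) * (1 - β) := by
    have h6 : 2 * x - β = β + 2 * (B * β) := by rw [hx]; ring
    have h7 : 2 * (ν * β) ≤ β + 2 * (B * β) := by
      have := mul_le_mul_of_nonneg_right hν1 hβ
      linarith
    have h8 : β + 2 * (B * β) ≤ Real.exp e1 * (β + 2 * (B * β)) :=
      le_mul_of_one_le_left (by linarith) hE1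
    have h9 : Real.exp e1 * (2 * x - β) = Real.exp e1 * (β + 2 * (B * β)) := by rw [h6]
    nlinarith
  have e7 := mul_le_mul_of_nonneg_left e6 hY.le
  rw [mul_add] at e7
  linarith

/-- the near part -/
theorem Pt5_near {y0 y1 n δ β B ν a1 A0 a0 E : ℝ} (hn : 0 ≤ n) (hδ : 0 ≤ δ) (hβ : 0 ≤ β)
    (hβδ : β ≤ δ) (hβ1 : β ≤ 1 / 8) (hB : 0 ≤ B) (hν : 0 ≤ ν) (hν1 : ν ≤ B) (hE : 1 ≤ E)
    (hy : y1 ≤ y0 + δ * (10 * n)) (hnδ : δ * (10 * n) ≤ 1) (h1 : a1 ≤ 1 + β) (hA : A0 ≤ 1 + β)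
    (h0 : 1 - β ≤ a0) :
    Real.exp y1 * a1 + ν * (Real.exp y0 * A0) ≤
      (E + ν) * (Real.exp y0 * a0) + Real.exp y0 * (δ * (40 * n + 4 + 4 * B)) := by
  have hY := Real.exp_pos y0
  have hx0 : 0 ≤ δ * (10 * n) := mul_nonneg hδ (by linarith)
  have e1 : Real.exp (δ * (10 * n)) ≤ 1 + 2 * (δ * (10 * n)) := by
    have h := (abs_le.1 (Real.abs_exp_sub_one_sub_id_le (abs_le.2 ⟨by linarith, hnδ⟩))).2
    nlinarith
  have e2 : Real.exp y1 ≤ Real.exp y0 * Real.exp (δ * (10 * n)) := by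
    rw [← Real.exp_add]
    exact Real.exp_le_exp.2 hy
  have e3 : Real.exp y1 * a1 ≤ Real.exp y0 * ((1 + 2 * (δ * (10 * n))) * (1 + β)) := by
    calc Real.exp y1 * a1 ≤ Real.exp y1 * (1 + β) :=
          mul_le_mul_of_nonneg_left h1 (Real.exp_pos _).le
      _ ≤ Real.exp y0 * Real.exp (δ * (10 * n)) * (1 + β) :=
          mul_le_mul_of_nonneg_right e2 (by linarith)
      _ ≤ Real.exp y0 * (1 + 2 * (δ * (10 * n))) * (1 + β) :=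
          mul_le_mul_of_nonneg_right (mul_le_mul_of_nonneg_left e1 hY.le) (by linarith)
      _ = Real.exp y0 * ((1 + 2 * (δ * (10 * n))) * (1 + β)) := by ring
  have e4 : ν * (Real.exp y0 * A0) ≤ Real.exp y0 * (ν * (1 + β)) := by
    have := mul_le_mul_of_nonneg_left hA (mul_nonneg hν hY.le)
    nlinarith
  have e5 : Real.exp y0 * ((1 + ν) * (1 - β)) ≤ (E + ν) * (Real.exp y0 * a0) := by
    calc Real.exp y0 * ((1 + ν) * (1 - β)) ≤ Real.exp y0 * ((E + ν) * (1 - β)) := by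
          refine mul_le_mul_of_nonneg_left (mul_le_mul_of_nonneg_right ?_ (by linarith)) hY.le
          linarith
      _ ≤ Real.exp y0 * ((E + ν) * a0) := by
          refine mul_le_mul_of_nonneg_left (mul_le_mul_of_nonneg_left h0 ?_) hY.le
          linarith
      _ = (E + ν) * (Real.exp y0 * a0) := by ring
  have e6 : (1 + 2 * (δ * (10 * n))) * (1 + β) + ν * (1 + β) ≤
      (1 + ν) * (1 - β) + δ * (40 * n + 4 + 4 * B) := by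
    have h6 : ν * β ≤ B * δ := mul_le_mul hν1 hβδ hβ hB
    have h7 : δ * (10 * n) * β ≤ δ * (10 * n) * 1 :=
      mul_le_mul_of_nonneg_left (by linarith) hx0
    have h8 : 0 ≤ B * δ := mul_nonneg hB hδ
    nlinarith
  have e7 := mul_le_mul_of_nonneg_left e6 hY.le
  rw [mul_add, mul_add] at e7
  linarith

/-- the far part -/
theorem Pt5_far {y0 y1 X q ν a1 A0 a0 E : ℝ} (hE : Real.exp q ≤ E) (hy : y1 ≤ y0 + X)
    (h1 : 0 ≤ a1) (h0 : 0 ≤ a0) :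
    Real.exp y1 * a1 + ν * (Real.exp y0 * A0) ≤
      (E + ν) * (Real.exp y0 * a0) +
        Real.exp y0 * (Real.exp X * a1 - Real.exp q * a0 + ν * (A0 - a0)) := by
  have hY := Real.exp_pos y0
  have e2 : Real.exp y1 ≤ Real.exp y0 * Real.exp X := by
    rw [← Real.exp_add]
    exact Real.exp_le_exp.2 hy
  have e3 := mul_le_mul_of_nonneg_right e2 h1
  have e4 := mul_le_mul_of_nonneg_right hE (mul_nonneg hY.le h0)
  nlinarith

theorem pt5 {F : ℂ → ℂ} {A : ℝ} (hF : Fn F A) {Λ : ℂ → ℂ → ℂ} (hΛ : Br F Λ) {N d : ℕ}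
    (hN : 2 ≤ N) (hd : d < N) {c ℓ : ℝ} (hℓ : 0 < ℓ) (hℓ1 : ℓ ≤ 1) {τ : ℂ} (hτ : 0 < ‖τ‖)
    {κ : ℂ → ℝ} {b c₀ B Cc m₁ : ℝ} (hk : Tk κ (τ / ‖τ‖) b c₀ B Cc m₁) {ε m0 e1 : ℝ} (hε : 0 < ε)
    (hε1 : ε ≤ 1) (hm : 1 ≤ m0) (he : 0 ≤ e1) (hτ1 : ‖τ‖ * (1 + B) ≤ 1 / 8)
    (hs : ‖τ‖ * (10 * N + Real.log (2 * Cc * KN N / ‖τ‖ + KN N)) ≤ ε) {u : ℂ}
    (hu : u ∈ Bx (ch N c ℓ d) (ℓ / N)) {y0 y1 x0 x1 : ℝ} (hx0 : x0 = 0 ∨ x0 = 1)
    (hx1 : x1 = 0 ∨ x1 = 1)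
    (h : (x0 = 0 ∧ x1 = 0 ∧ y1 ≤ y0 + e1) ∨ y1 + sw b B * ‖τ‖ ≤ y0 + e1 ∨
      (¬ Bad F Λ (ε / ‖τ‖) (2 * Cc * KN N / ‖τ‖) (vt c ℓ) u ∧ x0 = 1 ∧ x1 = 1 ∧
        y0 = al Λ τ (vt c ℓ) u ∧ y1 = al Λ τ (vt (ch N c ℓ d) (ℓ / N)) u))
    {ζ : ℂ} {ν : ℝ} (hν : 0 ≤ ν) (hν1 : ν ≤ B) {H : ℂ → ℝ} (hH : ∀ z, 0 ≤ H z)
    (hH0 : ∀ z, Cc * ‖F (vt (ch N c ℓ d) (ℓ / N)) - F (vt c ℓ)‖ / (‖τ‖ * m0) ≤ ‖z‖ → H z = 0)
    (hH1 : ∀ z, 2 * ‖F (vt (ch N c ℓ d) (ℓ / N)) - F (vt c ℓ)‖ ≤ ‖z‖ →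
      Ph κ (τ / ‖τ‖) ‖τ‖ b (‖τ‖ * m0) ν (F (vt (ch N c ℓ d) (ℓ / N)) - F (vt c ℓ)) ζ z ≤ ‖τ‖ * H z) :
    Real.exp y1 * (1 - ‖τ‖ * b * x1 * κ ((F u - F (vt (ch N c ℓ d) (ℓ / N))) / ζ)) +
        ν * (Real.exp y0 * (1 - ‖τ‖ * b * x0 * κ ((F u - F (vt c ℓ)) /
          (τ / ‖τ‖ * (F (vt (ch N c ℓ d) (ℓ / N)) - F (vt c ℓ)) / (2 * (‖τ‖ * m0 : ℝ)))))) ≤
      (Real.exp (e1 + ‖τ‖ ^ 2 * m0) + ν) *
          (Real.exp y0 * (1 - ‖τ‖ * b * x0 * κ ((F u - F (vt c ℓ)) / ζ))) +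
        Real.exp (w0 Λ τ (vt c ℓ) + 2 * ε) * (‖τ‖ *
          (if ‖F u - F (vt c ℓ)‖ < 2 * KN N * rr F (vt c ℓ) then Bn N B
            else H (F u - F (vt c ℓ)))) := by
  obtain ⟨β, hβd⟩ : ∃ β : ℝ, β = ‖τ‖ * b := ⟨_, rfl⟩
  have hB := hk.hB
  have hb := hk.hb
  have hb1 := hk.hb1
  have hCc := hk.hCc
  have hN2 : (2 : ℝ) ≤ N := by exact_mod_cast hN
  have hδB : 0 ≤ ‖τ‖ * B := mul_nonneg hτ.le hB
  have hδ1 : ‖τ‖ ≤ 1 / 8 := by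
    have : ‖τ‖ * (1 + B) = ‖τ‖ + ‖τ‖ * B := by ring
    linarith
  have hβ0 : 0 ≤ β := by rw [hβd]; positivity
  have hβδ : β ≤ ‖τ‖ := by
    rw [hβd]
    exact mul_le_of_le_one_right hτ.le hb1
  have hβ8 : β ≤ 1 / 8 := hβδ.trans hδ1
  have hm0 : 0 ≤ ‖τ‖ ^ 2 * m0 := by positivity
  have hbd : ∀ (x : ℝ) (w : ℂ), (x = 0 ∨ x = 1) →
      1 - ‖τ‖ * b * x * κ w ≤ 1 + β ∧ 1 - β ≤ 1 - ‖τ‖ * b * x * κ w := by
    intro x w hx
    rw [← hβd]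
    have h1 := abs_le.1 (hk.bd w)
    rcases hx with rfl | rfl
    · constructor <;> linarith
    · constructor <;> nlinarith
  have hE1 : Real.exp e1 ≤ Real.exp (e1 + ‖τ‖ ^ 2 * m0) := Real.exp_le_exp.2 (by linarith)
  have hE2 : 1 ≤ Real.exp (e1 + ‖τ‖ ^ 2 * m0) := Real.one_le_exp (by linarith)
  have hE3 : Real.exp (‖τ‖ ^ 2 * m0) ≤ Real.exp (e1 + ‖τ‖ ^ 2 * m0) :=
    Real.exp_le_exp.2 (by linarith)
  have hBn : 0 ≤ Bn N B := by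
    rw [Bn]
    positivity
  have hT : 0 ≤ Real.exp (w0 Λ τ (vt c ℓ) + 2 * ε) * (‖τ‖ *
      (if ‖F u - F (vt c ℓ)‖ < 2 * KN N * rr F (vt c ℓ) then Bn N B
        else H (F u - F (vt c ℓ)))) := by
    refine mul_nonneg (Real.exp_pos _).le (mul_nonneg hτ.le ?_)
    split_ifs
    · exact hBn
    · exact hH _
  rcases h with ⟨rfl, rfl, hy⟩ | hy | ⟨hbad, rfl, rfl, hy0, hy1⟩
  · -- frozen
    have h1 : Real.exp y1 ≤ Real.exp y0 * Real.exp (e1 + ‖τ‖ ^ 2 * m0) := by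
      rw [← Real.exp_add]
      exact Real.exp_le_exp.2 (by linarith)
    simp only [mul_zero, zero_mul, sub_zero, mul_one]
    nlinarith
  · -- switch
    have h1 := Pt5_switch (x := (1 + B) * β) hβ0 hB rfl (by
        have : (1 + B) * β = ‖τ‖ * (1 + B) * b := by rw [hβd]; ring
        rw [this]
        exact (mul_le_of_le_one_right (by positivity) hb1).trans hτ1) hν hν1 he hE1 (by
        have : 8 * ((1 + B) * β) = sw b B * ‖τ‖ := by rw [hβd, sw]; ring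
        rw [this]
        exact hy) (hbd x1 ((F u - F (vt (ch N c ℓ d) (ℓ / N))) / ζ) hx1).1
      (hbd x0 ((F u - F (vt c ℓ)) / (τ / ‖τ‖ * (F (vt (ch N c ℓ d) (ℓ / N)) - F (vt c ℓ)) /
        (2 * (‖τ‖ * m0 : ℝ)))) hx0).1 (hbd x0 ((F u - F (vt c ℓ)) / ζ) hx0).2
    linarith
  · -- moving
    have hv : 0 < (vt c ℓ).re := by
      show 0 < 2 * ℓ
      positivity
    have hr := Pool.Agent.Helper26.G4.rr_pos hF hv
    have hK : 0 < KN N := Real.exp_pos _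
    have hK1 : 1 ≤ KN N := by
      rw [KN]
      exact Real.one_le_exp (by positivity)
    have hKr : 0 < KN N * rr F (vt c ℓ) := mul_pos hK hr
    have hmv := Pool.Agent.Helper26.G4.move_le hF hΛ hN hd hℓ hℓ1 hτ hu
    rw [← hy0, ← hy1] at hmv
    have hup : ‖F u - F (vt c ℓ)‖ ≤ 2 * Cc * KN N / ‖τ‖ * rr F (vt c ℓ) →
        Real.exp y0 ≤ Real.exp (w0 Λ τ (vt c ℓ) + 2 * ε) := by
      intro hz
      rw [norm_sub_rev] at hz
      have hw : |wd Λ (vt c ℓ) u| ≤ ε / ‖τ‖ := by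
        by_contra hw
        push Not at hw
        exact hbad ⟨hw, hz⟩
      rw [hy0]
      exact Real.exp_le_exp.2 (up5 hF hΛ hN hd hℓ hℓ1 hτ (by linarith) hε hCc hs hu hw hz)
    rcases lt_or_ge ‖F u - F (vt c ℓ)‖ (2 * KN N * rr F (vt c ℓ)) with hz | hz
    · -- near
      rw [if_pos hz]
      rw [Pool.Agent.Helper26.G4.Xh, if_pos hz] at hmv
      have hz' : ‖F u - F (vt c ℓ)‖ ≤ 2 * Cc * KN N / ‖τ‖ * rr F (vt c ℓ) := by
        refine hz.le.trans ?_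
        refine mul_le_mul_of_nonneg_right ?_ hr.le
        rw [le_div_iff₀ hτ]
        nlinarith
      have hlog : 0 ≤ Real.log (2 * Cc * KN N / ‖τ‖ + KN N) := by
        refine Real.log_nonneg ?_
        have : 0 ≤ 2 * Cc * KN N / ‖τ‖ := by positivity
        linarith
      have hn : ‖τ‖ * (10 * (N : ℝ)) ≤ 1 := by
        have := mul_nonneg hτ.le hlog
        rw [mul_add] at hs
        linarith
      have h1 := Pt5_near (y0 := y0) (y1 := y1) (n := (N : ℝ)) (δ := ‖τ‖) (by linarith) hτ.le hβ0 hβδ hβ8 hB hν hν1 hE2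
        (by linarith) hn (hbd 1 ((F u - F (vt (ch N c ℓ d) (ℓ / N))) / ζ) (Or.inr rfl)).1
        (hbd 1 ((F u - F (vt c ℓ)) / (τ / ‖τ‖ * (F (vt (ch N c ℓ d) (ℓ / N)) - F (vt c ℓ)) /
          (2 * (‖τ‖ * m0 : ℝ)))) (Or.inr rfl)).1 (hbd 1 ((F u - F (vt c ℓ)) / ζ) (Or.inr rfl)).2
      refine h1.trans (add_le_add le_rfl ?_)
      exact mul_le_mul_of_nonneg_right (hup hz') (mul_nonneg hτ.le hBn)
    · -- far
      rw [if_neg (not_lt.2 hz)]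
      rw [Pool.Agent.Helper26.G4.Xh, if_neg (not_lt.2 hz)] at hmv
      have hs1 : ‖F (vt (ch N c ℓ d) (ℓ / N)) - F (vt c ℓ)‖ ≤ KN N * rr F (vt c ℓ) :=
        Pool.Agent.Helper26.G4.disp_le hF hΛ hN hd hℓ hℓ1 (right_mem_segment ℝ _ _)
      have hs2 : 2 * ‖F (vt (ch N c ℓ d) (ℓ / N)) - F (vt c ℓ)‖ ≤ ‖F u - F (vt c ℓ)‖ := by
        linarith
      have hPh := hH1 _ hs2
      have h1 := Pt5_far (y0 := y0) (y1 := y1) (ν := ν) (X := ‖τ‖ * ((τ / ‖τ‖ * (F (vt (ch N c ℓ d) (ℓ / N)) -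
          F (vt c ℓ)) / (F u - F (vt c ℓ))).re + ‖F (vt (ch N c ℓ d) (ℓ / N)) - F (vt c ℓ)‖ ^ 2 /
          ‖F u - F (vt c ℓ)‖ ^ 2)) (A0 := 1 - ‖τ‖ * b * 1 * κ ((F u - F (vt c ℓ)) /
          (τ / ‖τ‖ * (F (vt (ch N c ℓ d) (ℓ / N)) - F (vt c ℓ)) / (2 * (‖τ‖ * m0 : ℝ))))) hE3
        (by linarith)
        (le_trans (by linarith) (hbd 1 ((F u - F (vt (ch N c ℓ d) (ℓ / N))) / ζ) (Or.inr rfl)).2)
        (le_trans (by linarith) (hbd 1 ((F u - F (vt c ℓ)) / ζ) (Or.inr rfl)).2)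
      refine h1.trans (add_le_add le_rfl ?_)
      have hrw : Real.exp (‖τ‖ * ((τ / ‖τ‖ * (F (vt (ch N c ℓ d) (ℓ / N)) -
          F (vt c ℓ)) / (F u - F (vt c ℓ))).re + ‖F (vt (ch N c ℓ d) (ℓ / N)) - F (vt c ℓ)‖ ^ 2 /
          ‖F u - F (vt c ℓ)‖ ^ 2)) * (1 - ‖τ‖ * b * 1 * κ ((F u - F (vt (ch N c ℓ d) (ℓ / N))) / ζ)) -
          Real.exp (‖τ‖ ^ 2 * m0) * (1 - ‖τ‖ * b * 1 * κ ((F u - F (vt c ℓ)) / ζ)) +
          ν * ((1 - ‖τ‖ * b * 1 * κ ((F u - F (vt c ℓ)) /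
          (τ / ‖τ‖ * (F (vt (ch N c ℓ d) (ℓ / N)) - F (vt c ℓ)) / (2 * (‖τ‖ * m0 : ℝ))))) -
          (1 - ‖τ‖ * b * 1 * κ ((F u - F (vt c ℓ)) / ζ))) =
          Ph κ (τ / ‖τ‖) ‖τ‖ b (‖τ‖ * m0) ν (F (vt (ch N c ℓ d) (ℓ / N)) - F (vt c ℓ)) ζ
            (F u - F (vt c ℓ)) := by
        have e1 : F u - F (vt c ℓ) - (F (vt (ch N c ℓ d) (ℓ / N)) - F (vt c ℓ)) =
            F u - F (vt (ch N c ℓ d) (ℓ / N)) := by ring
        have e2 : ‖τ‖ * (‖τ‖ * m0) = ‖τ‖ ^ 2 * m0 := by ring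
        rw [Ph, e1, e2, mul_one]
        ring
      rw [hrw]
      rcases (hH (F u - F (vt c ℓ))).eq_or_lt with hH' | hH'
      · rw [← hH', mul_zero] at hPh ⊢
        rw [mul_zero]
        exact mul_nonpos_of_nonneg_of_nonpos (Real.exp_pos _).le hPh
      · have hz1 : ‖F u - F (vt c ℓ)‖ < Cc * ‖F (vt (ch N c ℓ d) (ℓ / N)) - F (vt c ℓ)‖ /
            (‖τ‖ * m0) := by
          by_contra hcon
          push Not at hcon
          exact hH'.ne' (hH0 _ hcon)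
        have hz2 : ‖F u - F (vt c ℓ)‖ ≤ 2 * Cc * KN N / ‖τ‖ * rr F (vt c ℓ) := by
          refine hz1.le.trans ?_
          have e3 : 2 * Cc * KN N / ‖τ‖ * rr F (vt c ℓ) =
              2 * Cc * (KN N * rr F (vt c ℓ)) / ‖τ‖ := by ring
          rw [e3]
          refine div_le_div₀ (by positivity) ?_ hτ (le_mul_of_one_le_right hτ.le hm)
          have := mul_le_mul_of_nonneg_left hs1 (by linarith : 0 ≤ Cc)
          have h2 : 0 ≤ Cc * (KN N * rr F (vt c ℓ)) := by positivity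
          linarith
        calc Real.exp y0 * Ph κ (τ / ‖τ‖) ‖τ‖ b (‖τ‖ * m0) ν
              (F (vt (ch N c ℓ d) (ℓ / N)) - F (vt c ℓ)) ζ (F u - F (vt c ℓ)) ≤
              Real.exp y0 * (‖τ‖ * H (F u - F (vt c ℓ))) :=
              mul_le_mul_of_nonneg_left hPh (Real.exp_pos _).le
          _ ≤ Real.exp (w0 Λ τ (vt c ℓ) + 2 * ε) * (‖τ‖ * H (F u - F (vt c ℓ))) :=
              mul_le_mul_of_nonneg_right (hup hz2) (mul_nonneg hτ.le hH'.le)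

end Pool.Agent.Helper26.G5
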