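import Pool.Agent.Helper5.TR.Shape
import Pool.Agent.Helper26.G4.MainB
import Pool.Agent.Helper26.G5.Main5

/-!
# Projects G4, G5 (MP_16b0ee_an): the root

`near_ray`: the second order behaviour of the spectrum near the ray `t ≥ 2`.
-/

set_option autoImplicit false

namespace Pool.Agent.Helper26.G5

open Pool.Agent.Helper39.G4L (Low Upper)

theorem near_ray :
    ∃ p : ℝ → ℝ, Monotone p ∧ (∀ r : ℝ, p r < 1) ∧
      ∀ ε : ℝ, 0 < ε → ∃ d : ℝ, 0 < d ∧ ∀ (t : ℂ) (w : ℝ), w = max (2 - ‖t‖) 0 →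
        w < d → |t.arg| < d →
        Upper t (‖t‖ - 1 + p (|t.arg| / w) * w ^ 2 / 4 + ε * (w ^ 2 + t.arg ^ 2)) ∧
        ∀ s : ℝ, s < ‖t‖ - 1 → Low t s :=
  Pool.Agent.Helper5.TR.shape Pool.Agent.Helper26.G4.main4
    (fun _ he => by
      obtain ⟨c, d, hc, _, hd, h⟩ := main5_dir he
      exact ⟨c, hc, d, hd, h⟩)

end Pool.Agent.Helper26.G5
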