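import Pool.Agent.Helper26.G5.Pt5
import Pool.Agent.Helper26.G5.Fun5
import Pool.Agent.Helper26.G4.Cov

/-!
# G5-STEPINT: the integrated step

For every `ζ ≠ 0` take `ν, H` from `Tk.key` (`d = |τ|`, `m = |τ| m0`, `s = F v' - F v ≠ 0` by `Fn.ne`),
multiply `pt5` by `|F' u|²` and integrate over the child box (only the last term has to be measurable,
`Fn.cov_shift`; its integral is at most `π r² Bn + (1 - c₀) π |s|² / (4 m)`, the area of the disc and `∫ H`);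
`(F u - F v') / ζ = (z - s) / ζ`. This is the hypothesis of `inf_arg` (`j = ω s / (2 m) ≠ 0`).
-/

set_option autoImplicit false

namespace Pool.Agent.Helper26.G5

open MeasureTheory Set
open scoped Real
open Pool.Agent.Helper90.G2 (Bx Wn Fn ar ch Cen chi)
open Pool.Agent.Helper26.G4 (vt Br Lb wd al rr w0 Bad cn vk lv KN Sa Sc mm KK C9 Sg)

/-- the error function -/
noncomputable def StepInt5G (K δ r Bb : ℝ) (H : ℂ → ℝ) (z : ℂ) : ENNReal :=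
  ENNReal.ofReal (K * (δ * (if ‖z‖ < r then Bb else H z)))

theorem StepInt5_meas (K δ r Bb : ℝ) {H : ℂ → ℝ} (hH : Measurable H) :
    Measurable (StepInt5G K δ r Bb H) := by
  unfold StepInt5G
  have h1 : MeasurableSet {z : ℂ | ‖z‖ < r} := measurableSet_lt measurable_norm measurable_const
  exact (((Measurable.ite h1 measurable_const hH).const_mul _).const_mul _).ennreal_ofReal

theorem StepInt5_int {K δ r Bb c₀ m s : ℝ} {H : ℂ → ℝ} (hK : 0 ≤ K) (hδ : 0 ≤ δ) (hr : 0 < r)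
    (hB : 0 ≤ Bb) (hHi : Integrable H) (hH0 : ∀ z, 0 ≤ H z)
    (hI : ∫ z, H z ≤ (1 - c₀) * (π * s ^ 2 / (4 * m))) :
    ∫⁻ z : ℂ, StepInt5G K δ r Bb H z ≤ ENNReal.ofReal (K * (δ * Er5 c₀ m s r Bb)) := by
  have hKδ : 0 ≤ K * δ := mul_nonneg hK hδ
  have h1 : ∀ z : ℂ, StepInt5G K δ r Bb H z ≤ ENNReal.ofReal (K * δ) *
      ((Metric.ball (0 : ℂ) r).indicator (fun _ => ENNReal.ofReal Bb) z + ENNReal.ofReal (H z)) := by
    intro z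
    unfold StepInt5G
    rw [← mul_assoc, ENNReal.ofReal_mul hKδ]
    gcongr
    by_cases hz : ‖z‖ < r
    · rw [if_pos hz, Set.indicator_of_mem (by simpa using hz)]
      exact le_self_add
    · rw [if_neg hz, Set.indicator_of_notMem (by simpa using hz), zero_add]
  have h2 : ∫⁻ z : ℂ, ((Metric.ball (0 : ℂ) r).indicator (fun _ => ENNReal.ofReal Bb) z +
      ENNReal.ofReal (H z)) ≤ ENNReal.ofReal (Er5 c₀ m s r Bb) := by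
    rw [lintegral_add_left (measurable_const.indicator Metric.isOpen_ball.measurableSet),
      lintegral_indicator Metric.isOpen_ball.measurableSet, setLIntegral_const, Complex.volume_ball,
      ← ofReal_integral_eq_lintegral_ofReal hHi (Filter.Eventually.of_forall hH0)]
    have h3 : ENNReal.ofReal Bb * (ENNReal.ofReal r ^ 2 * (NNReal.pi : ENNReal)) =
        ENNReal.ofReal (π * r ^ 2 * Bb) := by
      have h4 : (NNReal.pi : ENNReal) = ENNReal.ofReal π := by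
        rw [ENNReal.ofReal, ← NNReal.coe_real_pi, Real.toNNReal_coe]
      rw [h4, ← ENNReal.ofReal_pow hr.le, ← ENNReal.ofReal_mul (by positivity),
        ← ENNReal.ofReal_mul hB]
      congr 1
      ring
    rw [h3, ← ENNReal.ofReal_add (by positivity) (integral_nonneg hH0)]
    refine ENNReal.ofReal_le_ofReal ?_
    unfold Er5
    linarith
  calc ∫⁻ z : ℂ, StepInt5G K δ r Bb H z
      ≤ ∫⁻ z : ℂ, ENNReal.ofReal (K * δ) *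
        ((Metric.ball (0 : ℂ) r).indicator (fun _ => ENNReal.ofReal Bb) z +
          ENNReal.ofReal (H z)) := lintegral_mono h1
    _ = ENNReal.ofReal (K * δ) * ∫⁻ z : ℂ, ((Metric.ball (0 : ℂ) r).indicator
        (fun _ => ENNReal.ofReal Bb) z + ENNReal.ofReal (H z)) :=
        lintegral_const_mul' _ _ ENNReal.ofReal_ne_top
    _ ≤ ENNReal.ofReal (K * δ) * ENNReal.ofReal (Er5 c₀ m s r Bb) := by gcongr
    _ = ENNReal.ofReal (K * (δ * Er5 c₀ m s r Bb)) := by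
        rw [← ENNReal.ofReal_mul hKδ, mul_assoc]

/-- the factor of the density is nonnegative -/
theorem StepInt5_fac {β x κ : ℝ} (hβ : 0 ≤ β) (hβ1 : β ≤ 1) (hx : x = 0 ∨ x = 1) (hκ : |κ| ≤ 1) :
    0 ≤ 1 - β * x * κ := by
  have h := abs_le.1 hκ
  rcases hx with rfl | rfl
  · norm_num
  · have h1 : β * κ ≤ β * 1 := mul_le_mul_of_nonneg_left h.2 hβ
    rw [mul_one]
    linarith

/-- the pointwise inequality in extended numbers -/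
theorem StepInt5_alg {D p0 p1 p2 q ν E0 : ℝ} (hD : 0 ≤ D) (h0 : 0 ≤ p0) (h1 : 0 ≤ p1) (h2 : 0 ≤ p2)
    (hq : 0 ≤ q) (hν : 0 ≤ ν) (hE : 0 ≤ E0) (h : p1 + ν * p2 ≤ (E0 + ν) * p0 + q) :
    ENNReal.ofReal (D * p1) + ENNReal.ofReal ν * ENNReal.ofReal (D * p2) ≤
      ENNReal.ofReal (E0 + ν) * ENNReal.ofReal (D * p0) + ENNReal.ofReal D * ENNReal.ofReal q := by
  rw [← ENNReal.ofReal_mul hν, ← ENNReal.ofReal_mul (by positivity), ← ENNReal.ofReal_mul hD,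
    ← ENNReal.ofReal_add (by positivity) (by positivity),
    ← ENNReal.ofReal_add (by positivity) (by positivity)]
  refine ENNReal.ofReal_le_ofReal ?_
  have h3 := mul_le_mul_of_nonneg_left h hD
  nlinarith [h3]

theorem step_int5 {F : ℂ → ℂ} {A : ℝ} (hF : Fn F A) {Λ : ℂ → ℂ → ℂ} (hΛ : Br F Λ) {N d : ℕ}
    (hN : 2 ≤ N) (hd : d < N) {c ℓ : ℝ} (hℓ : 0 < ℓ) (hℓ1 : ℓ ≤ 1) {τ : ℂ} (hτ : 0 < ‖τ‖)
    {κ : ℂ → ℝ} {b c₀ B Cc m₁ : ℝ} (hk : Tk κ (τ / ‖τ‖) b c₀ B Cc m₁) {ε m0 e1 : ℝ} (hε : 0 < ε)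
    (hε1 : ε ≤ 1) (hm : 1 ≤ m0) (he : 0 ≤ e1) (hτ1 : ‖τ‖ * (1 + B) ≤ 1 / 8) (hτ2 : ‖τ‖ ≤ m₁)
    (hm1 : ‖τ‖ * m0 ≤ m₁)
    (hs : ‖τ‖ * (10 * N + Real.log (2 * Cc * KN N / ‖τ‖ + KN N)) ≤ ε) (y χ : ℂ → ℕ → ℝ) (k : ℕ)
    (hχ : ∀ u ∈ Bx (ch N c ℓ d) (ℓ / N), ∀ j, χ u j = 0 ∨ χ u j = 1)
    (h : ∀ u ∈ Bx (ch N c ℓ d) (ℓ / N), (χ u k = 0 ∧ χ u (k + 1) = 0 ∧ y u (k + 1) ≤ y u k + e1) ∨
      y u (k + 1) + sw b B * ‖τ‖ ≤ y u k + e1 ∨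
      (¬ Bad F Λ (ε / ‖τ‖) (2 * Cc * KN N / ‖τ‖) (vt c ℓ) u ∧ χ u k = 1 ∧ χ u (k + 1) = 1 ∧
        y u k = al Λ τ (vt c ℓ) u ∧ y u (k + 1) = al Λ τ (vt (ch N c ℓ d) (ℓ / N)) u))
    (hfin : V5 F y χ κ (‖τ‖ * b) k (vt c ℓ) (Bx (ch N c ℓ d) (ℓ / N)) < ⊤) :
    V5 F y χ κ (‖τ‖ * b) (k + 1) (vt (ch N c ℓ d) (ℓ / N)) (Bx (ch N c ℓ d) (ℓ / N)) ≤
      ENNReal.ofReal (Real.exp (e1 + ‖τ‖ ^ 2 * m0)) *
        V5 F y χ κ (‖τ‖ * b) k (vt c ℓ) (Bx (ch N c ℓ d) (ℓ / N)) +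
      ENNReal.ofReal (Real.exp (w0 Λ τ (vt c ℓ) + 2 * ε) * (‖τ‖ * Er5 c₀ (‖τ‖ * m0)
        ‖F (vt (ch N c ℓ d) (ℓ / N)) - F (vt c ℓ)‖ (2 * KN N * rr F (vt c ℓ)) (Bn N B))) := by
  have hπ := Real.pi_gt_three
  obtain ⟨hp, hle⟩ := Pool.Agent.Helper26.G4.seg_div hN hℓ
  have hv : 0 < (vt c ℓ).re := by
    show 0 < 2 * ℓ
    positivity
  have hv' : 0 < (vt (ch N c ℓ d) (ℓ / N)).re := by
    show 0 < 2 * (ℓ / N)
    positivity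
  have hR := Pool.Agent.Helper26.G4.rr_pos hF hv
  have hKN : 0 < KN N := Real.exp_pos _
  have hr : 0 < 2 * KN N * rr F (vt c ℓ) := by positivity
  have hBn : 0 ≤ Bn N B := by
    have := hk.hB
    unfold Bn
    positivity
  have hm' : 0 < ‖τ‖ * m0 := mul_pos hτ (by linarith)
  have hb0 := hk.hb
  have hβ : 0 ≤ ‖τ‖ * b := by positivity
  have hτ0 : τ ≠ 0 := norm_pos_iff.1 hτ
  have hβ1 : ‖τ‖ * b ≤ 1 := by
    have h1 : ‖τ‖ * b ≤ ‖τ‖ * (1 + B) :=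
      mul_le_mul_of_nonneg_left (by linarith [hk.hb1, hk.hB]) hτ.le
    linarith
  -- the displacement
  have hne : F (vt (ch N c ℓ d) (ℓ / N)) ≠ F (vt c ℓ) := by
    refine Pool.Agent.Helper26.G4.Fn.ne hF hv' hv ?_ ?_
    · have h1 := Pool.Agent.Helper26.G4.seg_ch hN hd (c := c) hℓ
      show |ch N c ℓ d - c| < 2 * π
      linarith
    · intro h1
      have h2 := congrArg Complex.re h1
      have h3 : 2 * (ℓ / N) = 2 * ℓ := h2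
      linarith
  obtain ⟨s, hs'⟩ : ∃ s : ℂ, s = F (vt (ch N c ℓ d) (ℓ / N)) - F (vt c ℓ) := ⟨_, rfl⟩
  have hs0 : s ≠ 0 := by
    rw [hs']
    exact sub_ne_zero.2 hne
  obtain ⟨Q, hQ⟩ : ∃ Q : Set ℂ, Q = Bx (ch N c ℓ d) (ℓ / N) := ⟨_, rfl⟩
  have hQm : MeasurableSet Q := by
    rw [hQ]
    exact Pool.Agent.Helper90.G2.meas_bx _ _
  have hQs : Q ⊆ {u | 0 < u.re ∧ |u.im - ch N c ℓ d| < π} := by
    rw [hQ]
    intro u hu
    exact ⟨hu.1, by linarith [hu.2.2]⟩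
  have hFc : ContinuousOn F Q := hF.diff.continuousOn.mono fun u hu => (hQs hu).1
  rw [← hQ] at h hfin hχ ⊢
  have : Nonempty {ζ : ℂ // ζ ≠ 0} := ⟨⟨1, one_ne_zero⟩⟩
  unfold V5 at hfin ⊢
  refine inf_arg hk.hB (Real.exp_pos _).le hfin ?_
  rintro ⟨ζ, hζ⟩
  obtain ⟨ν, hν, hνB, H, hHm, hHi, hH0, hHz, hHP, hHI⟩ :=
    hk.key ‖τ‖ (‖τ‖ * m0) hτ hτ2 hm' hm1 s ζ hs0 hζ
  have hj : τ / ‖τ‖ * s / (2 * (‖τ‖ * m0 : ℝ)) ≠ 0 := by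
    have h1 : ((‖τ‖ * m0 : ℝ) : ℂ) ≠ 0 := by exact_mod_cast hm'.ne'
    have h2 : ((‖τ‖ : ℝ) : ℂ) ≠ 0 := by exact_mod_cast hτ.ne'
    have h3 : (2 : ℂ) * ((‖τ‖ * m0 : ℝ) : ℂ) ≠ 0 := mul_ne_zero two_ne_zero h1
    exact div_ne_zero (mul_ne_zero (div_ne_zero hτ0 h2) hs0) h3
  refine ⟨ν, hν, hνB, ⟨_, hj⟩, ?_⟩
  obtain ⟨G, hG⟩ : ∃ G : ℂ → ENNReal, G = StepInt5G (Real.exp (w0 Λ τ (vt c ℓ) + 2 * ε)) ‖τ‖
    (2 * KN N * rr F (vt c ℓ)) (Bn N B) H := ⟨_, rfl⟩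
  have hGm : Measurable G := by
    rw [hG]
    exact StepInt5_meas _ _ _ _ hHm
  -- pointwise
  have hpt : ∀ u ∈ Q, Dn F y χ κ (‖τ‖ * b) (k + 1) (F (vt (ch N c ℓ d) (ℓ / N))) ζ u +
      ENNReal.ofReal ν * Dn F y χ κ (‖τ‖ * b) k (F (vt c ℓ))
        (τ / ‖τ‖ * s / (2 * (‖τ‖ * m0 : ℝ))) u ≤
      ENNReal.ofReal (Real.exp (e1 + ‖τ‖ ^ 2 * m0) + ν) *
        Dn F y χ κ (‖τ‖ * b) k (F (vt c ℓ)) ζ u +
      ENNReal.ofReal (‖deriv F u‖ ^ 2) * G (F u - F (vt c ℓ)) := by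
    intro u hu
    have hx0 := hχ u hu k
    have hx1 := hχ u hu (k + 1)
    have h5 := pt5 hF hΛ hN hd (c := c) hℓ hℓ1 hτ hk hε hε1 hm he hτ1 hs (u := u)
      (by rw [← hQ]; exact hu) hx0 hx1 (h u hu) (ζ := ζ) hν hνB hH0
      (by rw [← hs']; exact hHz) (by rw [← hs']; exact hHP)
    rw [← hs'] at h5
    rw [hG]
    unfold StepInt5G Dn
    refine StepInt5_alg (by positivity) ?_ ?_ ?_ ?_ hν (Real.exp_pos _).le h5
    · exact mul_nonneg (Real.exp_pos _).le (StepInt5_fac hβ hβ1 hx0 (hk.bd _))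
    · exact mul_nonneg (Real.exp_pos _).le (StepInt5_fac hβ hβ1 hx1 (hk.bd _))
    · exact mul_nonneg (Real.exp_pos _).le (StepInt5_fac hβ hβ1 hx0 (hk.bd _))
    · refine mul_nonneg (Real.exp_pos _).le (mul_nonneg hτ.le ?_)
      split_ifs
      · exact hBn
      · exact hH0 _
  have hme : AEMeasurable (fun u : ℂ => ENNReal.ofReal (‖deriv F u‖ ^ 2) * G (F u - F (vt c ℓ)))
      (volume.restrict Q) := by
    refine AEMeasurable.mul ?_ ?_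
    · exact (((measurable_deriv F).norm.pow_const 2).ennreal_ofReal).aemeasurable
    · exact hGm.comp_aemeasurable ((hFc.aemeasurable hQm).sub_const _)
  have hI : ∫⁻ u in Q, ENNReal.ofReal (‖deriv F u‖ ^ 2) * G (F u - F (vt c ℓ)) ≤
      ENNReal.ofReal (Real.exp (w0 Λ τ (vt c ℓ) + 2 * ε) * (‖τ‖ * Er5 c₀ (‖τ‖ * m0)
        ‖F (vt (ch N c ℓ d) (ℓ / N)) - F (vt c ℓ)‖ (2 * KN N * rr F (vt c ℓ)) (Bn N B))) := by
    refine (Pool.Agent.Helper26.G4.Fn.cov_shift hF hQm hQs hGm (F (vt c ℓ))).trans ?_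
    rw [hG, ← hs']
    exact StepInt5_int (Real.exp_pos _).le hτ.le hr hBn hHi hH0 hHI
  calc (∫⁻ u in Q, Dn F y χ κ (‖τ‖ * b) (k + 1) (F (vt (ch N c ℓ d) (ℓ / N))) ζ u) +
      ENNReal.ofReal ν * ∫⁻ u in Q, Dn F y χ κ (‖τ‖ * b) k (F (vt c ℓ))
        (τ / ‖τ‖ * s / (2 * (‖τ‖ * m0 : ℝ))) u
      = (∫⁻ u in Q, Dn F y χ κ (‖τ‖ * b) (k + 1) (F (vt (ch N c ℓ d) (ℓ / N))) ζ u) +
      ∫⁻ u in Q, ENNReal.ofReal ν * Dn F y χ κ (‖τ‖ * b) k (F (vt c ℓ))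
        (τ / ‖τ‖ * s / (2 * (‖τ‖ * m0 : ℝ))) u := by
        rw [lintegral_const_mul' _ _ ENNReal.ofReal_ne_top]
    _ ≤ ∫⁻ u in Q, (Dn F y χ κ (‖τ‖ * b) (k + 1) (F (vt (ch N c ℓ d) (ℓ / N))) ζ u +
      ENNReal.ofReal ν * Dn F y χ κ (‖τ‖ * b) k (F (vt c ℓ))
        (τ / ‖τ‖ * s / (2 * (‖τ‖ * m0 : ℝ))) u) := le_lintegral_add _ _
    _ ≤ ∫⁻ u in Q, (ENNReal.ofReal (Real.exp (e1 + ‖τ‖ ^ 2 * m0) + ν) *
        Dn F y χ κ (‖τ‖ * b) k (F (vt c ℓ)) ζ u +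
      ENNReal.ofReal (‖deriv F u‖ ^ 2) * G (F u - F (vt c ℓ))) := setLIntegral_mono' hQm hpt
    _ = ENNReal.ofReal (Real.exp (e1 + ‖τ‖ ^ 2 * m0) + ν) *
        (∫⁻ u in Q, Dn F y χ κ (‖τ‖ * b) k (F (vt c ℓ)) ζ u) +
      ∫⁻ u in Q, ENNReal.ofReal (‖deriv F u‖ ^ 2) * G (F u - F (vt c ℓ)) := by
        rw [lintegral_add_right' _ hme, lintegral_const_mul' _ _ ENNReal.ofReal_ne_top]
    _ ≤ _ := by gcongr

end Pool.Agent.Helper26.G5
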