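import Pool.Agent.Helper26.G5.Defs5
import Pool.Agent.Helper26.G4.Seg
import Pool.Agent.Helper26.G4.Up
import Pool.Agent.Helper90.G2.Kids

/-!
# G5-UP: the old weight of a point which is close and does not wind much

As `Pool.Agent.Helper26.G4.up_le`, for `v` itself: `ζ = Lb Λ v u - (log (re v) + Λ v v)`,
`re ζ = log (|F v - F u| / rr F v)`, `im ζ = wd Λ v u`; `|F v - F u| ≥ |F' v| ℓ / 4 = rr F v / 8` (`koebe4`,
`ρ = ℓ`: `re u < ℓ / N`, so `|v - u| ≥ ℓ`).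
-/

set_option autoImplicit false

namespace Pool.Agent.Helper26.G5

open MeasureTheory Set
open scoped Real
open Pool.Agent.Helper90.G2 (Bx Wn Fn ar ch Cen chi)
open Pool.Agent.Helper26.G4 (vt Br Lb wd al rr w0 Bad cn vk lv KN Sa Sc mm KK C9 Sg)

theorem up5 {F : ℂ → ℂ} {A : ℝ} (hF : Fn F A) {Λ : ℂ → ℂ → ℂ} (hΛ : Br F Λ) {N d : ℕ}
    (hN : 2 ≤ N) (hd : d < N) {c ℓ : ℝ} (hℓ : 0 < ℓ) (hℓ1 : ℓ ≤ 1) {τ : ℂ} (hτ : 0 < ‖τ‖)
    (hτ1 : ‖τ‖ ≤ 1) {ε Cc : ℝ} (hε : 0 < ε) (hCc : 1 ≤ Cc)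
    (hs : ‖τ‖ * (10 * N + Real.log (2 * Cc * KN N / ‖τ‖ + KN N)) ≤ ε) {u : ℂ}
    (hu : u ∈ Bx (ch N c ℓ d) (ℓ / N)) (hw : |wd Λ (vt c ℓ) u| ≤ ε / ‖τ‖)
    (hz : ‖F (vt c ℓ) - F u‖ ≤ 2 * Cc * KN N / ‖τ‖ * rr F (vt c ℓ)) :
    al Λ τ (vt c ℓ) u ≤ w0 Λ τ (vt c ℓ) + 2 * ε := by
  have hN2 : (2 : ℝ) ≤ N := by exact_mod_cast hN
  have hN0 : (0 : ℝ) < N := by linarith
  obtain ⟨hu0, hu1, hu2⟩ := Pool.Agent.Helper90.G2.bx_child_sub hℓ hN hd hu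
  have hre : (vt c ℓ).re = 2 * ℓ := rfl
  have him : (vt c ℓ).im = c := rfl
  have hpi := Real.pi_gt_three
  have hv : 0 < (vt c ℓ).re := by rw [hre]; positivity
  have hK : 0 < KN N := Real.exp_pos _
  have hK8 : 8 ≤ KN N := by
    have h1 := Real.add_one_le_exp (40 * (N : ℝ))
    rw [KN]
    linarith
  have hK2 : 0 ≤ 2 * Cc * KN N / ‖τ‖ := by positivity
  have hr := Pool.Agent.Helper26.G4.rr_pos hF hv
  have him1 : |(vt c ℓ).im - u.im| < ℓ / 2 := by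
    rw [him, abs_sub_comm]
    exact hu2
  -- the lower bound of the distance
  have h1 : rr F (vt c ℓ) ≤ 8 * ‖F (vt c ℓ) - F u‖ := by
    have h2 := Pool.Agent.Helper26.G4.Fn.koebe4 hF (v := vt c ℓ) (u := u) (ρ := ℓ) hℓ hu0
      (by rw [hre]; linarith) (by linarith)
      (by
        have h3 := Complex.re_le_norm (vt c ℓ - u)
        rw [Complex.sub_re, hre] at h3
        linarith)
      (by linarith)
    rw [rr, hre]
    linarith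
  have h2 : ‖F (vt c ℓ) - F u‖ ≤ (2 * Cc * KN N / ‖τ‖ + KN N) * rr F (vt c ℓ) := by
    have h3 := mul_pos hK hr
    linarith
  have h3 := Pool.Agent.Helper26.G4.Up_re hF hΛ (v := vt c ℓ) (v' := vt c ℓ) (u := u) hv hu0
    (by rw [hre]; linarith) (by linarith) (by linarith) h1 h2 (by linarith)
  have h4 : |(Lb Λ (vt c ℓ) u - (Real.log (vt c ℓ).re + Λ (vt c ℓ) (vt c ℓ))).im| ≤
      ε / ‖τ‖ := by
    have h5 : (Lb Λ (vt c ℓ) u - (Real.log (vt c ℓ).re + Λ (vt c ℓ) (vt c ℓ))).im =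
        wd Λ (vt c ℓ) u := by
      rw [wd, Complex.sub_im, Complex.add_im, Complex.ofReal_im, Complex.sub_im]
      ring
    rw [h5]
    exact hw
  have h0 := Pool.Agent.Helper26.G4.Up_al Λ τ (vt c ℓ) (vt c ℓ) u
  have h5 := mul_le_mul_of_nonneg_left (add_le_add h3 h4) hτ.le
  have h6 : ‖τ‖ * (ε / ‖τ‖) = ε := mul_div_cancel₀ ε hτ.ne'
  have h7 : ‖τ‖ * (Real.log (2 * Cc * KN N / ‖τ‖ + KN N) + ε / ‖τ‖) =
      ‖τ‖ * (10 * N + Real.log (2 * Cc * KN N / ‖τ‖ + KN N)) - ‖τ‖ * (10 * N) +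
        ‖τ‖ * (ε / ‖τ‖) := by ring
  have h8 : 0 ≤ ‖τ‖ * (10 * N) := by positivity
  rw [h7, h6] at h5
  linarith

end Pool.Agent.Helper26.G5
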