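import Pool.Agent.Helper26.G5.Kids5
import Pool.Agent.Helper26.G5.StepInt5
import Pool.Agent.Helper26.G5.Er5B
import Pool.Agent.Helper26.G4.Disp
import Pool.Agent.Helper26.G4.WindowB

/-!
# G5-WINDOW: the window inequality for one node

Copy of `Pool.Agent.Helper26.G4.window4` with `V5` instead of the integrals: `v = V5 k (vt c ℓ) (Bx c ℓ)`,
`w = V5 k (vt c ℓ) (Wn c ℓ (1/N))`, `Vp e = V5 k (vt c ℓ) (child e)`, `V e = V5 (k+1) (vt child) (child)`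
(`Vn_child`), `V5_add` for (h1), `step_int5` with `m0 = KK`, `mm5 c₀ (Sc κ N) ε`, `mm5 c₀ (Sa N) ε`
(`≥ 1`, `sizes`: `Sc ≥ 55000`, `c₀ ≤ 1/2`), `er5_KK`, `er5_mm`, `w_low5`; `β = |τ| b ≤ ε / 4`.
`mm5 ≤ mm`, so `mm_Sa` applies.
-/

set_option autoImplicit false

namespace Pool.Agent.Helper26.G5

open MeasureTheory Set
open scoped Real
open Pool.Agent.Helper90.G2 (Bx Wn Fn ar ch Cen chi)
open Pool.Agent.Helper26.G4 (vt Br Lb wd al rr w0 Bad cn vk lv KN Sa Sc mm KK C9 Sg)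

/-- sizes of the constants -/
theorem Window5_two {N : ℕ} {κ ε : ℝ} (hκ : 0 < κ) (hκ1 : κ ≤ 1 / 4)
    (hε : 0 < ε) (hε1 : ε ≤ 1 / 20) : 2 ≤ mm (Sa N) ε ∧ 2 ≤ mm (Sc κ N) ε := by
  have hπ := Real.pi_gt_three
  have hl : 0 ≤ Real.log N := Real.log_natCast_nonneg N
  have hSc : 2 ≤ Sc κ N := by
    unfold Sc Pool.Agent.Helper90.G2.sS
    have h1 : 0 ≤ √(Real.log N / (π - 2 * κ)) := Real.sqrt_nonneg _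
    have h2 : 0 ≤ Real.log (2 / κ) := by
      apply Real.log_nonneg
      rw [le_div_iff₀ hκ]
      linarith
    linarith
  have hSa : 2 ≤ Sa N := by
    have h : (1 : ℝ) ≤ √(1 + Real.log N) := by
      rw [Real.one_le_sqrt]
      linarith
    unfold Sa
    linarith
  have hmm : ∀ S : ℝ, 2 ≤ S → 2 ≤ mm S ε := by
    intro S hS
    unfold mm
    rw [le_div_iff₀ (by linarith)]
    have : (4 : ℝ) ≤ S ^ 2 := by nlinarith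
    nlinarith
  exact ⟨hmm _ hSa, hmm _ hSc⟩

/-- `mm5` is at least `1` and at most `mm` -/
theorem Window5_mm5 {c₀ S ε : ℝ} (hc : 0 ≤ c₀) (hc1 : c₀ ≤ 1 / 2) (h : 2 ≤ mm S ε) :
    1 ≤ mm5 c₀ S ε ∧ mm5 c₀ S ε ≤ mm S ε := by
  unfold mm5
  constructor <;> nlinarith

/-- the hypothesis of `step_int5` -/
theorem Window5_fz {F : ℂ → ℂ} {Λ : ℂ → ℂ → ℂ} {N M : ℕ} (hNM : N = 2 ^ M) (hN : 2 ≤ N)
    {ξ ε b B Cc : ℝ} {τ : ℂ} {y χ : ℂ → ℕ → ℝ} (hy : Yf5 F Λ M ξ ε b B Cc τ y χ) {k d : ℕ}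
    (hd : d < N ^ k) {c ℓ : ℝ} (hc : c = ch (N ^ k) ξ 1 d) (hℓ : ℓ = 1 / (N : ℝ) ^ k) {e : ℕ}
    (he : e < N) :
    ∀ u ∈ Bx (ch N c ℓ e) (ℓ / N),
      (χ u k = 0 ∧ χ u (k + 1) = 0 ∧ y u (k + 1) ≤ y u k + ε * ‖τ‖ ^ 2 * M) ∨
      y u (k + 1) + sw b B * ‖τ‖ ≤ y u k + ε * ‖τ‖ ^ 2 * M ∨
      (¬ Bad F Λ (ε / ‖τ‖) (2 * Cc * KN N / ‖τ‖) (vt c ℓ) u ∧ χ u k = 1 ∧ χ u (k + 1) = 1 ∧
        y u k = al Λ τ (vt c ℓ) u ∧ y u (k + 1) = al Λ τ (vt (ch N c ℓ e) (ℓ / N)) u) := by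
  intro u hu
  have hp := Pool.Agent.Helper26.G4.Levels_pow hN k
  have hℓ0 : 0 < ℓ := by
    rw [hℓ]
    exact one_div_pos.2 hp
  have h1 : 1 / (N : ℝ) ^ (k + 1) = ℓ / N := by
    rw [hℓ, pow_succ, div_div]
  have h2 : ch (N ^ (k + 1)) ξ 1 (N * d + e) = ch N c ℓ e := by
    rw [Pool.Agent.Helper26.G4.ch_child hN, ← hc, ← hℓ]
  have huc : u ∈ Bx (ch (N ^ (k + 1)) ξ 1 (N * d + e)) (1 / (N : ℝ) ^ (k + 1)) := by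
    rw [h1, h2]
    exact hu
  have hup : u ∈ Bx (ch (N ^ k) ξ 1 d) (1 / (N : ℝ) ^ k) := by
    rw [← hc, ← hℓ]
    exact Pool.Agent.Helper90.G2.bx_child_sub hℓ0 hN he hu
  have hu1 := Pool.Agent.Helper26.G4.bx_child hN hd hup
  have hlv : k < lv N u := by
    refine Pool.Agent.Helper26.G4.lv_lt hN huc.1 ?_
    exact huc.2.1
  have hvk : vk N ξ k u = vt c ℓ := by
    rw [Pool.Agent.Helper26.G4.vk_eq hN hup, ← hc, ← hℓ]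
  have hvk1 : vk N ξ (k + 1) u = vt (ch N c ℓ e) (ℓ / N) := by
    rw [Pool.Agent.Helper26.G4.vk_eq hN huc, h1, h2]
  have hz := hy u hu1
  rw [← hNM] at hz
  have h3 := hz.step k hlv
  simp only [hvk, hvk1] at h3
  exact h3

/-- one child, any of the constants `m0` -/
theorem Window5_kid {F : ℂ → ℂ} {A : ℝ} (hF : Fn F A) {Λ : ℂ → ℂ → ℂ} (hΛ : Br F Λ) {M : ℕ}
    (hM : 1 ≤ M) {κt : ℂ → ℝ} {b c₀ B Cc m₁ Ca κ ε : ℝ} {τ : ℂ}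
    (hk : Tk κt (τ / ‖τ‖) b c₀ B Cc m₁) (hκ : 0 < κ) (hκ1 : κ ≤ 1 / 4) (hε : 0 < ε)
    (hε1 : ε ≤ 1 / 20) (hS : Sm5 Ca b c₀ B Cc m₁ M κ ε ‖τ‖) {ξ : ℝ} {y χ : ℂ → ℕ → ℝ}
    (hy : Yf5 F Λ M ξ ε b B Cc τ y χ) {k d : ℕ} (hd : d < (2 ^ M) ^ k) {c ℓ : ℝ}
    (hc : c = ch ((2 ^ M) ^ k) ξ 1 d) (hℓ : ℓ = 1 / ((2 ^ M : ℕ) : ℝ) ^ k) {e : ℕ}
    (he : e < 2 ^ M) {m0 β : ℝ} (hm : 1 ≤ m0) (hm1 : ‖τ‖ * m0 ≤ m₁) (hβ : 0 ≤ β)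
    (hw : V5 F y χ κt (‖τ‖ * b) k (vt c ℓ) (Wn c ℓ (1 / ((2 ^ M : ℕ) : ℝ))) < ⊤)
    (hVp : V5 F y χ κt (‖τ‖ * b) k (vt c ℓ)
      (Bx (ch (2 ^ M) c ℓ e) (ℓ / ((2 ^ M : ℕ) : ℝ))) < ⊤)
    (hEr : Real.exp (2 * ε) * (‖τ‖ * Er5 c₀ (‖τ‖ * m0)
        ‖F (vt (ch (2 ^ M) c ℓ e) (ℓ / ((2 ^ M : ℕ) : ℝ))) - F (vt c ℓ)‖
        (2 * KN (2 ^ M) * rr F (vt c ℓ)) (Bn (2 ^ M) B)) ≤
      β * ((1 - ‖τ‖ * b) * (ar F (Wn c ℓ (1 / ((2 ^ M : ℕ) : ℝ))) *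
        Real.exp (-(‖τ‖ * KN (2 ^ M)))))) :
    Vn F y χ κt (‖τ‖ * b) (2 ^ M) ξ (k + 1) (2 ^ M * d + e) < ⊤ ∧
    (Vn F y χ κt (‖τ‖ * b) (2 ^ M) ξ (k + 1) (2 ^ M * d + e)).toReal ≤
      Real.exp (ε * ‖τ‖ ^ 2 * M + ‖τ‖ ^ 2 * m0) *
        (V5 F y χ κt (‖τ‖ * b) k (vt c ℓ)
          (Bx (ch (2 ^ M) c ℓ e) (ℓ / ((2 ^ M : ℕ) : ℝ)))).toReal +
      β * (V5 F y χ κt (‖τ‖ * b) k (vt c ℓ) (Wn c ℓ (1 / ((2 ^ M : ℕ) : ℝ)))).toReal := by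
  have hN := Pool.Agent.Helper26.G4.WindowB_N hM
  have hp := Pool.Agent.Helper26.G4.Levels_pow hN k
  have hℓ0 : 0 < ℓ := by
    rw [hℓ]
    exact one_div_pos.2 hp
  have hℓ1 : ℓ ≤ 1 := by
    rw [hℓ]
    have := Pool.Agent.Helper26.G4.Levels_anti hN (Nat.zero_le k)
    rwa [pow_zero, div_one] at this
  have hτ := hS.pos
  obtain ⟨-, -, hKK, -, -, -⟩ := Pool.Agent.Helper26.G4.sizes hN hκ hκ1 hε hε1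
  obtain ⟨hmSa, hmSc⟩ := Window5_two (N := 2 ^ M) hκ hκ1 hε hε1
  have hτ2 : ‖τ‖ ≤ m₁ := by
    refine le_trans ?_ hS.m1
    have : ‖τ‖ * 1 ≤ ‖τ‖ * (1 + KK (2 ^ M) ε + mm (Sc κ (2 ^ M)) ε + mm (Sa (2 ^ M)) ε) :=
      mul_le_mul_of_nonneg_left (by linarith) hτ.le
    linarith
  have hb0 : 0 ≤ ‖τ‖ * b := mul_nonneg hτ.le hk.hb.le
  have hb1 : ‖τ‖ * b ≤ 1 := by
    have h1 : ‖τ‖ * b ≤ ‖τ‖ * 1 := mul_le_mul_of_nonneg_left hk.hb1 hτ.le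
    linarith [hS.le]
  have hlow := w_low5 hF hΛ hM hy hk.bd hb0 hb1 hd hc hℓ
  rw [← mul_assoc] at hlow
  have hsub : Bx (ch (2 ^ M) c ℓ e) (ℓ / ((2 ^ M : ℕ) : ℝ)) ⊆ Bx ξ 1 :=
    (Pool.Agent.Helper90.G2.bx_child_sub hℓ0 hN he).trans (Kids5_sub hM hd hc hℓ)
  have hst := step_int5 hF hΛ hN he (c := c) hℓ0 hℓ1 hτ hk hε (by linarith) hm
    (e1 := ε * ‖τ‖ ^ 2 * M) (by positivity) hS.s4 hτ2 hm1 hS.s1 y χ k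
    (fun u hu j => (hy u (hsub hu)).flag j) (Window5_fz rfl hN hy hd hc hℓ he) hVp
  rw [Vn_child F y χ κt (‖τ‖ * b) hN hc hℓ]
  refine Pool.Agent.Helper26.G4.WindowB_real hst (Real.exp_pos _).le hVp hw hlow hβ ?_
  rw [mul_assoc (1 - ‖τ‖ * b)]
  exact hEr

theorem window5 {F : ℂ → ℂ} {A : ℝ} (hF : Fn F A) {Λ : ℂ → ℂ → ℂ} (hΛ : Br F Λ) {M : ℕ}
    (hM : 1 ≤ M) {κt : ℂ → ℝ} {b c₀ B Cc m₁ Ca κ ε : ℝ} {τ : ℂ}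
    (hk : Tk κt (τ / ‖τ‖) b c₀ B Cc m₁) (hκ : 0 < κ) (hκ1 : κ ≤ 1 / 4)
    (hMκ : 2 / ((2 ^ M : ℕ) : ℝ) < κ ^ 2) (hε : 0 < ε) (hε1 : ε ≤ 1 / 20)
    (hS : Sm5 Ca b c₀ B Cc m₁ M κ ε ‖τ‖)
    {ξ : ℝ} {y χ : ℂ → ℕ → ℝ} (hy : Yf5 F Λ M ξ ε b B Cc τ y χ) {θ : ℝ}
    (hθ : 8 * ‖τ‖ ^ 2 * KK (2 ^ M) ε ^ 2 / ε ≤ θ) {k d : ℕ} (hd : d < (2 ^ M) ^ k)
    (hfin : Vn F y χ κt (‖τ‖ * b) (2 ^ M) ξ k d < ⊤) :
    (∀ e < 2 ^ M, Vn F y χ κt (‖τ‖ * b) (2 ^ M) ξ (k + 1) (2 ^ M * d + e) < ⊤) ∧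
    ∑ e ∈ Finset.range (2 ^ M), chi κ (C9 * ‖τ‖ ^ 2 * M) (2 ^ M) e *
        (Vn F y χ κt (‖τ‖ * b) (2 ^ M) ξ (k + 1) (2 ^ M * d + e)).toReal ^ (1 + θ) ≤
      Real.exp ((C9 * ‖τ‖ ^ 2 * M + 4 * ‖τ‖ ^ 2 * ε) * θ +
        ‖τ‖ ^ 2 * (ε * M + mm5 c₀ (Sc κ (2 ^ M)) ε) + 4 * ‖τ‖ ^ 2 * ε +
          3 * ε * (C9 * ‖τ‖ ^ 2 * M)) *
      (Vn F y χ κt (‖τ‖ * b) (2 ^ M) ξ k d).toReal ^ (1 + θ) := by
  have hN := Pool.Agent.Helper26.G4.WindowB_N hM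
  have hM1 : (1 : ℝ) ≤ M := by exact_mod_cast hM
  have hτ := hS.pos
  have hτ1 : ‖τ‖ ≤ 1 := hS.le.trans (by linarith)
  obtain ⟨hSa, hSc, hKK, hmSa, hmSc, -⟩ := Pool.Agent.Helper26.G4.sizes hN hκ hκ1 hε hε1
  obtain ⟨hmSa2, hmSc2⟩ := Window5_two (N := 2 ^ M) hκ hκ1 hε hε1
  obtain ⟨hnSa, hnSa'⟩ := Window5_mm5 hk.hc.le hk.hc1 hmSa2
  obtain ⟨hnSc, hnSc'⟩ := Window5_mm5 hk.hc.le hk.hc1 hmSc2
  have hmmSa := Pool.Agent.Helper26.G4.mm_Sa hM hε hε1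
  have hMKK := Pool.Agent.Helper26.G4.M_le_KK hM hε hε1
  have hp := Pool.Agent.Helper26.G4.Levels_pow hN k
  obtain ⟨c, hc⟩ : ∃ c : ℝ, c = ch ((2 ^ M) ^ k) ξ 1 d := ⟨_, rfl⟩
  obtain ⟨ℓ, hℓ⟩ : ∃ ℓ : ℝ, ℓ = 1 / ((2 ^ M : ℕ) : ℝ) ^ k := ⟨_, rfl⟩
  have hℓ0 : 0 < ℓ := by
    rw [hℓ]
    exact one_div_pos.2 hp
  have hℓ1 : ℓ ≤ 1 := by
    rw [hℓ]
    have := Pool.Agent.Helper26.G4.Levels_anti hN (Nat.zero_le k)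
    rwa [pow_zero, div_one] at this
  have hNR : (2 : ℝ) ≤ ((2 ^ M : ℕ) : ℝ) := by exact_mod_cast hN
  have hN0 : (0 : ℝ) < ((2 ^ M : ℕ) : ℝ) := by linarith
  have hq : (0 : ℝ) < 1 / ((2 ^ M : ℕ) : ℝ) := by positivity
  have hq1 : 1 / ((2 ^ M : ℕ) : ℝ) ≤ 1 / 2 := one_div_le_one_div_of_le (by norm_num) hNR
  have hv : 0 < (vt c ℓ).re := by
    show 0 < 2 * ℓ
    linarith
  have hR := Pool.Agent.Helper26.G4.rr_pos hF hv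
  have har := hF.ar_pos (c := c) hℓ0 hℓ1 hq hq1
  have hlowR := Pool.Agent.Helper26.G4.ar_low hF hN (c := c) hℓ0 hℓ1
  -- `β = |τ| b`
  have hb0 : 0 ≤ ‖τ‖ * b := mul_nonneg hτ.le hk.hb.le
  have hb1 : ‖τ‖ * b ≤ ε / 4 := by
    have h1 : ‖τ‖ * b ≤ ‖τ‖ * 1 := mul_le_mul_of_nonneg_left hk.hb1 hτ.le
    linarith [hS.le]
  -- `|τ| m0 ≤ m₁`
  have hm1 : ∀ m0 : ℝ, m0 ≤ 1 + KK (2 ^ M) ε + mm (Sc κ (2 ^ M)) ε + mm (Sa (2 ^ M)) ε →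
      ‖τ‖ * m0 ≤ m₁ := fun m0 h =>
    (mul_le_mul_of_nonneg_left h hτ.le).trans hS.m1
  -- additivity
  have hV : V5 F y χ κt (‖τ‖ * b) k (vt c ℓ) (Bx c ℓ) < ⊤ := by
    rw [Vn, ← hc, ← hℓ] at hfin
    exact hfin
  have hVr : (Vn F y χ κt (‖τ‖ * b) (2 ^ M) ξ k d).toReal =
      (V5 F y χ κt (‖τ‖ * b) k (vt c ℓ) (Bx c ℓ)).toReal := by
    rw [Vn, ← hc, ← hℓ]
  have hadd := V5_add (F := F) (y := y) (χ := χ) (κ := κt) (β := ‖τ‖ * b) (k := k) (N := 2 ^ M)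
    (v := vt c ℓ) (S := Bx c ℓ) (W := Wn c ℓ (1 / ((2 ^ M : ℕ) : ℝ)))
    (Q := fun e => Bx (ch (2 ^ M) c ℓ e) (ℓ / ((2 ^ M : ℕ) : ℝ)))
    (Pool.Agent.Helper90.G2.meas_wn _ _ _) (fun e _ => Pool.Agent.Helper90.G2.meas_bx _ _)
    (Pool.Agent.Helper90.G2.wn_sub hℓ0 hN)
    (fun e he => Pool.Agent.Helper90.G2.bx_child_sub hℓ0 hN he)
    (fun e _ e' _ hee => Pool.Agent.Helper90.G2.bx_disj hℓ0 hN hee)
    (fun e _ => Pool.Agent.Helper90.G2.wn_disj)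
  have hlt := lt_of_le_of_lt hadd hV
  have hw : V5 F y χ κt (‖τ‖ * b) k (vt c ℓ) (Wn c ℓ (1 / ((2 ^ M : ℕ) : ℝ))) < ⊤ :=
    (ENNReal.add_lt_top.1 hlt).1
  have hVp : ∀ e < 2 ^ M, V5 F y χ κt (‖τ‖ * b) k (vt c ℓ)
      (Bx (ch (2 ^ M) c ℓ e) (ℓ / ((2 ^ M : ℕ) : ℝ))) < ⊤ := fun e he =>
    ENNReal.sum_lt_top.1 (ENNReal.add_lt_top.1 hlt).2 e (Finset.mem_range.2 he)
  have h1 : (V5 F y χ κt (‖τ‖ * b) k (vt c ℓ) (Wn c ℓ (1 / ((2 ^ M : ℕ) : ℝ)))).toReal +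
      ∑ e ∈ Finset.range (2 ^ M), (V5 F y χ κt (‖τ‖ * b) k (vt c ℓ)
        (Bx (ch (2 ^ M) c ℓ e) (ℓ / ((2 ^ M : ℕ) : ℝ)))).toReal ≤
      (Vn F y χ κt (‖τ‖ * b) (2 ^ M) ξ k d).toReal := by
    rw [hVr, ← ENNReal.toReal_sum (fun e he => (hVp e (Finset.mem_range.1 he)).ne),
      ← ENNReal.toReal_add hw.ne (ENNReal.add_lt_top.1 hlt).2.ne]
    exact ENNReal.toReal_mono hV.ne hadd
  -- the three bounds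
  have h2 := fun (e : ℕ) (he : e < 2 ^ M) =>
    Window5_kid hF hΛ hM hk hκ hκ1 hε hε1 hS hy hd hc hℓ he hKK (hm1 _ (by linarith))
      (β := ε / ((2 ^ M : ℕ) : ℝ)) (by positivity) hw (hVp e he)
      (er5_KK hN hε hε1 hτ hk.hc.le hk.hc1 hk.hB hb0 hb1 hR har (norm_nonneg _) hlowR
        (Pool.Agent.Helper26.G4.dis_all hF hN he hℓ0 hℓ1) hS.s3 hS.s2)
  have h4 := fun (e : ℕ) (he : e < 2 ^ M) =>
    Window5_kid hF hΛ hM hk hκ hκ1 hε hε1 hS hy hd hc hℓ he hnSa (hm1 _ (by linarith))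
      (β := 1 - ε) (by linarith) hw (hVp e he)
      (er5_mm hN hε hε1 hτ hk.hc.le hk.hc1 hk.hB hb0 hb1 hSa hR har (norm_nonneg _) hlowR
        (Pool.Agent.Helper26.G4.dis_all hF hN he hℓ0 hℓ1) hS.s3 hS.s2)
  have h3 := fun (e : ℕ) (he : e < 2 ^ M) (hcen : Cen κ (2 ^ M) e) =>
    Window5_kid hF hΛ hM hk hκ hκ1 hε hε1 hS hy hd hc hℓ he hnSc (hm1 _ (by linarith))
      (β := 1 - ε) (by linarith) hw (hVp e he)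
      (er5_mm hN hε hε1 hτ hk.hc.le hk.hc1 hk.hB hb0 hb1 hSc hR har (norm_nonneg _) hlowR
        (Pool.Agent.Helper26.G4.dis_cen hF hN he hκ hκ1 hMκ hℓ0 hℓ1 hcen) hS.s3 hS.s2)
  refine ⟨fun e he => (h2 e he).1, ?_⟩
  -- parameters
  obtain ⟨K, hK⟩ : ∃ K : ℝ, K = KK (2 ^ M) ε := ⟨_, rfl⟩
  have hs6 := hS.s6
  rw [← hK] at hKK hMKK hθ h2 hs6
  obtain ⟨δ, hδ⟩ : ∃ δ : ℝ, δ = ‖τ‖ := ⟨_, rfl⟩
  obtain ⟨w, hwd⟩ : ∃ w : ℝ, w = (V5 F y χ κt (‖τ‖ * b) k (vt c ℓ)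
    (Wn c ℓ (1 / ((2 ^ M : ℕ) : ℝ)))).toReal := ⟨_, rfl⟩
  obtain ⟨v, hvd⟩ : ∃ v : ℝ, v = (Vn F y χ κt (‖τ‖ * b) (2 ^ M) ξ k d).toReal := ⟨_, rfl⟩
  obtain ⟨Vp, hVpd⟩ : ∃ Vp : ℕ → ℝ, ∀ e, (V5 F y χ κt (‖τ‖ * b) k (vt c ℓ)
    (Bx (ch (2 ^ M) c ℓ e) (ℓ / ((2 ^ M : ℕ) : ℝ)))).toReal = Vp e := ⟨_, fun e => rfl⟩
  obtain ⟨V, hVd⟩ : ∃ V : ℕ → ℝ, ∀ e,
    (Vn F y χ κt (‖τ‖ * b) (2 ^ M) ξ (k + 1) (2 ^ M * d + e)).toReal = V e := ⟨_, fun e => rfl⟩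
  have hw0 : 0 ≤ w := by
    rw [hwd]
    exact ENNReal.toReal_nonneg
  have hv0 : 0 ≤ v := by
    rw [hvd]
    exact ENNReal.toReal_nonneg
  have hVp0 : ∀ e, 0 ≤ Vp e := fun e => by
    rw [← hVpd]
    exact ENNReal.toReal_nonneg
  have hV0 : ∀ e, 0 ≤ V e := fun e => by
    rw [← hVd]
    exact ENNReal.toReal_nonneg
  have g2 : ∀ e < 2 ^ M, V e ≤ Real.exp (ε * δ ^ 2 * M + δ ^ 2 * K) * Vp e +
      ε / ((2 ^ M : ℕ) : ℝ) * w := fun e he => by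
    have := (h2 e he).2
    rwa [hVd, hVpd, ← hwd, ← hδ] at this
  have g4 : ∀ e < 2 ^ M, V e ≤ Real.exp (ε * δ ^ 2 * M + δ ^ 2 * mm5 c₀ (Sa (2 ^ M)) ε) * Vp e +
      (1 - ε) * w := fun e he => by
    have := (h4 e he).2
    rwa [hVd, hVpd, ← hwd, ← hδ] at this
  have g3 : ∀ e < 2 ^ M, Cen κ (2 ^ M) e →
      V e ≤ Real.exp (ε * δ ^ 2 * M + δ ^ 2 * mm5 c₀ (Sc κ (2 ^ M)) ε) * Vp e +
      (1 - ε) * w := fun e he hcen => by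
    have := (h3 e he hcen).2
    rwa [hVd, hVpd, ← hwd, ← hδ] at this
  have g1 : w + ∑ e ∈ Finset.range (2 ^ M), Vp e ≤ v := by
    simp only [hVpd] at h1
    rwa [← hwd, ← hvd] at h1
  simp only [hVd]
  rw [← hvd]
  clear h1 h2 h3 h4
  rw [← hδ] at hτ hτ1 hθ hs6 ⊢
  have hK0 : 0 < K := by linarith
  obtain ⟨x, hx⟩ : ∃ x : ℝ, x = ε * δ ^ 2 * M + δ ^ 2 * K := ⟨_, rfl⟩
  have hx0 : 0 ≤ x := by rw [hx]; positivity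
  have hx1 : x ≤ 2 * δ ^ 2 * K := by
    rw [hx]
    have : δ ^ 2 * (ε * M) ≤ δ ^ 2 * K := mul_le_mul_of_nonneg_left hMKK (by positivity)
    linarith
  have hx2 : 4 * δ ^ 2 * K ≤ ε / K / 2 := by
    rw [div_div, le_div_iff₀ (by positivity)]
    linarith
  have hη1 : ε / K ≤ ε := div_le_self hε.le hKK
  have hη0 : 0 ≤ ε / K := by positivity
  have ha0 : 0 ≤ Real.exp x - 1 := by
    have := Real.add_one_le_exp x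
    linarith
  have ha2 : Real.exp x - 1 ≤ 2 * x := by
    have hb := Real.exp_bound_div_one_sub_of_interval hx0 (by linarith : x < 1)
    have hc : 1 / (1 - x) ≤ 1 + 2 * x := by
      rw [div_le_iff₀ (by linarith)]
      nlinarith
    linarith
  have ha3 : Real.exp x - 1 ≤ 4 * δ ^ 2 * K := by linarith
  have hθ0 : 0 ≤ θ := le_trans (by positivity) hθ
  have haθ : Real.exp x - 1 ≤ θ * (ε / K / 2) := by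
    have e1 : 8 * δ ^ 2 * K ^ 2 / ε * (ε / K / 2) = 4 * δ ^ 2 * K := by
      field_simp
      norm_num
    have e2 := mul_le_mul_of_nonneg_right hθ (by positivity : 0 ≤ ε / K / 2)
    rw [e1] at e2
    linarith
  have hnSc0 : 0 ≤ mm5 c₀ (Sc κ (2 ^ M)) ε := by linarith
  have hrec := Pool.Agent.Helper26.G4.rec4 (κ := κ)
    (g := Real.exp (ε * δ ^ 2 * M + δ ^ 2 * mm5 c₀ (Sc κ (2 ^ M)) ε))
    (c := C9 * δ ^ 2 * M) (ε := ε) (η := ε / K) (θ := θ) (a := Real.exp x - 1)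
    (w := w) (v := v) (by omega : 0 < 2 ^ M) Vp V
    hw0 ha0 (by linarith) (by linarith) (Real.one_le_exp (by positivity))
    (by unfold C9; positivity) hε.le (by linarith) hη0 (by linarith) hθ0 haθ
    (fun e _ => hV0 e) (fun e _ => hVp0 e) g1 ?_ g3 ?_
  · refine hrec.trans ?_
    have hv0 : 0 ≤ v ^ (1 + θ) := Real.rpow_nonneg hv0 _
    refine mul_le_mul_of_nonneg_right ?_ hv0
    obtain ⟨G, hG⟩ : ∃ G : ℝ, G = ε * δ ^ 2 * M + δ ^ 2 * mm5 c₀ (Sc κ (2 ^ M)) ε := ⟨_, rfl⟩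
    have hG0 : 0 ≤ G := by rw [hG]; positivity
    obtain ⟨C, hC⟩ : ∃ C : ℝ, C = C9 * δ ^ 2 * M := ⟨_, rfl⟩
    have hC0 : 0 ≤ C := by rw [hC]; unfold C9; positivity
    rw [← hG, ← hC]
    have hg1 : 1 ≤ Real.exp G := Real.one_le_exp hG0
    have b1 : (Real.exp x - 1) * (ε / K) ≤ 4 * δ ^ 2 * ε := by
      calc (Real.exp x - 1) * (ε / K) ≤ 4 * δ ^ 2 * K * (ε / K) :=
            mul_le_mul_of_nonneg_right ha3 hη0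
        _ = 4 * δ ^ 2 * ε := by field_simp
    have b2 : C * (2 * (ε / K) + ε) ≤ 3 * ε * C := by nlinarith
    have b3 : 0 ≤ 4 * δ ^ 2 * ε + 3 * ε * C := by positivity
    have b4 : Real.exp G + (Real.exp x - 1) * (ε / K) + C * (2 * (ε / K) + ε) ≤
        Real.exp G * Real.exp (4 * δ ^ 2 * ε + 3 * ε * C) := by
      have b5 := Real.add_one_le_exp (4 * δ ^ 2 * ε + 3 * ε * C)
      nlinarith
    have b6 : Real.exp ((C + (Real.exp x - 1) * (ε / K)) * θ) ≤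
        Real.exp ((C + 4 * δ ^ 2 * ε) * θ) :=
      Real.exp_le_exp.2 (mul_le_mul_of_nonneg_right (by linarith) hθ0)
    have b7 : 0 ≤ Real.exp G + (Real.exp x - 1) * (ε / K) + C * (2 * (ε / K) + ε) := by
      have := mul_nonneg ha0 hη0
      positivity
    calc Real.exp ((C + (Real.exp x - 1) * (ε / K)) * θ) *
          (Real.exp G + (Real.exp x - 1) * (ε / K) + C * (2 * (ε / K) + ε))
        ≤ Real.exp ((C + 4 * δ ^ 2 * ε) * θ) *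
          (Real.exp G * Real.exp (4 * δ ^ 2 * ε + 3 * ε * C)) :=
          mul_le_mul b6 b4 b7 (Real.exp_pos _).le
      _ = Real.exp ((C + 4 * δ ^ 2 * ε) * θ + δ ^ 2 * (ε * M + mm5 c₀ (Sc κ (2 ^ M)) ε) +
          4 * δ ^ 2 * ε + 3 * ε * C) := by
          rw [← Real.exp_add, ← Real.exp_add, hG]
          congr 1
          ring
  · intro e he
    have k1 := g2 e he
    rw [← hx] at k1
    have e1 : 1 + (Real.exp x - 1) = Real.exp x := by ring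
    rw [e1]
    exact k1
  · intro e he
    refine (g4 e he).trans ?_
    have e1 : ε * δ ^ 2 * M + δ ^ 2 * mm5 c₀ (Sa (2 ^ M)) ε ≤ C9 * δ ^ 2 * M := by
      have e3 : ε * M + mm5 c₀ (Sa (2 ^ M)) ε ≤ C9 * M := by linarith
      have := mul_le_mul_of_nonneg_left e3 (by positivity : 0 ≤ δ ^ 2)
      linarith
    have e2 := mul_le_mul_of_nonneg_right (Real.exp_le_exp.2 e1) (hVp0 e)
    linarith

end Pool.Agent.Helper26.G5
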